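import Mathlib
import Pool.Agent.LibTG78.D5a
import Pool.Agent.LibTG78.C3
import Pool.Agent.LibTG78.B03

/-! # Moments of zeta twisted by the phase of an Euler product, model side: definitions -/

set_option autoImplicit false

namespace Pool.Agent.LibPH45

open MeasureTheory Filter Topology Pool.Agent.LibMM99 Pool.Agent.LibTG78
open scoped ComplexConjugate

/-- `p ^ (-1/2) * X_p` -/
noncomputable def wp (p : ℕ) (x : Om) : ℂ := zp 0 p * ch x p

/-- the phase of the Euler product over the primes up to `y` -/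
noncomputable def uu (y : ℝ) (x : Om) : ℂ := ZZ 0 1 y x / ((‖ZZ 0 1 y x‖ : ℝ) : ℂ)

/-- the argument of one factor -/
noncomputable def Xp (p : ℕ) (x : Om) : ℝ := -(Complex.log (1 - wp p x)).im

/-- the argument of the Euler product -/
noncomputable def XX (y : ℝ) (x : Om) : ℝ := ∑ p ∈ prm 1 y, Xp p x

/-- truncated logarithm of one factor: the powers of `p` up to `Y` -/
noncomputable def La (Y : ℝ) (p : ℕ) (x : Om) : ℂ := ∑ j ∈ Finset.Icc 1 (Nat.log p ⌊Y⌋₊), wp p x ^ j / j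

/-- truncated logarithm of the Euler product -/
noncomputable def AY (y Y : ℝ) (x : Om) : ℂ := ∑ p ∈ prm 1 y, La Y p x

/-- truncated Taylor series of the conjugate phase -/
noncomputable def PhN (N : ℕ) (y Y : ℝ) (x : Om) : ℂ :=
  ∑ n ∈ Finset.range N, (-(Complex.I * (((AY y Y x).im : ℝ) : ℂ))) ^ n / (n.factorial : ℂ)

/-- majorant of the Taylor remainder -/
noncomputable def RN (N : ℕ) (y Y : ℝ) (x : Om) : ℝ := ‖AY y Y x‖ ^ N / (N.factorial : ℝ)

/-- the main functional: normalised mean of two shifted Euler products, one conjugate one, and `Φ` -/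
noncomputable def JP (α β γ : ℂ) (y : ℝ) (Φ : Om → ℂ) : ℂ :=
  (∏ p ∈ prm 1 y, ((1 - zp α p * zp γ p) * (1 - zp β p * zp γ p))) *
    ∫ x, ZZ α 1 y x * ZZ β 1 y x * conj (ZZ (conj γ) 1 y x) * Φ x ∂mu

/-- the local factor of the main functional at the conjugate phase -/
noncomputable def fp (α β γ : ℂ) (p : ℕ) : ℂ :=
  ((1 - zp α p * zp γ p) * (1 - zp β p * zp γ p)) *
    ∫ x, (1 - zp α p * ch x p)⁻¹ * (1 - zp β p * ch x p)⁻¹ * (1 - zp γ p * conj (ch x p))⁻¹ *
      Complex.exp (-(Complex.I * ((Xp p x : ℝ) : ℂ))) ∂mu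

/-- one exponent of an exponential of product type: `H = Re (b X_p) + O(C/p)`, `‖b‖ ≤ C / √p` -/
structure Gd (C : ℝ) (p : ℕ) (b : ℂ) (H : Om → ℝ) : Prop where
  cont : Continuous H
  dep : DependsOn H ({p} : Set ℕ)
  nb : ‖b‖ ≤ C / Real.sqrt p
  app : ∀ x, |H x - (b * ch x p).re| ≤ C / p

/-- all primes up to `e ^ L` -/
def GdL (C L : ℝ) (b : ℕ → ℂ) (H : ℕ → Om → ℝ) : Prop := ∀ p ∈ prm 1 (Real.exp L), Gd C p (b p) (H p)

end Pool.Agent.LibPH45
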