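import Mathlib
import Pool.Agent.LibPH45.Defs

/-! Row 20.
Local: int (1-A w)^(-1)(1-B w)^(-1)(1-C conj w)^(-1) w^a conj(w)^b over the circle (|w| = 1) = sum_{k} h_{k+b-a}(A,B) C^k; cf. LibTG78/D2a circ_int and D2b_single for the assembly over primes. (rloc A B C 0 0 = 1.)
-/

set_option autoImplicit false

namespace Pool.Agent.LibPH45

open MeasureTheory Filter Topology Pool.Agent.LibMM99 Pool.Agent.LibTG78
open scoped ComplexConjugate

/-- complete homogeneous symmetric polynomial in two variables -/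
noncomputable def hh (A B : ℂ) (d : ℕ) : ℂ := ∑ i ∈ Finset.range (d + 1), A ^ i * B ^ (d - i)

/-- local factor of the main functional at a monomial -/
noncomputable def rloc (A B C : ℂ) (a b : ℕ) : ℂ :=
  if b ≤ a then C ^ (a - b) else hh A B (b - a) - A * B * C * hh A B (b - a - 1)

theorem P20_h_sub (A B : ℂ) {d : ℕ} (hd : 0 < d) : hh A B d - B ^ d = A * hh A B (d - 1) := by
  obtain ⟨e, rfl⟩ : ∃ e, d = e + 1 := ⟨d - 1, by omega⟩
  unfold hh
  rw [Finset.sum_range_succ', Finset.mul_sum]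
  simp only [pow_zero, one_mul, Nat.sub_zero, Nat.add_sub_cancel]
  rw [add_sub_cancel_right]
  refine Finset.sum_congr rfl fun i hi => ?_
  have : e + 1 - (i + 1) = e - i := by omega
  rw [this, pow_succ]
  ring

theorem P20_cont_one (p : ℕ) {z : ℂ} (hz : ‖z‖ < 1) (a b : ℕ) :
    Continuous fun x : Om => (1 - z * ch x p)⁻¹ * (ch x (p ^ a) * conj (ch x (p ^ b))) :=
  ((continuous_const.sub (continuous_const.mul (continuous_ch _))).inv₀ fun x => D2a_ne x p hz).mul
    ((continuous_ch _).mul (Complex.continuous_conj.comp (continuous_ch _)))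

theorem P20_cont_two (p : ℕ) {z : ℂ} (hz : ‖z‖ < 1) (a b : ℕ) :
    Continuous fun x : Om => (1 - z * conj (ch x p))⁻¹ * (ch x (p ^ a) * conj (ch x (p ^ b))) :=
  ((continuous_const.sub (continuous_const.mul (Complex.continuous_conj.comp
    (continuous_ch _)))).inv₀ fun x => D2a_ne' x p hz).mul
    ((continuous_ch _).mul (Complex.continuous_conj.comp (continuous_ch _)))

theorem P20_cont_three (p : ℕ) {A B : ℂ} (hA : ‖A‖ < 1) (hB : ‖B‖ < 1) (a b : ℕ) :
    Continuous fun x : Om => (1 - A * ch x p)⁻¹ * ((1 - B * ch x p)⁻¹ *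
      (ch x (p ^ a) * conj (ch x (p ^ b)))) :=
  ((continuous_const.sub (continuous_const.mul (continuous_ch _))).inv₀ fun x => D2a_ne x p hA).mul
    (P20_cont_one p hB a b)

/-- two one sided geometric series -/
theorem P20_two {p : ℕ} (hp : p.Prime) {A B : ℂ} (hA : ‖A‖ < 1) (hB : ‖B‖ < 1) (a b : ℕ) :
    ∫ x, (1 - A * ch x p)⁻¹ * ((1 - B * ch x p)⁻¹ * (ch x (p ^ a) * conj (ch x (p ^ b)))) ∂mu =
      if a ≤ b then hh A B (b - a) else 0 := by
  set F : ℕ → Om → ℂ := fun i x => A ^ i * ((1 - B * ch x p)⁻¹ *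
    (ch x (p ^ (i + a)) * conj (ch x (p ^ b)))) with hF
  have hcont : ∀ i, Continuous (F i) := fun i => continuous_const.mul (P20_cont_one p hB _ _)
  have hn : ∀ i x, ‖F i x‖ ≤ ‖A‖ ^ i * (1 - ‖B‖)⁻¹ := fun i x => by
    rw [hF]
    simp only [norm_mul, norm_pow, Complex.norm_conj, norm_ch, mul_one, norm_inv]
    refine mul_le_mul_of_nonneg_left ?_ (by positivity)
    apply inv_anti₀ (by linarith)
    have := norm_sub_norm_le (1 : ℂ) (B * ch x p)
    rw [norm_one, norm_mul, norm_ch, mul_one] at this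
    exact this
  have hsum : Summable fun i => ∫ x, ‖F i x‖ ∂mu := by
    refine Summable.of_nonneg_of_le (fun i => integral_nonneg fun x => norm_nonneg _)
      (fun i => ?_) ((summable_geometric_of_lt_one (norm_nonneg A) hA).mul_right (1 - ‖B‖)⁻¹)
    calc ∫ x, ‖F i x‖ ∂mu ≤ ∫ _, ‖A‖ ^ i * (1 - ‖B‖)⁻¹ ∂mu :=
          integral_mono (integrable_of_continuous (hcont i).norm) (integrable_const _) (hn i)
      _ = _ := by simp
  have key := hasSum_integral_of_summable_integral_norm (μ := mu) (F := F)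
    (fun i => integrable_of_continuous (hcont i)) hsum
  have e1 : ∀ x, ∑' i, F i x = (1 - A * ch x p)⁻¹ * ((1 - B * ch x p)⁻¹ *
      (ch x (p ^ a) * conj (ch x (p ^ b)))) := by
    intro x
    have h1 : ‖A * ch x p‖ < 1 := by rw [norm_mul, norm_ch, mul_one]; exact hA
    have h2 := (hasSum_geometric_of_norm_lt_one h1).mul_right ((1 - B * ch x p)⁻¹ *
      (ch x (p ^ a) * conj (ch x (p ^ b))))
    refine HasSum.tsum_eq ?_
    refine h2.congr_fun fun i => ?_
    rw [hF]
    simp only []
    rw [pow_add, ch_mul x (pow_ne_zero i hp.ne_zero) (pow_ne_zero a hp.ne_zero),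
      D2a_ch_pow x hp i, mul_pow]
    ring
  have e2 : ∀ i, ∫ x, F i x ∂mu = if i + a ≤ b then A ^ i * B ^ (b - (i + a)) else 0 := by
    intro i
    rw [hF]
    simp only []
    rw [integral_const_mul, D2a_one hp hB]
    split_ifs with h
    · rfl
    · rw [mul_zero]
  simp_rw [e1] at key
  simp_rw [e2] at key
  refine key.unique ?_
  by_cases hab : a ≤ b
  · rw [if_pos hab]
    have h3 : hh A B (b - a) = ∑ i ∈ Finset.range (b - a + 1),
        (if i + a ≤ b then A ^ i * B ^ (b - (i + a)) else 0) := by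
      unfold hh
      refine Finset.sum_congr rfl fun i hi => ?_
      rw [Finset.mem_range] at hi
      rw [if_pos (by omega)]
      congr 2
      omega
    rw [h3]
    apply hasSum_sum_of_ne_finset_zero
    intro i hi
    rw [Finset.mem_range] at hi
    rw [if_neg (by omega)]
  · rw [if_neg hab]
    have h3 : (fun i => if i + a ≤ b then A ^ i * B ^ (b - (i + a)) else 0) = fun _ => (0 : ℂ) := by
      funext i
      rw [if_neg (by omega)]
    rw [h3]
    exact hasSum_zero

theorem P20_nz {z w : ℂ} (hz : ‖z‖ < 1) (hw : ‖w‖ < 1) : 1 - z * w ≠ 0 := by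
  intro h
  have h1 : z * w = 1 := (sub_eq_zero.1 h).symm
  have h2 : ‖z‖ * ‖w‖ = 1 := by rw [← norm_mul, h1]; simp
  nlinarith [norm_nonneg z, norm_nonneg w]

/-- the local factor -/
theorem P20_local {p : ℕ} (hp : p.Prime) {A B C : ℂ} (hA : ‖A‖ < 1) (hB : ‖B‖ < 1) (hC : ‖C‖ < 1)
    (a b : ℕ) :
    ((1 - A * C) * (1 - B * C)) * ∫ x, (1 - A * ch x p)⁻¹ * (1 - B * ch x p)⁻¹ *
      (1 - C * conj (ch x p))⁻¹ * (ch x (p ^ a) * conj (ch x (p ^ b))) ∂mu = rloc A B C a b := by
  have h3c : Continuous fun x : Om => ch x (p ^ a) * conj (ch x (p ^ b)) :=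
    (continuous_ch _).mul (Complex.continuous_conj.comp (continuous_ch _))
  have e : ∀ x : Om, ((1 - A * C) * (1 - B * C)) * ((1 - A * ch x p)⁻¹ * (1 - B * ch x p)⁻¹ *
      (1 - C * conj (ch x p))⁻¹ * (ch x (p ^ a) * conj (ch x (p ^ b)))) =
      (1 - B * C) * ((1 - A * ch x p)⁻¹ * ((1 - B * ch x p)⁻¹ *
        (ch x (p ^ a) * conj (ch x (p ^ b))))) +
      B * C * ((1 - B * ch x p)⁻¹ * (ch x (p ^ a) * conj (ch x (p ^ b)))) +
      (1 - C * conj (ch x p))⁻¹ * (ch x (p ^ a) * conj (ch x (p ^ b))) -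
      ch x (p ^ a) * conj (ch x (p ^ b)) := by
    intro x
    have h1 := D2a_ne x p hA
    have h2 := D2a_ne x p hB
    have h3 := D2a_ne' x p hC
    have h4 := D2a_conj_mul x p
    have h5 : ((1 - A * C) * (1 - B * C)) * ((1 - A * ch x p)⁻¹ * (1 - B * ch x p)⁻¹ *
        (1 - C * conj (ch x p))⁻¹) = (1 - B * C) * ((1 - A * ch x p)⁻¹ * (1 - B * ch x p)⁻¹) +
        B * C * (1 - B * ch x p)⁻¹ + (1 - C * conj (ch x p))⁻¹ - 1 := by
      have h6 : (1 - A * C) * ((1 - A * ch x p)⁻¹ * (1 - C * conj (ch x p))⁻¹) =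
          (1 - A * ch x p)⁻¹ + (1 - C * conj (ch x p))⁻¹ - 1 := by
        field_simp
        linear_combination A * C * h4
      have h7 : (1 - B * C) * ((1 - B * ch x p)⁻¹ * (1 - C * conj (ch x p))⁻¹) =
          (1 - B * ch x p)⁻¹ + (1 - C * conj (ch x p))⁻¹ - 1 := by
        field_simp
        linear_combination B * C * h4
      linear_combination (1 - B * C) * (1 - B * ch x p)⁻¹ * h6 + h7
    linear_combination (ch x (p ^ a) * conj (ch x (p ^ b))) * h5
  rw [← integral_const_mul]
  simp_rw [e]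
  have i1 : Integrable (fun x : Om => (1 - B * C) * ((1 - A * ch x p)⁻¹ * ((1 - B * ch x p)⁻¹ *
        (ch x (p ^ a) * conj (ch x (p ^ b)))))) mu :=
    integrable_of_continuous (continuous_const.mul (P20_cont_three p hA hB a b))
  have i2 : Integrable (fun x : Om => B * C * ((1 - B * ch x p)⁻¹ *
      (ch x (p ^ a) * conj (ch x (p ^ b))))) mu :=
    integrable_of_continuous (continuous_const.mul (P20_cont_one p hB a b))
  have i3 := integrable_of_continuous (P20_cont_two p hC a b)
  have i4 := integrable_of_continuous h3c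
  have i12 : Integrable (fun x : Om => (1 - B * C) * ((1 - A * ch x p)⁻¹ * ((1 - B * ch x p)⁻¹ *
        (ch x (p ^ a) * conj (ch x (p ^ b))))) + B * C * ((1 - B * ch x p)⁻¹ *
      (ch x (p ^ a) * conj (ch x (p ^ b))))) mu := i1.add i2
  have i123 : Integrable (fun x : Om => (1 - B * C) * ((1 - A * ch x p)⁻¹ * ((1 - B * ch x p)⁻¹ *
        (ch x (p ^ a) * conj (ch x (p ^ b))))) + B * C * ((1 - B * ch x p)⁻¹ *
      (ch x (p ^ a) * conj (ch x (p ^ b)))) +
      (1 - C * conj (ch x p))⁻¹ * (ch x (p ^ a) * conj (ch x (p ^ b)))) mu := i12.add i3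
  rw [integral_sub i123 i4, integral_add i12 i3, integral_add i1 i2,
    integral_const_mul, integral_const_mul, P20_two hp hA hB, D2a_one hp hB, D2a_two hp hC,
    integral_ch (pow_ne_zero _ hp.ne_zero) (pow_ne_zero _ hp.ne_zero)]
  have hinj : (p ^ a = p ^ b) ↔ a = b := (Nat.pow_right_injective hp.two_le).eq_iff
  unfold rloc
  rcases lt_trichotomy a b with h | h | h
  · have n1 : ¬ b ≤ a := by omega
    have n2 : ¬ p ^ a = p ^ b := fun h' => by have := hinj.1 h'; omega
    simp only [if_pos h.le, if_neg n1, if_neg n2]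
    have h1 := P20_h_sub A B (d := b - a) (by omega)
    linear_combination (-(B * C)) * h1
  · subst h
    simp [hh]
  · have n1 : ¬ a ≤ b := by omega
    have n2 : ¬ p ^ a = p ^ b := fun h' => by have := hinj.1 h'; omega
    simp only [if_pos h.le, if_neg n1, if_neg n2]
    ring

theorem JP_mono {L : ℝ} {α β γ : ℂ} (hα : Adm α L) (hβ : Adm β L) (hγ : Adm γ L) {m n : ℕ} (hm : m ≠ 0) (hn : n ≠ 0)
    (hsm : m.primeFactors ⊆ prm 1 (Real.exp L)) (hsn : n.primeFactors ⊆ prm 1 (Real.exp L)) :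
    JP α β γ (Real.exp L) (fun x => ch x m * conj (ch x n)) =
      ∏ p ∈ (m * n).primeFactors, rloc (zp α p) (zp β p) (zp γ p) (m.factorization p) (n.factorization p) := by
  unfold JP
  set P := prm 1 (Real.exp L) with hP
  have hpr : ∀ p ∈ P, p.Prime := fun p hp => (D2b_mem_prm.1 hp).1
  set H : ℕ → Om → ℂ := fun p x => (1 - zp α p * ch x p)⁻¹ * (1 - zp β p * ch x p)⁻¹ *
    (1 - zp γ p * conj (ch x p))⁻¹ *
    (ch x (p ^ m.factorization p) * conj (ch x (p ^ n.factorization p))) with hH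
  have e1 : ∀ x, ZZ α 1 (Real.exp L) x * ZZ β 1 (Real.exp L) x *
      conj (ZZ (conj γ) 1 (Real.exp L) x) * (ch x m * conj (ch x n)) = ∏ p ∈ P, H p x := by
    intro x
    unfold ZZ
    rw [D2b_ch_prod x P hsm, D2b_ch_prod x P hsn, map_prod, map_prod, ← hP,
      ← Finset.prod_mul_distrib, ← Finset.prod_mul_distrib, ← Finset.prod_mul_distrib,
      ← Finset.prod_mul_distrib]
    refine Finset.prod_congr rfl fun p _ => ?_
    rw [hH]
    simp only [map_inv₀, map_sub, map_one, map_mul, D2b_conj_zp]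
  have hcH : ∀ p ∈ P, Continuous (H p) := fun p hp => by
    have hzα := D2b_zp_lt hα (hpr p hp)
    have hzβ := D2b_zp_lt hβ (hpr p hp)
    have hzγ := D2b_zp_lt hγ (hpr p hp)
    exact ((((continuous_const.sub (continuous_const.mul (continuous_ch _))).inv₀
      fun x => D2a_ne x p hzα).mul ((continuous_const.sub (continuous_const.mul
        (continuous_ch _))).inv₀ fun x => D2a_ne x p hzβ)).mul
      ((continuous_const.sub (continuous_const.mul
        (Complex.continuous_conj.comp (continuous_ch _)))).inv₀ fun x => D2a_ne' x p hzγ)).mul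
      ((continuous_ch _).mul (Complex.continuous_conj.comp (continuous_ch _)))
  have hdH : ∀ p ∈ P, DependsOn (H p) ({p} : Set ℕ) := fun p hp x y hxy => by
    have d1 := D2b_dep_pow (hpr p hp) 1 hxy
    have d2 := D2b_dep_pow (hpr p hp) (m.factorization p) hxy
    have d3 := D2b_dep_pow (hpr p hp) (n.factorization p) hxy
    simp only [pow_one] at d1 d2 d3
    rw [hH]
    simp only []
    rw [d1, d2, d3]
  simp_rw [e1]
  rw [D2b_prod_int P H hcH hdH, ← Finset.prod_mul_distrib]
  have hsub : (m * n).primeFactors ⊆ P := by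
    rw [Nat.primeFactors_mul hm hn]
    exact Finset.union_subset hsm hsn
  symm
  rw [Finset.prod_subset hsub (f := fun p => rloc (zp α p) (zp β p) (zp γ p)
    (m.factorization p) (n.factorization p))]
  · refine Finset.prod_congr rfl fun p hp => ?_
    rw [hH]
    exact (P20_local (hpr p hp) (D2b_zp_lt hα (hpr p hp)) (D2b_zp_lt hβ (hpr p hp))
      (D2b_zp_lt hγ (hpr p hp)) _ _).symm
  · intro p _ hp
    rw [Nat.primeFactors_mul hm hn, Finset.mem_union, not_or] at hp
    have h1 : m.factorization p = 0 := by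
      rw [← Nat.support_factorization, Finsupp.notMem_support_iff] at hp
      exact hp.1
    have h2 : n.factorization p = 0 := by
      rw [← Nat.support_factorization n, Finsupp.notMem_support_iff] at hp
      exact hp.2
    rw [h1, h2]
    simp [rloc]

end Pool.Agent.LibPH45
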