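import Mathlib
import Pool.Agent.LibPH45.Defs

/-! Row 01.
zp 0 p = p^(-1/2) (LibTG78: zp_zero in C1a, norm_zp_zero in C3), |ch| = 1 (norm_ch). Complex.log continuous on re > 0 (1 - wp has re > 0). conj_uu: (1-w)^(-1) = exp(-log(1-w)), product -> exp of sum, norm = exp of the real part, divide, conj. prm members: t12_mem_prm / D2b_mem_prm; dependence: dependsOn_ch, D2b_dep_pow, B03_dep.
-/

set_option autoImplicit false

namespace Pool.Agent.LibPH45

open MeasureTheory Filter Topology Pool.Agent.LibMM99 Pool.Agent.LibTG78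
open scoped ComplexConjugate

theorem P01_zp_zero {p : ℕ} : zp 0 p = (((Real.sqrt p)⁻¹ : ℝ) : ℂ) := by
  unfold zp
  have h0 : (0 : ℝ) ≤ p := Nat.cast_nonneg p
  have h1 : -(1 / 2 : ℂ) - 0 = ((-(1 / 2) : ℝ) : ℂ) := by push_cast; ring
  rw [h1, ← Complex.ofReal_natCast, ← Complex.ofReal_cpow h0, Real.rpow_neg h0, Real.sqrt_eq_rpow]

theorem P01_norm_zp (p : ℕ) : ‖zp 0 p‖ = (Real.sqrt p)⁻¹ := by
  rw [P01_zp_zero, Complex.norm_real, Real.norm_of_nonneg (by positivity)]

theorem P01_sqrt {p : ℕ} (hp : p.Prime) : (Real.sqrt p)⁻¹ < 3 / 4 := by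
  have h2 : (2 : ℝ) ≤ p := by exact_mod_cast hp.two_le
  have h3 : (4 / 3 : ℝ) < Real.sqrt p := by
    apply Real.lt_sqrt_of_sq_lt
    norm_num
    linarith
  have h4 : (Real.sqrt p)⁻¹ < (4 / 3 : ℝ)⁻¹ := inv_strictAnti₀ (by norm_num) h3
  norm_num at h4 ⊢
  exact h4

theorem norm_wp {p : ℕ} (hp : p.Prime) (x : Om) : ‖wp p x‖ = (Real.sqrt p)⁻¹ ∧ ‖wp p x‖ < 3 / 4 := by
  have h1 : ‖wp p x‖ = (Real.sqrt p)⁻¹ := by
    unfold wp
    rw [norm_mul, norm_ch, mul_one, P01_norm_zp]
  exact ⟨h1, h1 ▸ P01_sqrt hp⟩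

theorem P01_slit {p : ℕ} (hp : p.Prime) (x : Om) : 1 - wp p x ∈ Complex.slitPlane := by
  rw [Complex.mem_slitPlane_iff]
  left
  have h1 := (norm_wp hp x).2
  have h2 := Complex.re_le_norm (wp p x)
  rw [Complex.sub_re, Complex.one_re]
  linarith

theorem P01_ne {p : ℕ} (hp : p.Prime) (x : Om) : 1 - wp p x ≠ 0 :=
  Complex.slitPlane_ne_zero (P01_slit hp x)

theorem P01_dep_wp {p : ℕ} (hp : p.Prime) : DependsOn (wp p) ({p} : Set ℕ) := by
  intro x y h
  have h1 : ch x p = ch y p := dependsOn_ch p (x := x) (y := y) (fun i hi => h i (by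
    rw [hp.primeFactors] at hi
    simpa using hi))
  unfold wp
  rw [h1]

theorem P01_cont_wp (p : ℕ) : Continuous (wp p) := by
  unfold wp
  exact continuous_const.mul (continuous_ch p)

theorem Xp_cont {p : ℕ} (hp : p.Prime) : Continuous (Xp p) ∧ DependsOn (Xp p) ({p} : Set ℕ) := by
  constructor
  · unfold Xp
    exact (Complex.continuous_im.comp
      ((continuous_const.sub (P01_cont_wp p)).clog (fun x => P01_slit hp x))).neg
  · intro x y h
    have h1 : wp p x = wp p y := P01_dep_wp hp h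
    unfold Xp
    rw [h1]

theorem P01_ZZ (y : ℝ) (x : Om) :
    ZZ 0 1 y x = Complex.exp (∑ p ∈ prm 1 y, -Complex.log (1 - wp p x)) := by
  unfold ZZ
  rw [Complex.exp_sum]
  refine Finset.prod_congr rfl fun p hp => ?_
  have hpp := (t12_mem_prm.1 hp).1
  rw [Complex.exp_neg, Complex.exp_log (P01_ne hpp x)]
  rfl

theorem conj_uu (y : ℝ) (x : Om) : conj (uu y x) = Complex.exp (-(Complex.I * ((XX y x : ℝ) : ℂ))) := by
  unfold uu
  rw [P01_ZZ]
  set S : ℂ := ∑ p ∈ prm 1 y, -Complex.log (1 - wp p x) with hS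
  have h1 : XX y x = S.im := by
    rw [hS, Complex.im_sum]
    unfold XX Xp
    refine Finset.sum_congr rfl fun p _ => ?_
    rw [Complex.neg_im]
  rw [h1, Complex.norm_exp, Complex.ofReal_exp, ← Complex.exp_sub, ← Complex.exp_conj]
  congr 1
  apply Complex.ext
  · simp
  · simp

theorem uu_cont (y : ℝ) : Continuous (uu y) ∧ DependsOn (uu y) (coo 1 y) := by
  have h1 : ∀ x, uu y x = conj (Complex.exp (-(Complex.I * ((XX y x : ℝ) : ℂ)))) := fun x => by
    rw [← conj_uu, Complex.conj_conj]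
  constructor
  · have h2 : uu y = fun x => conj (Complex.exp (-(Complex.I * ((XX y x : ℝ) : ℂ)))) := funext h1
    have h3 : Continuous (XX y) := by
      unfold XX
      exact continuous_finsetSum _ fun p hp => (Xp_cont (t12_mem_prm.1 hp).1).1
    rw [h2]
    exact Complex.continuous_conj.comp (Complex.continuous_exp.comp
      (continuous_const.mul (Complex.continuous_ofReal.comp h3)).neg)
  · intro x x' h
    have h3 : XX y x = XX y x' := by
      unfold XX
      refine Finset.sum_congr rfl fun p hp => ?_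
      have hp' := t12_mem_prm.1 hp
      exact (Xp_cont hp'.1).2 (fun i hi => h i (by
        rw [Set.mem_singleton_iff] at hi
        rw [hi]
        exact ⟨hp'.2.1, hp'.2.2⟩))
    rw [h1, h1, h3]

end Pool.Agent.LibPH45
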