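import Mathlib
import Pool.Agent.LibPH45.Defs

/-! Row 05. -/

set_option autoImplicit false

namespace Pool.Agent.LibPH45

open MeasureTheory Filter Topology Pool.Agent.LibMM99 Pool.Agent.LibTG78
open scoped ComplexConjugate

/-- a two sided polynomial indexed by an arbitrary finite family -/
theorem P05_of_sum {ι : Type*} (s : Finset ι) (n m : ι → ℕ) (c : ι → ℂ) {a : ℝ} {Φ : Om → ℂ}
    (h1 : ∀ i ∈ s, 1 ≤ n i ∧ 1 ≤ m i ∧ (n i : ℝ) ≤ Real.exp a ∧ (m i : ℝ) ≤ Real.exp a)
    (h2 : ∑ i ∈ s, ‖c i‖ ≤ Real.exp a)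
    (h3 : ∀ x, Φ x = ∑ i ∈ s, c i * ch x (n i) * conj (ch x (m i))) : IsPoly a Φ := by
  classical
  refine ⟨s.image fun i => (n i, m i), fun q => ∑ i ∈ s with (n i, m i) = q, c i, ?_, ?_, ?_⟩
  · intro q hq
    obtain ⟨i, hi, rfl⟩ := Finset.mem_image.1 hq
    exact h1 i hi
  · refine le_trans ?_ h2
    rw [← Finset.sum_fiberwise_of_maps_to (s := s) (t := s.image fun i => (n i, m i))
      (g := fun i => (n i, m i)) (fun i hi => Finset.mem_image_of_mem _ hi) (fun i => ‖c i‖)]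
    exact Finset.sum_le_sum fun q _ => norm_sum_le _ _
  · intro x
    rw [h3 x, ← Finset.sum_fiberwise_of_maps_to (s := s) (t := s.image fun i => (n i, m i))
      (g := fun i => (n i, m i)) (fun i hi => Finset.mem_image_of_mem _ hi)]
    apply Finset.sum_congr rfl
    intro q _
    rw [Finset.sum_mul, Finset.sum_mul]
    apply Finset.sum_congr rfl
    intro i hi
    obtain ⟨_, rfl⟩ := Finset.mem_filter.1 hi
    rfl

theorem P05_geom (r : ℝ) (J : ℕ) : (1 - r) * ∑ j ∈ Finset.Icc 1 J, r ^ j = r * (1 - r ^ J) := by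
  induction J with
  | zero => simp
  | succ J ih =>
    rw [Finset.sum_Icc_succ_top (by omega), mul_add, ih]
    ring

theorem P05_norm {p : ℕ} (hp : p.Prime) : ‖zp 0 p‖ ≤ 71 / 100 := by
  have h1 := norm_zp_zero hp
  have h2 : ((p : ℝ))⁻¹ ≤ 1 / 2 := by
    rw [inv_eq_one_div]
    exact one_div_le_one_div_of_le (by norm_num) (by exact_mod_cast hp.two_le)
  refine abs_le_of_sq_le_sq' ?_ (by norm_num) |>.2
  rw [h1]
  norm_num
  linarith

theorem P05_inner {p : ℕ} (hp : p.Prime) (J : ℕ) : ∑ j ∈ Finset.Icc 1 J, ‖zp 0 p ^ j / (j : ℂ)‖ ≤ 5 / 2 := by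
  have hr := P05_norm hp
  have hr0 : 0 ≤ ‖zp 0 p‖ := norm_nonneg _
  have h1 : ∑ j ∈ Finset.Icc 1 J, ‖zp 0 p ^ j / (j : ℂ)‖ ≤ ∑ j ∈ Finset.Icc 1 J, ‖zp 0 p‖ ^ j := by
    refine Finset.sum_le_sum fun j hj => ?_
    have hj1 : (1 : ℝ) ≤ j := by exact_mod_cast (Finset.mem_Icc.1 hj).1
    rw [norm_div, norm_pow, Complex.norm_natCast]
    exact div_le_self (by positivity) hj1
  refine h1.trans ?_
  have h2 := P05_geom ‖zp 0 p‖ J
  have h3 : ‖zp 0 p‖ * (1 - ‖zp 0 p‖ ^ J) ≤ ‖zp 0 p‖ * 1 :=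
    mul_le_mul_of_nonneg_left (by have : 0 ≤ ‖zp 0 p‖ ^ J := by positivity
                                  linarith) hr0
  have h4 : 0 ≤ ∑ j ∈ Finset.Icc 1 J, ‖zp 0 p‖ ^ j := Finset.sum_nonneg fun j _ => by positivity
  nlinarith

theorem P05_ch_pow (x : Om) {p : ℕ} (hp : p.Prime) (j : ℕ) : ch x (p ^ j) = ch x p ^ j := D2a_ch_pow x hp j

theorem AY_poly {y Y : ℝ} (hy : 3 ≤ y) (hY : y ^ 2 ≤ Y) :
    IsPoly (Real.log Y) (AY y Y) ∧ DependsOn (AY y Y) (coo 1 y) := by
  have hY9 : 9 ≤ Y := by nlinarith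
  have hY0 : 0 < Y := by linarith
  constructor
  · refine P05_of_sum ((prm 1 y).sigma fun p => Finset.Icc 1 (Nat.log p ⌊Y⌋₊)) (fun i => i.1 ^ i.2) (fun _ => 1)
      (fun i => zp 0 i.1 ^ i.2 / (i.2 : ℂ)) ?_ ?_ ?_
    · rintro ⟨p, j⟩ hi
      rw [Finset.mem_sigma] at hi
      obtain ⟨h1, h2⟩ := hi
      dsimp only at h1 h2 ⊢
      rw [Finset.mem_Icc] at h2
      have hp := (D2b_mem_prm.1 h1).1
      rw [Real.exp_log hY0]
      refine ⟨Nat.one_le_pow _ _ hp.pos, le_rfl, ?_, by push_cast; linarith⟩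
      have h3 : p ^ j ≤ ⌊Y⌋₊ := by
        have hfl : ⌊Y⌋₊ ≠ 0 := by
          have : 1 ≤ ⌊Y⌋₊ := Nat.le_floor (by push_cast; linarith)
          omega
        exact (Nat.pow_le_pow_right hp.pos h2.2).trans (Nat.pow_log_le_self p hfl)
      exact (Nat.cast_le.2 h3).trans (Nat.floor_le hY0.le)
    · rw [Finset.sum_sigma, Real.exp_log hY0]
      calc ∑ p ∈ prm 1 y, ∑ j ∈ Finset.Icc 1 (Nat.log p ⌊Y⌋₊), ‖zp 0 p ^ j / (j : ℂ)‖
          ≤ ∑ p ∈ prm 1 y, (5 / 2 : ℝ) := Finset.sum_le_sum fun p hp => P05_inner (D2b_mem_prm.1 hp).1 _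
        _ = (prm 1 y).card * (5 / 2) := by rw [Finset.sum_const, nsmul_eq_mul]
        _ ≤ y * (5 / 2) := by
            refine mul_le_mul_of_nonneg_right ?_ (by norm_num)
            have h1 : (prm 1 y).card ≤ ⌊y⌋₊ := by
              unfold prm
              refine (Finset.card_filter_le _ _).trans ?_
              simp
            calc ((prm 1 y).card : ℝ) ≤ (⌊y⌋₊ : ℝ) := by exact_mod_cast h1
              _ ≤ y := Nat.floor_le (by linarith)
        _ ≤ Y := by nlinarith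
    · intro x
      rw [Finset.sum_sigma]
      unfold AY La
      refine Finset.sum_congr rfl fun p hp => Finset.sum_congr rfl fun j _ => ?_
      dsimp only
      rw [P05_ch_pow x (D2b_mem_prm.1 hp).1, ch_one, map_one, mul_one]
      unfold wp
      rw [mul_pow]
      ring
  · intro x x' hxy
    unfold AY La wp
    refine Finset.sum_congr rfl fun p hp => Finset.sum_congr rfl fun j _ => ?_
    obtain ⟨h1, h2, h3⟩ := D2b_mem_prm.1 hp
    have h4 : ch x p = ch x' p := dependsOn_ch p (fun i hi => hxy i (by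
      rw [h1.primeFactors] at hi
      have : i = p := by simpa using hi
      rw [this]
      exact ⟨h2, h3⟩))
    rw [h4]

theorem PhN_poly {y Y : ℝ} (hy : 3 ≤ y) (hY : y ^ 2 ≤ Y) (N : ℕ) :
    IsPoly (N * (Real.log Y + 2)) (PhN N y Y) ∧ DependsOn (PhN N y Y) (coo 1 y) := by
  obtain ⟨h1, h2⟩ := AY_poly hy hY
  have hY9 : 9 ≤ Y := by nlinarith
  have hlog : 0 ≤ Real.log Y := Real.log_nonneg (by linarith)
  constructor
  · have hB : IsPoly (Real.log Y + 1) (fun x => -(Complex.I * (((AY y Y x).im : ℝ) : ℂ))) := by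
      have h3 := (Pool.Agent.LibMM99.IsPoly.const (1 / 2 : ℂ) (a := 0) le_rfl (by norm_num)).mul (h1.conj.sub h1)
      have e : (fun x => -(Complex.I * (((AY y Y x).im : ℝ) : ℂ))) =
          fun x => (1 / 2 : ℂ) * ((starRingEnd ℂ) (AY y Y x) - AY y Y x) := by
        funext x
        apply Complex.ext
        · simp
        · simp
          ring
      rw [e]
      rw [zero_add] at h3
      exact h3
    have h4 := Pool.Agent.LibMM99.IsPoly.sum (Finset.range N) (a := N * (Real.log Y + 1))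
      (fun n x => (1 / (n.factorial : ℂ)) * (-(Complex.I * (((AY y Y x).im : ℝ) : ℂ))) ^ n) (fun n hn => by
        have hn' : n < N := Finset.mem_range.1 hn
        have h5 := (Pool.Agent.LibMM99.IsPoly.const (1 / (n.factorial : ℂ)) (a := 0) le_rfl (by
          rw [norm_div, norm_one, Complex.norm_natCast, Real.exp_zero]
          refine div_le_one_of_le₀ ?_ (by positivity)
          exact_mod_cast Nat.one_le_iff_ne_zero.2 (Nat.factorial_ne_zero n))).mul (hB.pow n)
        rw [zero_add] at h5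
        refine h5.mono ?_
        refine mul_le_mul_of_nonneg_right ?_ (by linarith)
        exact_mod_cast hn'.le)
    rw [Finset.card_range] at h4
    have e : PhN N y Y = fun x => ∑ n ∈ Finset.range N,
        (1 / (n.factorial : ℂ)) * (-(Complex.I * (((AY y Y x).im : ℝ) : ℂ))) ^ n := by
      funext x
      unfold PhN
      exact Finset.sum_congr rfl fun n _ => by ring
    rw [e]
    exact h4.mono (by linarith)
  · intro x x' hxy
    unfold PhN
    rw [h2 hxy]

theorem RN_poly {y Y : ℝ} (hy : 3 ≤ y) (hY : y ^ 2 ≤ Y) (N : ℕ) :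
    IsPolyR (2 * N * Real.log Y) (fun x => RN N y Y x ^ 2) ∧ DependsOn (fun x => RN N y Y x ^ 2) (coo 1 y) := by
  obtain ⟨h1, h2⟩ := AY_poly hy hY
  constructor
  · have h3 := h1.normPow N
    have hf1 : (1 : ℝ) ≤ N.factorial := by exact_mod_cast Nat.one_le_iff_ne_zero.2 (Nat.factorial_ne_zero N)
    have h4 := (IsPolyR.const ((1 / (N.factorial : ℝ)) ^ 2) (a := 0) le_rfl (by
      rw [abs_of_nonneg (by positivity), Real.exp_zero]
      refine pow_le_one₀ (by positivity) ?_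
      exact div_le_one_of_le₀ hf1 (by positivity))).mul h3
    rw [zero_add] at h4
    have e : (fun x => RN N y Y x ^ 2) = fun x => (1 / (N.factorial : ℝ)) ^ 2 * ‖AY y Y x‖ ^ (2 * N) := by
      funext x
      unfold RN
      rw [div_pow, div_pow, one_pow, ← pow_mul, mul_comm N 2]
      ring
    rw [e]
    exact h4
  · intro x x' hxy
    dsimp only
    unfold RN
    rw [h2 hxy]

end Pool.Agent.LibPH45
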