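import Mathlib
import Pool.Agent.LibPH45.Defs

/-! Row 02.
Induction on N: F_N(a) = exp(-ia) - sum has derivative -i F_{N-1}(a), F_N(0) = 0, integrate |F_{N-1}(s)| <= |s|^(N-1)/(N-1)! (or known Mathlib Taylor bounds for exp(ia)); reduce to a >= 0 by conjugation.
-/

set_option autoImplicit false

namespace Pool.Agent.LibPH45

open MeasureTheory Filter Topology Pool.Agent.LibMM99 Pool.Agent.LibTG78
open scoped ComplexConjugate

lemma P02_aux (c : ℂ) (hc : c.re = 0) (hc1 : ‖c‖ = 1) (N : ℕ) : ∀ a : ℝ, 0 ≤ a →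
    ‖Complex.exp (c * (a : ℂ)) - ∑ n ∈ Finset.range N, (c * (a : ℂ)) ^ n / (n.factorial : ℂ)‖ ≤
      a ^ N / (N.factorial : ℝ) := by
  induction N with
  | zero =>
    intro a _
    have h : (c * (a : ℂ)).re = 0 := by simp [hc]
    simp [Complex.norm_exp, h]
  | succ N ih =>
    intro a ha
    have hd : ∀ x : ℝ, HasDerivAt (fun t : ℝ => Complex.exp (c * (t : ℂ)) -
        ∑ n ∈ Finset.range (N + 1), (c * (t : ℂ)) ^ n / (n.factorial : ℂ))
        (c * (Complex.exp (c * (x : ℂ)) -
          ∑ n ∈ Finset.range N, (c * (x : ℂ)) ^ n / (n.factorial : ℂ))) x := by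
      intro x
      have h0 : HasDerivAt (fun t : ℝ => c * (t : ℂ)) c x := by
        have := (Complex.ofRealCLM.hasDerivAt (x := x)).const_mul c
        simpa using this
      have h1 : HasDerivAt (fun t : ℝ => Complex.exp (c * (t : ℂ)))
          (Complex.exp (c * (x : ℂ)) * c) x := h0.cexp
      have h2 : HasDerivAt (fun t : ℝ => ∑ n ∈ Finset.range (N + 1),
          (c * (t : ℂ)) ^ n / (n.factorial : ℂ))
          (c * ∑ n ∈ Finset.range N, (c * (x : ℂ)) ^ n / (n.factorial : ℂ)) x := by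
        have h3 : ∀ n ∈ Finset.range (N + 1), HasDerivAt (fun t : ℝ =>
            (c * (t : ℂ)) ^ n / (n.factorial : ℂ))
            ((n : ℂ) * (c * (x : ℂ)) ^ (n - 1) * c / (n.factorial : ℂ)) x := by
          intro n _
          exact (h0.pow n).div_const _
        have h4 := HasDerivAt.fun_sum h3
        refine h4.congr_deriv ?_
        rw [Finset.sum_range_succ', Finset.mul_sum]
        simp only [Nat.cast_zero, zero_mul, zero_div, add_zero]
        refine Finset.sum_congr rfl fun n _ => ?_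
        rw [Nat.add_sub_cancel, Nat.factorial_succ]
        have h5 : ((n + 1 : ℕ) : ℂ) ≠ 0 := Nat.cast_ne_zero.2 (Nat.succ_ne_zero n)
        have h6 : ((n.factorial : ℕ) : ℂ) ≠ 0 := Nat.cast_ne_zero.2 (Nat.factorial_ne_zero n)
        rw [Nat.cast_mul]
        field_simp
      refine (h1.sub h2).congr_deriv ?_
      ring
    have hB : ∀ x : ℝ, HasDerivAt (fun t : ℝ => t ^ (N + 1) / ((N + 1).factorial : ℝ))
        (x ^ N / (N.factorial : ℝ)) x := by
      intro x
      have h1 := ((hasDerivAt_id x).pow (N + 1)).div_const ((N + 1).factorial : ℝ)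
      refine h1.congr_deriv ?_
      rw [Nat.add_sub_cancel, Nat.factorial_succ, Nat.cast_mul]
      have h5 : ((N + 1 : ℕ) : ℝ) ≠ 0 := Nat.cast_ne_zero.2 (Nat.succ_ne_zero N)
      have h6 : ((N.factorial : ℕ) : ℝ) ≠ 0 := Nat.cast_ne_zero.2 (Nat.factorial_ne_zero N)
      simp only [id]
      field_simp
    refine image_norm_le_of_norm_deriv_right_le_deriv_boundary (a := 0) (b := a)
      (f := fun t : ℝ => Complex.exp (c * (t : ℂ)) -
        ∑ n ∈ Finset.range (N + 1), (c * (t : ℂ)) ^ n / (n.factorial : ℂ))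
      (f' := fun x : ℝ => c * (Complex.exp (c * (x : ℂ)) -
          ∑ n ∈ Finset.range N, (c * (x : ℂ)) ^ n / (n.factorial : ℂ)))
      (B := fun t : ℝ => t ^ (N + 1) / ((N + 1).factorial : ℝ))
      (B' := fun x : ℝ => x ^ N / (N.factorial : ℝ))
      (fun x _ => (hd x).continuousAt.continuousWithinAt)
      (fun x _ => (hd x).hasDerivWithinAt) ?_ hB ?_ ⟨ha, le_rfl⟩
    · have h1 : Complex.exp (c * ((0 : ℝ) : ℂ)) -
          ∑ n ∈ Finset.range (N + 1), (c * ((0 : ℝ) : ℂ)) ^ n / (n.factorial : ℂ) = 0 := by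
        rw [Finset.sum_range_succ']
        simp
      rw [h1, norm_zero]
      positivity
    · intro x hx
      rw [norm_mul, hc1, one_mul]
      exact ih x hx.1

theorem exp_taylor (a : ℝ) (N : ℕ) :
    ‖Complex.exp (-(Complex.I * (a : ℂ))) - ∑ n ∈ Finset.range N, (-(Complex.I * (a : ℂ))) ^ n / (n.factorial : ℂ)‖ ≤
      |a| ^ N / (N.factorial : ℝ) := by
  rcases le_total 0 a with ha | ha
  · have h := P02_aux (-Complex.I) (by simp) (by simp) N a ha
    rw [abs_of_nonneg ha]
    simpa only [neg_mul] using h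
  · have h := P02_aux Complex.I (by simp) (by simp) N (-a) (neg_nonneg.2 ha)
    rw [abs_of_nonpos ha]
    have e : -(Complex.I * (a : ℂ)) = Complex.I * ((-a : ℝ) : ℂ) := by push_cast; ring
    rw [e]
    exact h

end Pool.Agent.LibPH45
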