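import Mathlib
import Pool.Agent.LibPH45.Defs
import Pool.Agent.LibPH45.PH_01

/-! Row 03.
-log(1-w) = sum_{j>=1} w^j/j (Complex.hasSum_taylorSeries_neg_log), tail j > J = Nat.log p floor(Y): <= |w|^(J+1)/(1-|w|), |w|^(J+1) = (p^(J+1))^(-1/2) < Y^(-1/2) (Nat.lt_pow_succ_log_self), 1/(1-1/sqrt 2) < 4.
-/

set_option autoImplicit false

namespace Pool.Agent.LibPH45

open MeasureTheory Filter Topology Pool.Agent.LibMM99 Pool.Agent.LibTG78
open scoped ComplexConjugate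

theorem La_close {p : ℕ} (hp : p.Prime) {Y : ℝ} (hY : 1 ≤ Y) (x : Om) :
    |Xp p x - (La Y p x).im| ≤ 4 / Real.sqrt Y := by
  obtain ⟨h1, h2⟩ := norm_wp hp x
  have hp0 : (0 : ℝ) < p := Nat.cast_pos.2 hp.pos
  have hY0 : 0 < Y := by linarith
  set J : ℕ := Nat.log p ⌊Y⌋₊ with hJ
  set w : ℂ := wp p x with hw
  have hw1 : ‖-w‖ < 1 := by rw [norm_neg]; linarith
  have h3 := Complex.norm_log_sub_logTaylor_le J hw1
  have h4 : Complex.logTaylor (J + 1) (-w) = -La Y p x := by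
    rw [Complex.logTaylor, Finset.sum_range_succ', La, ← hJ, ← hw]
    simp only [pow_zero, Nat.cast_zero, div_zero, add_zero]
    have e : Finset.Icc 1 J = (Finset.range J).map ⟨fun j => j + 1, add_left_injective 1⟩ := by
      ext j
      simp only [Finset.mem_Icc, Finset.mem_map, Finset.mem_range, Function.Embedding.coeFn_mk]
      constructor
      · rintro ⟨h5, h6⟩
        exact ⟨j - 1, by omega, by omega⟩
      · rintro ⟨k, h5, rfl⟩
        omega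
    rw [e, Finset.sum_map, ← Finset.sum_neg_distrib]
    refine Finset.sum_congr rfl fun j _ => ?_
    show (-1 : ℂ) ^ (j + 1 + 1) * (-w) ^ (j + 1) / ((j + 1 : ℕ) : ℂ) = -(w ^ (j + 1) / ((j + 1 : ℕ) : ℂ))
    have h5 : (-1 : ℂ) ^ (j + 1 + 1) * (-w) ^ (j + 1) = -w ^ (j + 1) := by
      rw [neg_pow w, ← mul_assoc, ← pow_add]
      have h6 : Odd (j + 1 + 1 + (j + 1)) := ⟨j + 1, by ring⟩
      rw [h6.neg_one_pow, neg_one_mul]
    rw [h5, neg_div]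
  have h5 : Xp p x - (La Y p x).im = -(Complex.log (1 + -w) - Complex.logTaylor (J + 1) (-w)).im := by
    rw [h4, Xp, ← hw, ← sub_eq_add_neg, Complex.sub_im, Complex.neg_im]
    ring
  rw [h5, abs_neg]
  refine (Complex.abs_im_le_norm _).trans (h3.trans ?_)
  rw [norm_neg]
  have h6 : Y < (p : ℝ) ^ (J + 1) := by
    have h7 : ⌊Y⌋₊ < p ^ (J + 1) := Nat.lt_pow_succ_log_self hp.one_lt _
    have h8 : ⌊Y⌋₊ + 1 ≤ p ^ (J + 1) := h7
    calc Y < (⌊Y⌋₊ : ℝ) + 1 := Nat.lt_floor_add_one Y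
      _ ≤ (p : ℝ) ^ (J + 1) := by exact_mod_cast h8
  have h7 : ‖w‖ ^ (J + 1) ≤ (Real.sqrt Y)⁻¹ := by
    rw [h1, inv_pow]
    refine inv_anti₀ (Real.sqrt_pos.2 hY0) ?_
    rw [Real.sqrt_le_left (by positivity), ← pow_mul, mul_comm (J + 1) 2, pow_mul,
      Real.sq_sqrt hp0.le]
    exact h6.le
  have h8 : (1 - ‖w‖)⁻¹ ≤ 4 := by
    rw [inv_le_comm₀ (by linarith) (by norm_num)]
    linarith
  have h9 : 0 ≤ (1 - ‖w‖)⁻¹ := inv_nonneg.2 (by linarith)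
  calc ‖w‖ ^ (J + 1) * (1 - ‖w‖)⁻¹ / ((J : ℝ) + 1) ≤ ‖w‖ ^ (J + 1) * (1 - ‖w‖)⁻¹ :=
        div_le_self (by positivity) (by linarith [Nat.cast_nonneg (α := ℝ) J])
    _ ≤ (Real.sqrt Y)⁻¹ * 4 := mul_le_mul h7 h8 h9 (by positivity)
    _ = 4 / Real.sqrt Y := by ring

end Pool.Agent.LibPH45
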