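import Mathlib
import Pool.Agent.LibPH45.Defs
import Pool.Agent.LibPH45.PH_01
import Pool.Agent.LibPH45.PH_02
import Pool.Agent.LibPH45.PH_03

/-! Row 04.
|exp(-iX) - exp(-iX_Y)| <= |X - X_Y| <= card(prm 1 y) * 4/sqrt Y <= 4 y / sqrt Y; then exp_taylor with a = (AY).im and |im| <= norm.
-/

set_option autoImplicit false

namespace Pool.Agent.LibPH45

open MeasureTheory Filter Topology Pool.Agent.LibMM99 Pool.Agent.LibTG78
open scoped ComplexConjugate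

lemma P04_card {y : ℝ} (hy : 1 ≤ y) : ((prm 1 y).card : ℝ) ≤ y := by
  have h1 : prm 1 y ⊆ Finset.Icc 1 ⌊y⌋₊ := by
    intro p hp
    obtain ⟨h2, -, h3⟩ := t12_mem_prm.1 hp
    exact Finset.mem_Icc.2 ⟨h2.one_lt.le, Nat.le_floor h3⟩
  calc ((prm 1 y).card : ℝ) ≤ ((Finset.Icc 1 ⌊y⌋₊).card : ℝ) := by
        exact_mod_cast Finset.card_le_card h1
    _ = (⌊y⌋₊ : ℝ) := by rw [Nat.card_Icc, Nat.add_sub_cancel]
    _ ≤ y := Nat.floor_le (by linarith)

lemma P04_exp (a b : ℝ) : ‖Complex.exp (-(Complex.I * (a : ℂ))) - Complex.exp (-(Complex.I * (b : ℂ)))‖ ≤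
    |a - b| := by
  have h1 := exp_taylor (a - b) 1
  rw [Finset.sum_range_one, pow_zero, Nat.factorial_zero, Nat.cast_one, div_one, Nat.factorial_one,
    Nat.cast_one, div_one, pow_one] at h1
  have h2 : Complex.exp (-(Complex.I * (a : ℂ))) - Complex.exp (-(Complex.I * (b : ℂ))) =
      Complex.exp (-(Complex.I * (b : ℂ))) * (Complex.exp (-(Complex.I * ((a - b : ℝ) : ℂ))) - 1) := by
    rw [mul_sub, ← Complex.exp_add, mul_one]
    congr 2
    push_cast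
    ring
  have h3 : ‖Complex.exp (-(Complex.I * (b : ℂ)))‖ = 1 := by
    rw [Complex.norm_exp]
    simp
  rw [h2, norm_mul, h3, one_mul]
  exact h1

theorem phase_pointwise {y Y : ℝ} (hy : 1 ≤ y) (hY : 1 ≤ Y) (N : ℕ) (x : Om) :
    ‖conj (uu y x) - PhN N y Y x‖ ≤ 4 * y / Real.sqrt Y + RN N y Y x := by
  have hY0 : 0 < Real.sqrt Y := Real.sqrt_pos.2 (by linarith)
  have h1 : ‖Complex.exp (-(Complex.I * ((XX y x : ℝ) : ℂ))) -
      Complex.exp (-(Complex.I * (((AY y Y x).im : ℝ) : ℂ)))‖ ≤ 4 * y / Real.sqrt Y := by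
    refine (P04_exp _ _).trans ?_
    have h2 : XX y x - (AY y Y x).im = ∑ p ∈ prm 1 y, (Xp p x - (La Y p x).im) := by
      rw [XX, AY, Complex.im_sum, Finset.sum_sub_distrib]
    rw [h2]
    calc |∑ p ∈ prm 1 y, (Xp p x - (La Y p x).im)| ≤ ∑ p ∈ prm 1 y, |Xp p x - (La Y p x).im| :=
          Finset.abs_sum_le_sum_abs _ _
      _ ≤ ∑ _p ∈ prm 1 y, 4 / Real.sqrt Y :=
          Finset.sum_le_sum fun p hp => La_close (t12_mem_prm.1 hp).1 hY x
      _ = ((prm 1 y).card : ℝ) * (4 / Real.sqrt Y) := by rw [Finset.sum_const, nsmul_eq_mul]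
      _ ≤ y * (4 / Real.sqrt Y) := mul_le_mul_of_nonneg_right (P04_card hy) (by positivity)
      _ = 4 * y / Real.sqrt Y := by ring
  have h3 : ‖Complex.exp (-(Complex.I * (((AY y Y x).im : ℝ) : ℂ))) - PhN N y Y x‖ ≤ RN N y Y x := by
    refine (exp_taylor _ N).trans ?_
    rw [RN]
    have h4 : |(AY y Y x).im| ≤ ‖AY y Y x‖ := Complex.abs_im_le_norm _
    gcongr
  rw [conj_uu]
  calc ‖Complex.exp (-(Complex.I * ((XX y x : ℝ) : ℂ))) - PhN N y Y x‖
      ≤ ‖Complex.exp (-(Complex.I * ((XX y x : ℝ) : ℂ))) -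
          Complex.exp (-(Complex.I * (((AY y Y x).im : ℝ) : ℂ)))‖ +
        ‖Complex.exp (-(Complex.I * (((AY y Y x).im : ℝ) : ℂ))) - PhN N y Y x‖ :=
        norm_sub_le_norm_sub_add_norm_sub _ _ _
    _ ≤ 4 * y / Real.sqrt Y + RN N y Y x := add_le_add h1 h3

end Pool.Agent.LibPH45
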