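import Mathlib
import Pool.Agent.LibPH45.Defs

/-! Row 06. -/

set_option autoImplicit false

namespace Pool.Agent.LibPH45

open MeasureTheory Filter Topology Pool.Agent.LibMM99 Pool.Agent.LibTG78
open scoped ComplexConjugate

theorem Gd.add {C C' : ℝ} {p : ℕ} {b b' : ℂ} {H H' : Om → ℝ} (h : Gd C p b H) (h' : Gd C' p b' H') :
    Gd (C + C') p (b + b') (fun x => H x + H' x) := by
  refine ⟨h.cont.add h'.cont, fun x y hxy => ?_, ?_, fun x => ?_⟩
  · have e1 := h.dep hxy
    have e2 := h'.dep hxy
    simp only [e1, e2]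
  · rw [add_div]
    exact (norm_add_le _ _).trans (add_le_add h.nb h'.nb)
  · have e : H x + H' x - ((b + b') * ch x p).re = (H x - (b * ch x p).re) + (H' x - (b' * ch x p).re) := by
      rw [add_mul, Complex.add_re]
      ring
    rw [e, add_div]
    exact (abs_add_le _ _).trans (add_le_add (h.app x) (h'.app x))

theorem Gd.smul {C : ℝ} {p : ℕ} {b : ℂ} {H : Om → ℝ} (h : Gd C p b H) (c : ℝ) :
    Gd (|c| * C) p (c * b) (fun x => c * H x) := by
  refine ⟨continuous_const.mul h.cont, fun x y hxy => ?_, ?_, fun x => ?_⟩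
  · have e1 := h.dep hxy
    simp only [e1]
  · rw [norm_mul, Complex.norm_real, Real.norm_eq_abs, mul_div_assoc]
    exact mul_le_mul_of_nonneg_left h.nb (abs_nonneg c)
  · have e : c * H x - ((c : ℂ) * b * ch x p).re = c * (H x - (b * ch x p).re) := by
      rw [mul_assoc, Complex.re_ofReal_mul]
      ring
    rw [e, abs_mul, mul_div_assoc]
    exact mul_le_mul_of_nonneg_left (h.app x) (abs_nonneg c)

theorem Gd.mono {C C' : ℝ} {p : ℕ} {b : ℂ} {H : Om → ℝ} (h : Gd C p b H) (hC : C ≤ C') : Gd C' p b H :=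
  ⟨h.cont, h.dep, h.nb.trans (div_le_div_of_nonneg_right hC (Real.sqrt_nonneg _)),
    fun x => (h.app x).trans (div_le_div_of_nonneg_right hC (Nat.cast_nonneg _))⟩

theorem P06_exp (v : ℝ) : Real.exp v ≤ 1 + v + v ^ 2 * Real.exp |v| := by
  rcases le_or_gt 0 v with h | h
  · rw [abs_of_nonneg h]
    have h1 := Real.add_one_le_exp (-v)
    have h2 := Real.exp_pos v
    have h3 : Real.exp v * Real.exp (-v) = 1 := by rw [← Real.exp_add]; simp
    -- exp v (1 - v) <= 1
    have h4 : Real.exp v * (1 - v) ≤ 1 := by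
      calc Real.exp v * (1 - v) ≤ Real.exp v * Real.exp (-v) :=
            mul_le_mul_of_nonneg_left (by linarith) h2.le
        _ = 1 := h3
    -- exp v <= 1 + v exp v <= 1 + v + v^2 exp v
    have h5 : Real.exp v ≤ 1 + v * Real.exp v := by linarith
    have h6 : v * Real.exp v ≤ v * (1 + v * Real.exp v) := mul_le_mul_of_nonneg_left h5 h
    nlinarith
  · rw [abs_of_neg h]
    have h1 : Real.exp v ≤ 1 + v + v ^ 2 := by
      have h2 := Real.quadratic_le_exp_of_nonneg (x := -v) (by linarith)
      have h3 : Real.exp v * Real.exp (-v) = 1 := by rw [← Real.exp_add]; simp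
      have h4 := Real.exp_pos v
      have h5 : 0 < 1 + v + v ^ 2 := by nlinarith [sq_nonneg (v + 1), sq_nonneg v]
      have h6 : 1 ≤ (1 + v + v ^ 2) * (1 + -v + (-v) ^ 2 / 2) := by
        nlinarith [sq_nonneg v, mul_pos (neg_pos.2 h) (neg_pos.2 h), sq_nonneg (v ^ 2), mul_nonneg (sq_nonneg v) (sq_nonneg (v + 1))]
      have h7 : 1 ≤ (1 + v + v ^ 2) * Real.exp (-v) := h6.trans (mul_le_mul_of_nonneg_left h2 h5.le)
      calc Real.exp v = Real.exp v * 1 := (mul_one _).symm
        _ ≤ Real.exp v * ((1 + v + v ^ 2) * Real.exp (-v)) := mul_le_mul_of_nonneg_left h7 h4.le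
        _ = (1 + v + v ^ 2) * (Real.exp v * Real.exp (-v)) := by ring
        _ = 1 + v + v ^ 2 := by rw [h3, mul_one]
    have h2 : 1 ≤ Real.exp (-v) := Real.one_le_exp (by linarith)
    nlinarith [sq_nonneg v]

theorem Gd.expm {C : ℝ} (hC : 0 ≤ C) {p : ℕ} (hp : p.Prime) {b : ℂ} {H : Om → ℝ} (h : Gd C p b H) :
    ∫ x, Real.exp (H x) ∂mu ≤ Real.exp ((C + C ^ 2 * Real.exp C) / p) := by
  have hp1 : (1 : ℝ) ≤ p := by exact_mod_cast hp.one_lt.le
  have hs1 : 1 ≤ Real.sqrt p := by rw [Real.one_le_sqrt]; exact hp1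
  set v : Om → ℝ := fun x => (b * ch x p).re with hv
  have cv : Continuous v := Complex.continuous_re.comp (continuous_const.mul (continuous_ch p))
  have h0 : ∫ x, v x ∂mu = 0 := by
    have h1 := integral_ch (m := p) (n := 1) hp.ne_zero one_ne_zero
    rw [if_neg hp.one_lt.ne'] at h1
    have h2 : ∫ x, ch x p ∂mu = 0 := by
      rw [← h1]
      refine integral_congr_ae (ae_of_all _ fun x => ?_)
      simp [ch_one]
    have h3 : ∫ x, b * ch x p ∂mu = 0 := by rw [integral_const_mul, h2, mul_zero]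
    have h4 : ∫ x, v x ∂mu = (∫ x, b * ch x p ∂mu).re :=
      integral_re (𝕜 := ℂ) (f := fun x => b * ch x p) (μ := mu)
        (integrable_of_continuous (continuous_const.mul (continuous_ch p)))
    rw [h4, h3, Complex.zero_re]
  have hvn : ∀ x, |v x| ≤ C / Real.sqrt p := fun x => by
    refine (Complex.abs_re_le_norm _).trans ?_
    rw [norm_mul, norm_ch, mul_one]
    exact h.nb
  have hvC : ∀ x, |v x| ≤ C := fun x => (hvn x).trans (div_le_self hC hs1)
  have hv2 : ∀ x, v x ^ 2 ≤ C ^ 2 / p := fun x => by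
    rw [← sq_abs]
    have h1 := pow_le_pow_left₀ (abs_nonneg _) (hvn x) 2
    rw [div_pow, Real.sq_sqrt (by linarith)] at h1
    exact h1
  have hpt : ∀ x, Real.exp (H x) ≤ Real.exp (C / p) * (v x + (1 + C ^ 2 * Real.exp C / p)) := by
    intro x
    have h1 : H x ≤ C / p + v x := by
      have := (abs_le.1 (h.app x)).2
      simp only [hv]
      linarith
    calc Real.exp (H x) ≤ Real.exp (C / p + v x) := Real.exp_le_exp.2 h1
      _ = Real.exp (C / p) * Real.exp (v x) := Real.exp_add _ _
      _ ≤ _ := by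
        refine mul_le_mul_of_nonneg_left ?_ (Real.exp_pos _).le
        have h2 := P06_exp (v x)
        have h3 : v x ^ 2 * Real.exp |v x| ≤ C ^ 2 / p * Real.exp C :=
          mul_le_mul (hv2 x) (Real.exp_le_exp.2 (hvC x)) (Real.exp_pos _).le (by positivity)
        have h4 : C ^ 2 / p * Real.exp C = C ^ 2 * Real.exp C / p := by ring
        linarith
  have c2 : Continuous fun x : Om => v x + (1 + C ^ 2 * Real.exp C / p) := cv.add continuous_const
  have hc3 : Continuous fun x : Om => Real.exp (H x) := Real.continuous_exp.comp h.cont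
  have c4 : Continuous fun x : Om => Real.exp (C / p) * (v x + (1 + C ^ 2 * Real.exp C / p)) := continuous_const.mul c2
  refine (integral_mono (integrable_of_continuous hc3) (integrable_of_continuous c4) hpt).trans ?_
  rw [integral_const_mul, integral_add (integrable_of_continuous cv) (integrable_const _), h0, integral_const]
  simp only [probReal_univ, one_smul, zero_add]
  rw [add_div, Real.exp_add]
  refine mul_le_mul_of_nonneg_left ?_ (Real.exp_pos _).le
  have := Real.add_one_le_exp (C ^ 2 * Real.exp C / p)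
  linarith

end Pool.Agent.LibPH45
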