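import Mathlib
import Pool.Agent.LibPH45.Defs
import Pool.Agent.LibPH45.PH_06

/-! Row 07. -/

set_option autoImplicit false

namespace Pool.Agent.LibPH45

open MeasureTheory Filter Topology Pool.Agent.LibMM99 Pool.Agent.LibTG78
open scoped ComplexConjugate

theorem P07_sum : ∃ C : ℝ, 0 ≤ C ∧ ∀ L : ℝ, 1 ≤ L → ∑ p ∈ prm 1 (Real.exp L), (p : ℝ)⁻¹ ≤ Real.log L + C := by
  obtain ⟨C, hC, h⟩ := sum_inv_prime_le
  have h2 : (1:ℝ) < Real.sqrt 2 := by
    rw [Real.lt_sqrt (by norm_num)]; norm_num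
  have hl2 : 0 < Real.log (Real.sqrt 2) := Real.log_pos h2
  refine ⟨C + |Real.log (Real.log (Real.sqrt 2))|, by positivity, fun L hL => ?_⟩
  have he : Real.sqrt 2 ≤ Real.exp L := by
    have h3 : Real.sqrt 2 ≤ 2 := by
      rw [Real.sqrt_le_left (by norm_num)]
      norm_num
    have := Real.add_one_le_exp L
    linarith
  have h4 : prm 1 (Real.exp L) = prm (Real.sqrt 2) (Real.exp L) := by
    ext p
    rw [D2b_mem_prm, D2b_mem_prm]
    constructor
    · rintro ⟨h5, h6, h7⟩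
      refine ⟨h5, ?_, h7⟩
      have : (2:ℝ) ≤ p := by exact_mod_cast h5.two_le
      have h8 : Real.sqrt 2 < 2 := by
        rw [Real.sqrt_lt' (by norm_num)]
        norm_num
      linarith
    · rintro ⟨h5, h6, h7⟩
      exact ⟨h5, by linarith, h7⟩
  rw [h4]
  refine (h _ _ le_rfl he).trans ?_
  rw [Real.log_exp, Real.log_div (by linarith) hl2.ne']
  have := neg_abs_le (Real.log (Real.log (Real.sqrt 2)))
  linarith

theorem GdL_prod {C : ℝ} (hC : 0 ≤ C) : ∃ C' : ℝ, 1 ≤ C' ∧ ∀ (L : ℝ) (b : ℕ → ℂ) (H : ℕ → Om → ℝ), 1 ≤ L →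
    GdL C L b H → ∫ x, Real.exp (∑ p ∈ prm 1 (Real.exp L), H p x) ∂mu ≤ C' * L ^ C' := by
  obtain ⟨C0, hC0, h0⟩ := P07_sum
  obtain ⟨K, hK⟩ : ∃ K, K = C + C ^ 2 * Real.exp C := ⟨_, rfl⟩
  have hK0 : 0 ≤ K := by rw [hK]; positivity
  refine ⟨Real.exp (K * C0) + K + 1, by have := Real.exp_pos (K * C0); linarith, ?_⟩
  intro L b H hL hG
  have e1 : ∀ x, Real.exp (∑ p ∈ prm 1 (Real.exp L), H p x) = ∏ p ∈ prm 1 (Real.exp L), Real.exp (H p x) :=
    fun x => Real.exp_sum _ _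
  simp_rw [e1]
  rw [B03_prod (fun p x => Real.exp (H p x)) (prm 1 (Real.exp L)) (fun p hp => Real.continuous_exp.comp (hG p hp).cont)
    (fun p hp x y hxy => by
      have := (hG p hp).dep hxy
      simp only [this])]
  have h1 : ∏ p ∈ prm 1 (Real.exp L), ∫ x, Real.exp (H p x) ∂mu ≤ ∏ p ∈ prm 1 (Real.exp L), Real.exp (K / p) := by
    refine Finset.prod_le_prod (fun p hp => integral_nonneg fun x => (Real.exp_pos _).le) fun p hp => ?_
    rw [hK]
    exact (hG p hp).expm hC (D2b_mem_prm.1 hp).1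
  refine h1.trans ?_
  rw [← Real.exp_sum]
  have h2 : ∑ p ∈ prm 1 (Real.exp L), K / (p : ℝ) = K * ∑ p ∈ prm 1 (Real.exp L), (p : ℝ)⁻¹ := by
    rw [Finset.mul_sum]
    exact Finset.sum_congr rfl fun p _ => div_eq_mul_inv _ _
  have h3 : Real.exp (∑ p ∈ prm 1 (Real.exp L), K / (p : ℝ)) ≤ Real.exp (K * C0) * L ^ K := by
    rw [h2]
    have hLp : L ^ K = Real.exp (K * Real.log L) := by
      rw [Real.rpow_def_of_pos (by linarith), mul_comm]
    rw [hLp, ← Real.exp_add]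
    refine Real.exp_le_exp.2 ?_
    have := mul_le_mul_of_nonneg_left (h0 L hL) hK0
    linarith
  refine h3.trans ?_
  have h4 : L ^ K ≤ L ^ (Real.exp (K * C0) + K + 1) :=
    Real.rpow_le_rpow_of_exponent_le hL (by have := Real.exp_pos (K * C0); linarith)
  exact mul_le_mul (by linarith) h4 (by positivity) (by have := Real.exp_pos (K * C0); linarith)

end Pool.Agent.LibPH45
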