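import Mathlib
import Pool.Agent.LibPH45.Defs
import Pool.Agent.LibPH45.PH_01

/-! Row 08.
D3a_small: |zp s p|^2 <= (6/5)/p (<= 3/5); |log|1-z|^(-1) - Re z| <= |z|^2/(2(1-|z|)) (Complex.norm_log_one_sub_inv_sub_self_le or similar in Mathlib LogBounds); La = w + O(|w|^2/(2(1-|w|))), j = 1 is present because p <= Y.
-/

set_option autoImplicit false

namespace Pool.Agent.LibPH45

open MeasureTheory Filter Topology Pool.Agent.LibMM99 Pool.Agent.LibTG78
open scoped ComplexConjugate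

theorem P08_mem {p : ℕ} {v : ℝ} (hp : p ∈ prm 1 v) (hv : 0 ≤ v) : p.Prime ∧ (p : ℝ) ≤ v := by
  unfold prm at hp
  rw [Finset.mem_filter, Finset.mem_Icc] at hp
  exact ⟨hp.2.1, (Nat.le_floor_iff hv).1 hp.1.2⟩

theorem P08_dep {p : ℕ} (hp : p.Prime) {x y : Om} (h : ∀ i ∈ ({p} : Set ℕ), x i = y i) :
    ch x p = ch y p := by
  rw [ch_prime x hp, ch_prime y hp, h p rfl]

theorem P08_sq {s : ℂ} {L : ℝ} (h : Adm s L) {p : ℕ} (hp : p ∈ prm 1 (Real.exp L)) (x : Om) :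
    ‖zp s p * ch x p‖ ^ 2 ≤ 6 / 5 / p ∧ ‖zp s p * ch x p‖ < 4 / 5 ∧
      ‖zp s p‖ ≤ 10 / Real.sqrt p := by
  obtain ⟨hpp, hpL⟩ := P08_mem hp (Real.exp_pos L).le
  have hp2 : (2 : ℝ) ≤ p := by exact_mod_cast hpp.two_le
  have h1 := D3a_small h hpp.two_le hpL
  have h2 : ‖zp s p * ch x p‖ = ‖zp s p‖ := by rw [norm_mul, norm_ch, mul_one]
  have h3 : 6 / 5 / (p : ℝ) ≤ 3 / 5 := by
    rw [div_le_iff₀ (by linarith)]; linarith
  rw [h2]
  refine ⟨h1, ?_, ?_⟩
  · by_contra hcon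
    push Not at hcon
    nlinarith
  · have h4 : (0 : ℝ) < Real.sqrt p := Real.sqrt_pos.2 (by linarith)
    rw [le_div_iff₀ h4]
    have h5 : (‖zp s p‖ * Real.sqrt p) ^ 2 ≤ 6 / 5 := by
      rw [mul_pow, Real.sq_sqrt (by linarith)]
      calc ‖zp s p‖ ^ 2 * p ≤ 6 / 5 / p * p := mul_le_mul_of_nonneg_right h1 (by linarith)
        _ = 6 / 5 := div_mul_cancel₀ _ (by linarith)
    nlinarith [mul_nonneg (norm_nonneg (zp s p)) h4.le]

theorem Gd_log {s : ℂ} {L : ℝ} (h : Adm s L) {p : ℕ} (hp : p ∈ prm 1 (Real.exp L)) :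
    Gd 10 p (zp s p) (fun x => Real.log ‖(1 - zp s p * ch x p)⁻¹‖) := by
  obtain ⟨hpp, hpL⟩ := P08_mem hp (Real.exp_pos L).le
  have hp2 : (2 : ℝ) ≤ p := by exact_mod_cast hpp.two_le
  have hnz : ∀ x : Om, (1 : ℂ) - zp s p * ch x p ≠ 0 := by
    intro x h0
    have h1 := (P08_sq h hp x).2.1
    have h2 : zp s p * ch x p = 1 := (sub_eq_zero.1 h0).symm
    rw [h2, norm_one] at h1
    norm_num at h1
  refine ⟨?_, ?_, (P08_sq h hp (fun _ => 0)).2.2, ?_⟩
  · have h1 : Continuous fun x : Om => (1 : ℂ) - zp s p * ch x p :=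
      continuous_const.sub (continuous_const.mul (continuous_ch p))
    have h2 : Continuous fun x : Om => ‖((1 : ℂ) - zp s p * ch x p)⁻¹‖ := (h1.inv₀ hnz).norm
    exact h2.log fun x => (norm_ne_zero_iff.2 (inv_ne_zero (hnz x)))
  · intro x y hxy
    simp only
    rw [P08_dep hpp hxy]
  · intro x
    obtain ⟨h1, h2, _⟩ := P08_sq h hp x
    set z := zp s p * ch x p with hz
    have h3 : ‖z‖ < 1 := by linarith
    have h4 := Complex.norm_log_one_sub_inv_sub_self_le h3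
    have h5 : Real.log ‖(1 - z)⁻¹‖ - z.re = (Complex.log (1 - z)⁻¹ - z).re := by
      rw [Complex.sub_re, Complex.log_re]
    rw [h5]
    refine (Complex.abs_re_le_norm _).trans (h4.trans ?_)
    have h6 : (1 - ‖z‖)⁻¹ ≤ 5 := by
      rw [inv_le_comm₀ (by linarith) (by norm_num)]
      linarith
    have h7 : ‖z‖ ^ 2 * (1 - ‖z‖)⁻¹ ≤ 6 / 5 / p * 5 := by
      apply mul_le_mul h1 h6 (by
        have : 0 < 1 - ‖z‖ := by linarith
        positivity) (by positivity)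
    have h8 : 6 / 5 / (p : ℝ) * 5 / 2 = 3 / p := by field_simp; norm_num
    have h9 : 3 / (p : ℝ) ≤ 10 / p := div_le_div_of_nonneg_right (by norm_num) (by linarith)
    linarith

theorem norm_ZZ {s : ℂ} {L : ℝ} (h : Adm s L) (x : Om) :
    ‖ZZ s 1 (Real.exp L) x‖ =
      Real.exp (∑ p ∈ prm 1 (Real.exp L), Real.log ‖(1 - zp s p * ch x p)⁻¹‖) := by
  rw [Real.exp_sum, ZZ, norm_prod]
  refine Finset.prod_congr rfl fun p hp => ?_
  have h1 := (P08_sq h hp x).2.1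
  have h2 : (1 : ℂ) - zp s p * ch x p ≠ 0 := by
    intro h0
    have h2 : zp s p * ch x p = 1 := (sub_eq_zero.1 h0).symm
    rw [h2, norm_one] at h1
    norm_num at h1
  rw [Real.exp_log (norm_pos_iff.2 (inv_ne_zero h2))]

theorem P08_La {n : ℕ} (hn : 1 ≤ n) {w : ℂ} (hw : ‖w‖ < 3 / 4) :
    ‖(∑ j ∈ Finset.Icc 1 n, w ^ j / j) - w‖ ≤ 2 * ‖w‖ ^ 2 := by
  have h1 : (∑ j ∈ Finset.Icc 1 n, w ^ j / (j : ℂ)) - w = ∑ j ∈ Finset.Icc 2 n, w ^ j / (j : ℂ) := by
    rw [← Finset.add_sum_Ioc_eq_sum_Icc hn]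
    simp only [pow_one, Nat.cast_one, div_one]
    rw [add_sub_cancel_left]
    rfl
  rw [h1]
  have h2 : ∀ j ∈ Finset.Icc 2 n, ‖w ^ j / (j : ℂ)‖ ≤ ‖w‖ ^ 2 / 2 * ‖w‖ ^ (j - 2) := by
    intro j hj
    have hj2 : 2 ≤ j := (Finset.mem_Icc.1 hj).1
    rw [norm_div, norm_pow, Complex.norm_natCast]
    have h3 : ‖w‖ ^ j = ‖w‖ ^ 2 * ‖w‖ ^ (j - 2) := by rw [← pow_add]; congr 1; omega
    have hj2' : (2 : ℝ) ≤ j := by exact_mod_cast hj2
    rw [h3, div_mul_eq_mul_div]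
    apply div_le_div_of_nonneg_left (by positivity) (by norm_num) hj2'
  refine (norm_sum_le_of_le _ h2).trans ?_
  rw [← Finset.mul_sum]
  have h4 : ∑ j ∈ Finset.Icc 2 n, ‖w‖ ^ (j - 2) ≤ 4 := by
    have h5 : ∑ j ∈ Finset.Icc 2 n, ‖w‖ ^ (j - 2) ≤ ∑ j ∈ Finset.range n, ‖w‖ ^ j := by
      rw [← Finset.sum_image (s := Finset.Icc 2 n) (g := fun j => j - 2) (f := fun j => ‖w‖ ^ j)]
      · apply Finset.sum_le_sum_of_subset_of_nonneg
        · intro j hj
          obtain ⟨i, hi, rfl⟩ := Finset.mem_image.1 hj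
          rw [Finset.mem_Icc] at hi
          rw [Finset.mem_range]
          omega
        · intro j _ _
          positivity
      · intro a ha b hb hab
        rw [Finset.mem_coe, Finset.mem_Icc] at ha hb
        have : a - 2 = b - 2 := hab
        omega
    have h6 : (∑ j ∈ Finset.range n, ‖w‖ ^ j) * (1 - ‖w‖) = 1 - ‖w‖ ^ n := by
      have := geom_sum_mul_neg ‖w‖ n
      exact this
    have h7 : (0 : ℝ) ≤ ‖w‖ ^ n := by positivity
    have h8 : (0 : ℝ) ≤ ∑ j ∈ Finset.range n, ‖w‖ ^ j := Finset.sum_nonneg fun _ _ => by positivity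
    nlinarith
  have h9 : (0 : ℝ) ≤ ‖w‖ ^ 2 := by positivity
  nlinarith

theorem Gd_La {L Y : ℝ} (hY : Real.exp L ≤ Y) {p : ℕ} (hp : p ∈ prm 1 (Real.exp L)) :
    Gd 10 p (zp 0 p) (fun x => (La Y p x).re) ∧ Gd 10 p (-(Complex.I * zp 0 p)) (fun x => (La Y p x).im) := by
  obtain ⟨hpp, hpL⟩ := P08_mem hp (Real.exp_pos L).le
  have hp2 : (2 : ℝ) ≤ p := by exact_mod_cast hpp.two_le
  have hsq : (0 : ℝ) < Real.sqrt p := Real.sqrt_pos.2 (by linarith)
  have hn : 1 ≤ Nat.log p ⌊Y⌋₊ := by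
    apply Nat.log_pos hpp.one_lt
    exact Nat.le_floor (hpL.trans hY)
  have hnorm : ‖zp 0 p‖ ≤ 10 / Real.sqrt p := by
    have h1 := (norm_wp hpp (fun _ => 0)).1
    rw [wp, norm_mul, norm_ch, mul_one] at h1
    rw [h1, ← one_div]
    exact div_le_div_of_nonneg_right (by norm_num) hsq.le
  have hcont : Continuous fun x : Om => La Y p x := by
    unfold La
    refine continuous_finsetSum _ fun j _ => ?_
    have h1 : Continuous fun x : Om => wp p x := continuous_const.mul (continuous_ch p)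
    exact (h1.pow j).div_const _
  have hdep : ∀ x y : Om, (∀ i ∈ ({p} : Set ℕ), x i = y i) → La Y p x = La Y p y := by
    intro x y hxy
    unfold La wp
    rw [P08_dep hpp hxy]
  have happ : ∀ x : Om, ‖La Y p x - wp p x‖ ≤ 10 / p := by
    intro x
    have h1 := norm_wp hpp x
    refine (P08_La hn h1.2).trans ?_
    rw [h1.1, inv_pow, Real.sq_sqrt (by linarith), ← div_eq_mul_inv]
    exact div_le_div_of_nonneg_right (by norm_num) (by linarith)
  constructor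
  · refine ⟨Complex.continuous_re.comp hcont, ?_, hnorm, fun x => ?_⟩
    · intro x y hxy
      simp only
      rw [hdep x y hxy]
    · have h1 : (La Y p x).re - (zp 0 p * ch x p).re = (La Y p x - wp p x).re := by
        rw [Complex.sub_re, wp]
      rw [h1]
      exact (Complex.abs_re_le_norm _).trans (happ x)
  · refine ⟨Complex.continuous_im.comp hcont, ?_, ?_, fun x => ?_⟩
    · intro x y hxy
      simp only
      rw [hdep x y hxy]
    · rw [norm_neg, norm_mul, Complex.norm_I, one_mul]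
      exact hnorm
    · have h1 : (La Y p x).im - (-(Complex.I * zp 0 p) * ch x p).re = (La Y p x - wp p x).im := by
        rw [Complex.sub_im, wp]
        congr 1
        have : -(Complex.I * zp 0 p) * ch x p = -(Complex.I * (zp 0 p * ch x p)) := by ring
        rw [this, Complex.neg_re, Complex.I_mul_re, neg_neg]
      rw [h1]
      exact (Complex.abs_im_le_norm _).trans (happ x)

end Pool.Agent.LibPH45
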