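import Mathlib
import Pool.Agent.LibPH45.Defs
import Pool.Agent.LibPH45.PH_06
import Pool.Agent.LibPH45.PH_07
import Pool.Agent.LibPH45.PH_08

/-! Row 09. -/

set_option autoImplicit false

namespace Pool.Agent.LibPH45

open MeasureTheory Filter Topology Pool.Agent.LibMM99 Pool.Agent.LibTG78
open scoped ComplexConjugate

theorem RN_le (N : ℕ) (y Y : ℝ) (x : Om) {c : ℝ} (hc : 0 < c) : RN N y Y x ≤ (c⁻¹) ^ N *
    (Real.exp (∑ p ∈ prm 1 y, (c * (La Y p x).re + c * (La Y p x).im)) +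
      Real.exp (∑ p ∈ prm 1 y, (c * (La Y p x).re + (-c) * (La Y p x).im)) +
      Real.exp (∑ p ∈ prm 1 y, ((-c) * (La Y p x).re + c * (La Y p x).im)) +
      Real.exp (∑ p ∈ prm 1 y, ((-c) * (La Y p x).re + (-c) * (La Y p x).im))) := by
  have hre : (AY y Y x).re = ∑ p ∈ prm 1 y, (La Y p x).re := by
    unfold AY
    rw [Complex.re_sum]
  have him : (AY y Y x).im = ∑ p ∈ prm 1 y, (La Y p x).im := by
    unfold AY
    rw [Complex.im_sum]
  have hsum : ∀ a b : ℝ, ∑ p ∈ prm 1 y, (a * (La Y p x).re + b * (La Y p x).im) =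
      a * (AY y Y x).re + b * (AY y Y x).im := by
    intro a b
    rw [Finset.sum_add_distrib, ← Finset.mul_sum, ← Finset.mul_sum, hre, him]
  rw [hsum, hsum, hsum, hsum]
  have h1 : RN N y Y x = (c⁻¹) ^ N * ((c * ‖AY y Y x‖) ^ N / (N.factorial : ℝ)) := by
    unfold RN
    rw [mul_pow, inv_pow]
    field_simp
  rw [h1]
  refine mul_le_mul_of_nonneg_left ?_ (by positivity)
  refine (Real.pow_div_factorial_le_exp (c * ‖AY y Y x‖) (by positivity) N).trans ?_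
  set u := (AY y Y x).re
  set v := (AY y Y x).im
  have h2 : ‖AY y Y x‖ ≤ |u| + |v| := Complex.norm_le_abs_re_add_abs_im _
  have h3 : Real.exp (c * ‖AY y Y x‖) ≤ Real.exp (c * (|u| + |v|)) :=
    Real.exp_le_exp.2 (mul_le_mul_of_nonneg_left h2 hc.le)
  refine h3.trans ?_
  have p1 := Real.exp_pos (c * u + c * v)
  have p2 := Real.exp_pos (c * u + -c * v)
  have p3 := Real.exp_pos (-c * u + c * v)
  have p4 := Real.exp_pos (-c * u + -c * v)
  rcases abs_cases u with ⟨hu, -⟩ | ⟨hu, -⟩ <;> rcases abs_cases v with ⟨hv, -⟩ | ⟨hv, -⟩ <;> rw [hu, hv]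
  · have e : c * (u + v) = c * u + c * v := by ring
    rw [e]; linarith
  · have e : c * (u + -v) = c * u + -c * v := by ring
    rw [e]; linarith
  · have e : c * (-u + v) = -c * u + c * v := by ring
    rw [e]; linarith
  · have e : c * (-u + -v) = -c * u + -c * v := by ring
    rw [e]; linarith

theorem P09_La_cont (Y : ℝ) (p : ℕ) : Continuous (La Y p) := by
  unfold La wp
  exact continuous_finsetSum _ fun j _ => ((continuous_const.mul (continuous_ch p)).pow j).div_const _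

theorem P09_RN_cont (N : ℕ) (y Y : ℝ) : Continuous (RN N y Y) := by
  unfold RN AY
  exact ((continuous_finsetSum _ fun p _ => P09_La_cont Y p).norm.pow N).div_const _

theorem P09_RN_nonneg (N : ℕ) (y Y : ℝ) (x : Om) : 0 ≤ RN N y Y x := by
  unfold RN
  positivity

theorem P09_max {C1 C2 L : ℝ} (h1 : 1 ≤ C1) (h : C1 ≤ C2) (hL : 1 ≤ L) : C1 * L ^ C1 ≤ C2 * L ^ C2 := by
  have h3 : L ^ C1 ≤ L ^ C2 := Real.rpow_le_rpow_of_exponent_le hL h
  have h4 : 0 ≤ L ^ C1 := by positivity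
  exact mul_le_mul h h3 h4 (by linarith)

theorem P09_G {L Y : ℝ} (hY : Real.exp L ≤ Y) {p : ℕ} (hp : p ∈ prm 1 (Real.exp L)) {a b c : ℝ} (ha : |a| ≤ c)
    (hb : |b| ≤ c) : Gd (20 * c) p ((a : ℂ) * zp 0 p + (b : ℂ) * (-(Complex.I * zp 0 p)))
      (fun x => a * (La Y p x).re + b * (La Y p x).im) := by
  obtain ⟨h1, h2⟩ := Gd_La hY hp
  refine ((h1.smul a).add (h2.smul b)).mono ?_
  nlinarith

theorem P09_exp_cont (S : Finset ℕ) {H : ℕ → Om → ℝ} (hH : ∀ p ∈ S, Continuous (H p)) :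
    Continuous fun x => Real.exp (∑ p ∈ S, H p x) :=
  Real.continuous_exp.comp (continuous_finsetSum _ hH)

/-- the four exponentials -/
noncomputable def P09_E (a b y Y : ℝ) (x : Om) : ℝ :=
  Real.exp (∑ p ∈ prm 1 y, (a * (La Y p x).re + b * (La Y p x).im))

theorem P09_E_cont (a b y Y : ℝ) : Continuous (P09_E a b y Y) := by
  unfold P09_E
  exact P09_exp_cont _ fun p _ => (continuous_const.mul (Complex.continuous_re.comp (P09_La_cont Y p))).add
    (continuous_const.mul (Complex.continuous_im.comp (P09_La_cont Y p)))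

theorem P09_E_nonneg (a b y Y : ℝ) (x : Om) : 0 ≤ P09_E a b y Y x := (Real.exp_pos _).le

theorem P09_one {C0 c : ℝ} (hC0 : 0 ≤ C0) (hc : 0 ≤ c) : ∃ C : ℝ, 1 ≤ C ∧ ∀ (L : ℝ) (b : ℕ → ℂ) (H : ℕ → Om → ℝ),
    1 ≤ L → GdL C0 L b H → ∀ (Y a1 a2 : ℝ), Real.exp L ≤ Y → |a1| ≤ c → |a2| ≤ c →
    ∫ x, Real.exp (∑ p ∈ prm 1 (Real.exp L), H p x) * P09_E a1 a2 (Real.exp L) Y x ∂mu ≤ C * L ^ C := by
  obtain ⟨C, hC, h⟩ := GdL_prod (C := C0 + 20 * c) (by positivity)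
  refine ⟨C, hC, ?_⟩
  intro L b H hL hH Y a1 a2 hY h1 h2
  have := h L (fun p => b p + ((a1 : ℂ) * zp 0 p + (a2 : ℂ) * (-(Complex.I * zp 0 p))))
    (fun p x => H p x + (a1 * (La Y p x).re + a2 * (La Y p x).im)) hL
    (fun p hp => (hH p hp).add (P09_G hY hp h1 h2))
  refine le_trans (le_of_eq ?_) this
  refine integral_congr_ae (ae_of_all _ fun x => ?_)
  beta_reduce
  unfold P09_E
  rw [← Real.exp_add, Finset.sum_add_distrib (f := fun p => H p x)]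

theorem P09_gen {C0 : ℝ} (hC0 : 0 ≤ C0) : ∃ C : ℝ, 1 ≤ C ∧ ∀ (L : ℝ) (b : ℕ → ℂ) (H : ℕ → Om → ℝ), 1 ≤ L →
    GdL C0 L b H → ∀ (Y : ℝ) (N : ℕ), Real.exp L ≤ Y →
    ∫ x, Real.exp (∑ p ∈ prm 1 (Real.exp L), H p x) * RN N (Real.exp L) Y x ∂mu ≤ (1 / 8) ^ N * (C * L ^ C) ∧
    ∫ x, Real.exp (∑ p ∈ prm 1 (Real.exp L), H p x) * RN N (Real.exp L) Y x ^ 2 ∂mu ≤
      (1 / 64) ^ N * (C * L ^ C) := by
  obtain ⟨C, hC, h⟩ := P09_one (C0 := C0) (c := 16) hC0 (by norm_num)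
  refine ⟨16 * C, by linarith, ?_⟩
  intro L b H hL hH Y N hY
  set W : Om → ℝ := fun x => Real.exp (∑ p ∈ prm 1 (Real.exp L), H p x) with hW
  have cW : Continuous W := P09_exp_cont _ fun p hp => (hH p hp).cont
  have W0 : ∀ x, 0 ≤ W x := fun x => (Real.exp_pos _).le
  have cR := P09_RN_cont N (Real.exp L) Y
  have hE : ∀ a1 a2 : ℝ, |a1| ≤ 16 → |a2| ≤ 16 → ∫ x, W x * P09_E a1 a2 (Real.exp L) Y x ∂mu ≤ C * L ^ C :=
    fun a1 a2 h1 h2 => h L b H hL hH Y a1 a2 hY h1 h2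
  have iE : ∀ a1 a2 : ℝ, Integrable (fun x => W x * P09_E a1 a2 (Real.exp L) Y x) mu := fun a1 a2 =>
    integrable_of_continuous (cW.mul (P09_E_cont _ _ _ _))
  have hCL : C * L ^ C ≤ C * L ^ (16 * C) :=
    mul_le_mul_of_nonneg_left (Real.rpow_le_rpow_of_exponent_le hL (by linarith)) (by linarith)
  have hsum4 : ∀ a : ℝ, |a| ≤ 16 → ∫ x, W x * (P09_E a a (Real.exp L) Y x + P09_E a (-a) (Real.exp L) Y x +
      P09_E (-a) a (Real.exp L) Y x + P09_E (-a) (-a) (Real.exp L) Y x) ∂mu ≤ 4 * (C * L ^ C) := by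
    intro a ha
    have hna : |-a| ≤ 16 := by rwa [abs_neg]
    have e : ∀ x, W x * (P09_E a a (Real.exp L) Y x + P09_E a (-a) (Real.exp L) Y x +
      P09_E (-a) a (Real.exp L) Y x + P09_E (-a) (-a) (Real.exp L) Y x) =
      (W x * P09_E a a (Real.exp L) Y x + W x * P09_E a (-a) (Real.exp L) Y x) +
      (W x * P09_E (-a) a (Real.exp L) Y x + W x * P09_E (-a) (-a) (Real.exp L) Y x) := fun x => by ring
    simp_rw [e]
    have i12 : Integrable (fun x => W x * P09_E a a (Real.exp L) Y x + W x * P09_E a (-a) (Real.exp L) Y x) mu :=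
      (iE a a).add (iE a (-a))
    have i34 : Integrable (fun x => W x * P09_E (-a) a (Real.exp L) Y x + W x * P09_E (-a) (-a) (Real.exp L) Y x) mu :=
      (iE (-a) a).add (iE (-a) (-a))
    rw [integral_add i12 i34, integral_add (iE a a) (iE a (-a)), integral_add (iE (-a) a) (iE (-a) (-a))]
    have := hE a a ha ha
    have := hE a (-a) ha hna
    have := hE (-a) a hna ha
    have := hE (-a) (-a) hna hna
    linarith
  constructor
  · have h1 : ∀ x, W x * RN N (Real.exp L) Y x ≤ (1 / 8) ^ N * (W x * (P09_E 8 8 (Real.exp L) Y x +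
        P09_E 8 (-8) (Real.exp L) Y x + P09_E (-8) 8 (Real.exp L) Y x + P09_E (-8) (-8) (Real.exp L) Y x)) := by
      intro x
      have h2 := RN_le N (Real.exp L) Y x (c := 8) (by norm_num)
      have h3 := mul_le_mul_of_nonneg_left h2 (W0 x)
      refine h3.trans (le_of_eq ?_)
      unfold P09_E
      rw [one_div]
      ring
    have i1 : Integrable (fun x => W x * RN N (Real.exp L) Y x) mu := integrable_of_continuous (cW.mul cR)
    have i2 : Integrable (fun x => (1 / 8 : ℝ) ^ N * (W x * (P09_E 8 8 (Real.exp L) Y x +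
        P09_E 8 (-8) (Real.exp L) Y x + P09_E (-8) 8 (Real.exp L) Y x + P09_E (-8) (-8) (Real.exp L) Y x))) mu :=
      integrable_of_continuous (continuous_const.mul (cW.mul ((((P09_E_cont _ _ _ _).add (P09_E_cont _ _ _ _)).add
        (P09_E_cont _ _ _ _)).add (P09_E_cont _ _ _ _))))
    refine (integral_mono i1 i2 h1).trans ?_
    rw [integral_const_mul]
    refine mul_le_mul_of_nonneg_left ?_ (by positivity)
    have h4 := hsum4 8 (by norm_num)
    have hX : 0 ≤ C * L ^ (16 * C) := by positivity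
    rw [mul_assoc]
    linarith
  · have h1 : ∀ x, W x * RN N (Real.exp L) Y x ^ 2 ≤ (1 / 64) ^ N * (4 * (W x * (P09_E 16 16 (Real.exp L) Y x +
        P09_E 16 (-16) (Real.exp L) Y x + P09_E (-16) 16 (Real.exp L) Y x + P09_E (-16) (-16) (Real.exp L) Y x))) := by
      intro x
      have h2 := RN_le N (Real.exp L) Y x (c := 8) (by norm_num)
      have h0 := P09_RN_nonneg N (Real.exp L) Y x
      have h4 : RN N (Real.exp L) Y x ^ 2 ≤ ((8⁻¹ : ℝ) ^ N * (P09_E 8 8 (Real.exp L) Y x +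
        P09_E 8 (-8) (Real.exp L) Y x + P09_E (-8) 8 (Real.exp L) Y x + P09_E (-8) (-8) (Real.exp L) Y x)) ^ 2 :=
        pow_le_pow_left₀ h0 h2 2
      have hsq : ∀ a1 a2 : ℝ, P09_E a1 a2 (Real.exp L) Y x ^ 2 = P09_E (2 * a1) (2 * a2) (Real.exp L) Y x := by
        intro a1 a2
        unfold P09_E
        rw [← Real.exp_nat_mul]
        congr 1
        rw [Finset.mul_sum]
        refine Finset.sum_congr rfl fun p _ => ?_
        push_cast
        ring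
      have q1 := hsq 8 8
      have q2 := hsq 8 (-8)
      have q3 := hsq (-8) 8
      have q4 := hsq (-8) (-8)
      norm_num at q1 q2 q3 q4
      set e1 := P09_E 8 8 (Real.exp L) Y x
      set e2 := P09_E 8 (-8) (Real.exp L) Y x
      set e3 := P09_E (-8) 8 (Real.exp L) Y x
      set e4 := P09_E (-8) (-8) (Real.exp L) Y x
      rw [← q1, ← q2, ← q3, ← q4]
      have h5 : (e1 + e2 + e3 + e4) ^ 2 ≤ 4 * (e1 ^ 2 + e2 ^ 2 + e3 ^ 2 + e4 ^ 2) := by
        nlinarith [sq_nonneg (e1 - e2), sq_nonneg (e1 - e3), sq_nonneg (e1 - e4), sq_nonneg (e2 - e3),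
          sq_nonneg (e2 - e4), sq_nonneg (e3 - e4)]
      have h6 : ((8⁻¹ : ℝ) ^ N) ^ 2 = (1 / 64) ^ N := by
        rw [← pow_mul, mul_comm, pow_mul]
        norm_num
      rw [mul_pow, h6] at h4
      have h7 : (1 / 64 : ℝ) ^ N * (e1 + e2 + e3 + e4) ^ 2 ≤
          (1 / 64 : ℝ) ^ N * (4 * (e1 ^ 2 + e2 ^ 2 + e3 ^ 2 + e4 ^ 2)) :=
        mul_le_mul_of_nonneg_left h5 (by positivity)
      have h8 := mul_le_mul_of_nonneg_left (h4.trans h7) (W0 x)
      refine h8.trans (le_of_eq ?_)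
      ring
    have i1 : Integrable (fun x => W x * RN N (Real.exp L) Y x ^ 2) mu := integrable_of_continuous (cW.mul (cR.pow 2))
    have i2 : Integrable (fun x => (1 / 64 : ℝ) ^ N * (4 * (W x * (P09_E 16 16 (Real.exp L) Y x +
        P09_E 16 (-16) (Real.exp L) Y x + P09_E (-16) 16 (Real.exp L) Y x + P09_E (-16) (-16) (Real.exp L) Y x)))) mu :=
      integrable_of_continuous (continuous_const.mul (continuous_const.mul (cW.mul ((((P09_E_cont _ _ _ _).add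
        (P09_E_cont _ _ _ _)).add (P09_E_cont _ _ _ _)).add (P09_E_cont _ _ _ _)))))
    refine (integral_mono i1 i2 h1).trans ?_
    rw [integral_const_mul, integral_const_mul]
    refine mul_le_mul_of_nonneg_left ?_ (by positivity)
    have h4 := hsum4 16 (by norm_num)
    rw [mul_assoc]
    linarith

theorem three_R : ∃ C : ℝ, 1 ≤ C ∧ ∀ (L : ℝ) (α β γ : ℂ), 1 ≤ L → Adm α L → Adm β L → Adm γ L →
    ∀ (Y : ℝ) (N : ℕ), Real.exp L ≤ Y →
    ∫ x, ‖ZZ α 1 (Real.exp L) x‖ * ‖ZZ β 1 (Real.exp L) x‖ * ‖ZZ γ 1 (Real.exp L) x‖ ∂mu ≤ C * L ^ C ∧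
    ∫ x, ‖ZZ α 1 (Real.exp L) x‖ * ‖ZZ β 1 (Real.exp L) x‖ * ‖ZZ γ 1 (Real.exp L) x‖ * RN N (Real.exp L) Y x ∂mu ≤
      (1 / 8) ^ N * (C * L ^ C) := by
  obtain ⟨C1, hC1, h1⟩ := GdL_prod (C := 30) (by norm_num)
  obtain ⟨C2, hC2, h2⟩ := P09_gen (C0 := 30) (by norm_num)
  refine ⟨max C1 C2, le_max_of_le_left hC1, ?_⟩
  intro L α β γ hL hα hβ hγ Y N hY
  set H : ℕ → Om → ℝ := fun p x => Real.log ‖(1 - zp α p * ch x p)⁻¹‖ + Real.log ‖(1 - zp β p * ch x p)⁻¹‖ +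
    Real.log ‖(1 - zp γ p * ch x p)⁻¹‖ with hH
  have hG : GdL 30 L (fun p => zp α p + zp β p + zp γ p) H := fun p hp => by
    exact (((Gd_log hα hp).add (Gd_log hβ hp)).add (Gd_log hγ hp)).mono (by norm_num)
  have e : ∀ x, ‖ZZ α 1 (Real.exp L) x‖ * ‖ZZ β 1 (Real.exp L) x‖ * ‖ZZ γ 1 (Real.exp L) x‖ =
      Real.exp (∑ p ∈ prm 1 (Real.exp L), H p x) := by
    intro x
    rw [norm_ZZ hα, norm_ZZ hβ, norm_ZZ hγ, ← Real.exp_add, ← Real.exp_add, hH]
    rw [← Finset.sum_add_distrib, ← Finset.sum_add_distrib]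
  simp_rw [e]
  exact ⟨(h1 L _ H hL hG).trans (P09_max hC1 (le_max_left _ _) hL),
    (h2 L _ H hL hG Y N hY).1.trans (mul_le_mul_of_nonneg_left (P09_max hC2 (le_max_right _ _) hL) (by positivity))⟩

theorem one_R : ∃ C : ℝ, 1 ≤ C ∧ ∀ (L : ℝ), 1 ≤ L → ∀ (Y : ℝ) (N : ℕ), Real.exp L ≤ Y →
    ∫ x, ‖ZZ 0 1 (Real.exp L) x‖ ∂mu ≤ C * L ^ C ∧
    ∫ x, ‖ZZ 0 1 (Real.exp L) x‖ * RN N (Real.exp L) Y x ∂mu ≤ (1 / 8) ^ N * (C * L ^ C) := by
  obtain ⟨C1, hC1, h1⟩ := GdL_prod (C := 10) (by norm_num)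
  obtain ⟨C2, hC2, h2⟩ := P09_gen (C0 := 10) (by norm_num)
  refine ⟨max C1 C2, le_max_of_le_left hC1, ?_⟩
  intro L hL Y N hY
  have h0 : Adm 0 L := ⟨hL, by rw [norm_zero]; positivity⟩
  set H : ℕ → Om → ℝ := fun p x => Real.log ‖(1 - zp 0 p * ch x p)⁻¹‖ with hH
  have hG : GdL 10 L (fun p => zp 0 p) H := fun p hp => Gd_log h0 hp
  have e : ∀ x, ‖ZZ 0 1 (Real.exp L) x‖ = Real.exp (∑ p ∈ prm 1 (Real.exp L), H p x) := fun x => norm_ZZ h0 x
  simp_rw [e]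
  exact ⟨(h1 L _ H hL hG).trans (P09_max hC1 (le_max_left _ _) hL),
    (h2 L _ H hL hG Y N hY).1.trans (mul_le_mul_of_nonneg_left (P09_max hC2 (le_max_right _ _) hL) (by positivity))⟩

theorem nu_R : ∃ C : ℝ, 1 ≤ C ∧ ∀ (L : ℝ) (s : ℂ), 1 ≤ L → Adm s L → ∀ (Y : ℝ) (N : ℕ), Real.exp L ≤ Y →
    ∫ x, RN N (Real.exp L) Y x ^ 2 ∂(nu s L) ≤ (1 / 64) ^ N * (C * L ^ C) := by
  obtain ⟨C2, hC2, h2⟩ := P09_gen (C0 := 20) (by norm_num)
  refine ⟨C2, hC2, ?_⟩
  intro L s hL hs Y N hY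
  set H : ℕ → Om → ℝ := fun p x => 2 * Real.log ‖(1 - zp s p * ch x p)⁻¹‖ with hH
  have hG : GdL 20 L (fun p => ((2 : ℝ) : ℂ) * zp s p) H := fun p hp => by
    exact ((Gd_log hs hp).smul 2).mono (by norm_num)
  have e : ∀ x, ‖ZZ s 1 (Real.exp L) x‖ ^ 2 = Real.exp (∑ p ∈ prm 1 (Real.exp L), H p x) := fun x => by
    rw [norm_ZZ hs x, ← Real.exp_nat_mul, hH, Finset.mul_sum]
    norm_num
  have cR2 : Continuous fun x : Om => RN N (Real.exp L) Y x ^ 2 := (P09_RN_cont N (Real.exp L) Y).pow 2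
  rw [integral_nu hs cR2]
  simp_rw [e]
  have h3 := (h2 L _ H hL hG Y N hY).2
  have h4 : 0 ≤ ∫ x, Real.exp (∑ p ∈ prm 1 (Real.exp L), H p x) * RN N (Real.exp L) Y x ^ 2 ∂mu :=
    integral_nonneg fun x => by positivity
  have h5 : nz s 1 (Real.exp L) ≤ 1 := by
    unfold nz
    refine Finset.prod_le_one (fun p hp => ?_) (fun p hp => ?_)
    · have := D3b_lt hs hp
      linarith
    · have := sq_nonneg ‖zp s p‖
      linarith
  calc nz s 1 (Real.exp L) * _ ≤ 1 * _ := mul_le_mul_of_nonneg_right h5 h4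
    _ ≤ _ := by rw [one_mul]; exact h3

end Pool.Agent.LibPH45
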