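import Mathlib
import Pool.Agent.LibPH45.Defs
import Pool.Agent.LibPH45.PH_01
import Pool.Agent.LibPH45.PH_04
import Pool.Agent.LibPH45.PH_05
import Pool.Agent.LibPH45.PH_09

/-! Row 10.
prod |1 - zp zp| <= prod (1 + (6/5)/p)^2 <= C L^C (as in PH07, D3a_small); |PhN - conj uu| <= 4y/sqrt Y + RN; norm of conj ZZ(conj gamma) = norm ZZ(conj gamma), D2b_adm_conj. Continuity of PhN: it is a polynomial in AY (a finite sum of ch).
-/

set_option autoImplicit false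

namespace Pool.Agent.LibPH45

open MeasureTheory Filter Topology Pool.Agent.LibMM99 Pool.Agent.LibTG78
open scoped ComplexConjugate

theorem P10_sum : ∃ C : ℝ, 0 ≤ C ∧ ∀ L : ℝ, 1 ≤ L →
    ∑ p ∈ prm 1 (Real.exp L), (p : ℝ)⁻¹ ≤ Real.log L + C := by
  obtain ⟨C, hC0, hC⟩ := sum_inv_prime_le
  have hs1 : (1 : ℝ) < Real.sqrt 2 := by
    rw [Real.lt_sqrt (by norm_num)]; norm_num
  have hl1 : 0 < Real.log (Real.sqrt 2) := Real.log_pos hs1
  refine ⟨C + |Real.log (Real.log (Real.sqrt 2))|, by positivity, fun L hL => ?_⟩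
  have hs2 : Real.sqrt 2 < 2 := by
    rw [Real.sqrt_lt' (by norm_num)]; norm_num
  have hexp : (2 : ℝ) ≤ Real.exp L := by
    have h1 := Real.add_one_le_exp L
    linarith
  have h1 := hC (Real.sqrt 2) (Real.exp L) le_rfl (by linarith)
  have h2 : prm 1 (Real.exp L) ⊆ prm (Real.sqrt 2) (Real.exp L) := by
    intro p hp
    rw [D2b_mem_prm] at hp ⊢
    refine ⟨hp.1, ?_, hp.2.2⟩
    have : (2 : ℝ) ≤ p := by exact_mod_cast hp.1.two_le
    linarith
  have h3 : ∑ p ∈ prm 1 (Real.exp L), (p : ℝ)⁻¹ ≤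
      ∑ p ∈ prm (Real.sqrt 2) (Real.exp L), (p : ℝ)⁻¹ :=
    Finset.sum_le_sum_of_subset_of_nonneg h2 fun _ _ _ => by positivity
  rw [Real.log_exp, Real.log_div (by linarith) hl1.ne'] at h1
  have h4 := neg_abs_le (Real.log (Real.log (Real.sqrt 2)))
  linarith

theorem P10_fac {α γ : ℂ} {L : ℝ} (hα : Adm α L) (hγ : Adm γ L) {p : ℕ}
    (hp : p ∈ prm 1 (Real.exp L)) : ‖1 - zp α p * zp γ p‖ ≤ Real.exp (6 / 5 * (p : ℝ)⁻¹) := by
  rw [D2b_mem_prm] at hp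
  have h1 := D3a_small hα hp.1.two_le hp.2.2
  have h2 := D3a_small hγ hp.1.two_le hp.2.2
  have h3 : ‖zp α p‖ * ‖zp γ p‖ ≤ 6 / 5 * (p : ℝ)⁻¹ := by
    have h4 := two_mul_le_add_sq ‖zp α p‖ ‖zp γ p‖
    have h5 : 6 / 5 / (p : ℝ) = 6 / 5 * (p : ℝ)⁻¹ := div_eq_mul_inv _ _
    linarith
  calc ‖1 - zp α p * zp γ p‖ ≤ ‖(1 : ℂ)‖ + ‖zp α p * zp γ p‖ := norm_sub_le _ _
    _ = 1 + ‖zp α p‖ * ‖zp γ p‖ := by rw [norm_one, norm_mul]
    _ ≤ 6 / 5 * (p : ℝ)⁻¹ + 1 := by linarith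
    _ ≤ Real.exp (6 / 5 * (p : ℝ)⁻¹) := Real.add_one_le_exp _

theorem P10_prod {α β γ : ℂ} {L : ℝ} (hα : Adm α L) (hβ : Adm β L) (hγ : Adm γ L) :
    ‖∏ p ∈ prm 1 (Real.exp L), ((1 - zp α p * zp γ p) * (1 - zp β p * zp γ p))‖ ≤
      Real.exp (12 / 5 * ∑ p ∈ prm 1 (Real.exp L), (p : ℝ)⁻¹) := by
  rw [norm_prod, Finset.mul_sum, Real.exp_sum]
  refine Finset.prod_le_prod (fun _ _ => norm_nonneg _) fun p hp => ?_
  rw [norm_mul]
  calc ‖1 - zp α p * zp γ p‖ * ‖1 - zp β p * zp γ p‖ ≤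
      Real.exp (6 / 5 * (p : ℝ)⁻¹) * Real.exp (6 / 5 * (p : ℝ)⁻¹) :=
        mul_le_mul (P10_fac hα hγ hp) (P10_fac hβ hγ hp) (norm_nonneg _) (Real.exp_pos _).le
    _ = Real.exp (12 / 5 * (p : ℝ)⁻¹) := by rw [← Real.exp_add]; congr 1; ring

theorem P10_AY (y Y : ℝ) : Continuous fun x : Om => AY y Y x := by
  unfold AY La
  refine continuous_finsetSum _ fun p _ => continuous_finsetSum _ fun j _ => ?_
  have h1 : Continuous fun x : Om => wp p x := continuous_const.mul (continuous_ch p)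
  exact (h1.pow j).div_const _

theorem P10_PhN (N : ℕ) (y Y : ℝ) : Continuous fun x : Om => PhN N y Y x := by
  unfold PhN
  refine continuous_finsetSum _ fun n _ => ?_
  have h1 : Continuous fun x : Om => (((AY y Y x).im : ℝ) : ℂ) :=
    Complex.continuous_ofReal.comp (Complex.continuous_im.comp (P10_AY y Y))
  exact (((continuous_const.mul h1).neg).pow n).div_const _

theorem P10_RN (N : ℕ) (y Y : ℝ) : Continuous fun x : Om => RN N y Y x := by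
  unfold RN
  exact ((P10_AY y Y).norm.pow N).div_const _

theorem P10_int {E : Type} [NormedAddCommGroup E] {f : Om → E} (hf : Continuous f) :
    Integrable f mu := hf.integrable_of_hasCompactSupport (HasCompactSupport.of_compactSpace f)

theorem JP_err : ∃ C : ℝ, 1 ≤ C ∧ ∀ (L : ℝ) (α β γ : ℂ), 1 ≤ L → Adm α L → Adm β L → Adm γ L →
    ∀ (Y : ℝ) (N : ℕ), Real.exp L ≤ Y →
    ‖JP α β γ (Real.exp L) (PhN N (Real.exp L) Y) - JP α β γ (Real.exp L) (fun x => conj (uu (Real.exp L) x))‖ ≤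
      C * L ^ C * (4 * Real.exp L / Real.sqrt Y + (1 / 8) ^ N) := by
  obtain ⟨C1, hC1, h1⟩ := P10_sum
  obtain ⟨C2, hC2, h2⟩ := three_R
  have hE1 : 1 ≤ Real.exp (12 / 5 * C1) := Real.one_le_exp (by positivity)
  have hA1 : C2 ≤ Real.exp (12 / 5 * C1) * C2 := by nlinarith
  refine ⟨Real.exp (12 / 5 * C1) * C2 + 12 / 5 + C2, by linarith, ?_⟩
  intro L α β γ hL hα hβ hγ Y N hY
  have hy1 : 1 ≤ Real.exp L := Real.one_le_exp (by linarith)
  have hY1 : 1 ≤ Y := hy1.trans hY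
  have hL0 : 0 < L := by linarith
  have hγ' := D2b_adm_conj hγ
  set y := Real.exp L with hy
  have cα : Continuous (ZZ α 1 y) := D2b_cont_ZZ hα 1 y
  have cβ : Continuous (ZZ β 1 y) := D2b_cont_ZZ hβ 1 y
  have cγ : Continuous (ZZ (conj γ) 1 y) := D2b_cont_ZZ hγ' 1 y
  have cu : Continuous fun x => conj (uu y x) := Complex.continuous_conj.comp (uu_cont y).1
  have cP := P10_PhN N y Y
  have cW : Continuous fun x => ZZ α 1 y x * ZZ β 1 y x * conj (ZZ (conj γ) 1 y x) :=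
    (cα.mul cβ).mul (Complex.continuous_conj.comp cγ)
  -- the product
  have hprod := P10_prod hα hβ hγ
  have hsum := h1 L hL
  have hprod' : ‖∏ p ∈ prm 1 y, ((1 - zp α p * zp γ p) * (1 - zp β p * zp γ p))‖ ≤
      Real.exp (12 / 5 * C1) * L ^ (12 / 5 : ℝ) := by
    refine hprod.trans ?_
    have h3 : Real.exp (12 / 5 * C1) * L ^ (12 / 5 : ℝ) =
        Real.exp (12 / 5 * (Real.log L + C1)) := by
      rw [Real.rpow_def_of_pos hL0, ← Real.exp_add]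
      congr 1
      ring
    rw [h3]
    exact Real.exp_le_exp.2 (by linarith)
  -- the integral
  obtain ⟨h4, h5⟩ := h2 L α β (conj γ) hL hα hβ hγ' Y N hY
  have hint : ‖(∫ x, ZZ α 1 y x * ZZ β 1 y x * conj (ZZ (conj γ) 1 y x) * PhN N y Y x ∂mu) -
      ∫ x, ZZ α 1 y x * ZZ β 1 y x * conj (ZZ (conj γ) 1 y x) * conj (uu y x) ∂mu‖ ≤
      C2 * L ^ C2 * (4 * y / Real.sqrt Y + (1 / 8) ^ N) := by
    have j1 : Integrable (fun x => ZZ α 1 y x * ZZ β 1 y x * conj (ZZ (conj γ) 1 y x) *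
        PhN N y Y x) mu := P10_int (cW.mul cP)
    have j2 : Integrable (fun x => ZZ α 1 y x * ZZ β 1 y x * conj (ZZ (conj γ) 1 y x) *
        conj (uu y x)) mu := P10_int (cW.mul cu)
    rw [← integral_sub j1 j2]
    have h6 : ∀ x, ‖ZZ α 1 y x * ZZ β 1 y x * conj (ZZ (conj γ) 1 y x) * PhN N y Y x -
        ZZ α 1 y x * ZZ β 1 y x * conj (ZZ (conj γ) 1 y x) * conj (uu y x)‖ ≤
        ‖ZZ α 1 y x‖ * ‖ZZ β 1 y x‖ * ‖ZZ (conj γ) 1 y x‖ * (4 * y / Real.sqrt Y) +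
          ‖ZZ α 1 y x‖ * ‖ZZ β 1 y x‖ * ‖ZZ (conj γ) 1 y x‖ * RN N y Y x := by
      intro x
      rw [← mul_sub, norm_mul, norm_mul, norm_mul, RCLike.norm_conj, ← mul_add]
      apply mul_le_mul_of_nonneg_left _ (by positivity)
      rw [norm_sub_rev]
      exact phase_pointwise hy1 hY1 N x
    have cN : Continuous fun x => ‖ZZ α 1 y x‖ * ‖ZZ β 1 y x‖ * ‖ZZ (conj γ) 1 y x‖ :=
      (cα.norm.mul cβ.norm).mul cγ.norm
    have i1 : Integrable (fun x => ‖ZZ α 1 y x‖ * ‖ZZ β 1 y x‖ * ‖ZZ (conj γ) 1 y x‖ *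
        (4 * y / Real.sqrt Y)) mu := P10_int (cN.mul continuous_const)
    have i2 : Integrable (fun x => ‖ZZ α 1 y x‖ * ‖ZZ β 1 y x‖ * ‖ZZ (conj γ) 1 y x‖ *
        RN N y Y x) mu := P10_int (cN.mul (P10_RN N y Y))
    refine (norm_integral_le_integral_norm _).trans ?_
    refine (integral_mono (j1.sub j2).norm (i1.add i2) h6).trans ?_
    simp only [Pi.add_apply]
    rw [integral_add i1 i2, integral_mul_const]
    have h7 : (∫ x, ‖ZZ α 1 y x‖ * ‖ZZ β 1 y x‖ * ‖ZZ (conj γ) 1 y x‖ ∂mu) *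
        (4 * y / Real.sqrt Y) ≤ C2 * L ^ C2 * (4 * y / Real.sqrt Y) :=
      mul_le_mul_of_nonneg_right h4 (by positivity)
    have h8 : (1 / 8 : ℝ) ^ N * (C2 * L ^ C2) = C2 * L ^ C2 * (1 / 8) ^ N := mul_comm _ _
    rw [mul_add]
    linarith
  have hkey : ‖JP α β γ y (PhN N y Y) - JP α β γ y (fun x => conj (uu y x))‖ ≤
      (Real.exp (12 / 5 * C1) * L ^ (12 / 5 : ℝ)) *
        (C2 * L ^ C2 * (4 * y / Real.sqrt Y + (1 / 8) ^ N)) := by
    unfold JP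
    rw [← mul_sub, norm_mul]
    exact mul_le_mul hprod' hint (norm_nonneg _) (by positivity)
  refine hkey.trans ?_
  have h9 : (Real.exp (12 / 5 * C1) * L ^ (12 / 5 : ℝ)) *
        (C2 * L ^ C2 * (4 * y / Real.sqrt Y + (1 / 8) ^ N)) =
      (Real.exp (12 / 5 * C1) * C2) * (L ^ (12 / 5 : ℝ) * L ^ C2) *
        (4 * y / Real.sqrt Y + (1 / 8) ^ N) := by ring
  rw [h9, ← Real.rpow_add hL0]
  apply mul_le_mul_of_nonneg_right _ (by positivity)
  apply mul_le_mul (by linarith) _ (by positivity) (by linarith)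
  exact Real.rpow_le_rpow_of_exponent_le hL (by linarith)

end Pool.Agent.LibPH45
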