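import Mathlib
import Pool.Agent.LibPH45.Defs
import Pool.Agent.LibPH45.PH_01

/-! Row 11.
ZZ = prod, conj(ZZ(conj gamma)) = prod (1 - zp gamma conj ch)^(-1) by D2b_conj_zp; exp(-i XX) = prod exp(-i Xp); D2b_prod_int (independence of coordinates); Finset.prod_mul_distrib.
-/

set_option autoImplicit false

namespace Pool.Agent.LibPH45

open MeasureTheory Filter Topology Pool.Agent.LibMM99 Pool.Agent.LibTG78
open scoped ComplexConjugate

theorem JP_prod {L : ℝ} {α β γ : ℂ} (hα : Adm α L) (hβ : Adm β L) (hγ : Adm γ L) :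
    JP α β γ (Real.exp L) (fun x => conj (uu (Real.exp L) x)) = ∏ p ∈ prm 1 (Real.exp L), fp α β γ p := by
  unfold JP
  set P := prm 1 (Real.exp L) with hP
  have hpr : ∀ p ∈ P, p.Prime := fun p hp => (D2b_mem_prm.1 hp).1
  set H : ℕ → Om → ℂ := fun p x => (1 - zp α p * ch x p)⁻¹ * (1 - zp β p * ch x p)⁻¹ *
    (1 - zp γ p * conj (ch x p))⁻¹ * Complex.exp (-(Complex.I * ((Xp p x : ℝ) : ℂ))) with hH
  have e1 : ∀ x, ZZ α 1 (Real.exp L) x * ZZ β 1 (Real.exp L) x *
      conj (ZZ (conj γ) 1 (Real.exp L) x) * conj (uu (Real.exp L) x) = ∏ p ∈ P, H p x := by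
    intro x
    have h1 : Complex.exp (-(Complex.I * ((XX (Real.exp L) x : ℝ) : ℂ))) =
        ∏ p ∈ P, Complex.exp (-(Complex.I * ((Xp p x : ℝ) : ℂ))) := by
      unfold XX
      rw [← hP, Complex.ofReal_sum, Finset.mul_sum, ← Finset.sum_neg_distrib, Complex.exp_sum]
    rw [conj_uu, h1]
    unfold ZZ
    rw [← hP, map_prod, ← Finset.prod_mul_distrib, ← Finset.prod_mul_distrib,
      ← Finset.prod_mul_distrib]
    refine Finset.prod_congr rfl fun p _ => ?_
    rw [hH]
    simp only [map_inv₀, map_sub, map_one, map_mul, D2b_conj_zp]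
  have hcH : ∀ p ∈ P, Continuous (H p) := fun p hp => by
    have hz1 := D2b_zp_lt hα (hpr p hp)
    have hz2 := D2b_zp_lt hβ (hpr p hp)
    have hz3 := D2b_zp_lt hγ (hpr p hp)
    have c1 : Continuous fun x : Om => (1 - zp α p * ch x p)⁻¹ :=
      (continuous_const.sub (continuous_const.mul (continuous_ch _))).inv₀ fun x => D2a_ne x p hz1
    have c2 : Continuous fun x : Om => (1 - zp β p * ch x p)⁻¹ :=
      (continuous_const.sub (continuous_const.mul (continuous_ch _))).inv₀ fun x => D2a_ne x p hz2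
    have c3 : Continuous fun x : Om => (1 - zp γ p * conj (ch x p))⁻¹ :=
      (continuous_const.sub (continuous_const.mul
        (Complex.continuous_conj.comp (continuous_ch _)))).inv₀ fun x => D2a_ne' x p hz3
    have c4 : Continuous fun x : Om => Complex.exp (-(Complex.I * ((Xp p x : ℝ) : ℂ))) :=
      Complex.continuous_exp.comp (continuous_const.mul
        (Complex.continuous_ofReal.comp (Xp_cont (hpr p hp)).1)).neg
    exact ((c1.mul c2).mul c3).mul c4
  have hdH : ∀ p ∈ P, DependsOn (H p) ({p} : Set ℕ) := fun p hp x y hxy => by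
    have d1 := D2b_dep_pow (hpr p hp) 1 hxy
    have d2 := (Xp_cont (hpr p hp)).2 hxy
    simp only [pow_one] at d1
    rw [hH]
    simp only []
    rw [d1, d2]
  simp_rw [e1]
  rw [D2b_prod_int P H hcH hdH, ← Finset.prod_mul_distrib]
  refine Finset.prod_congr rfl fun p _ => ?_
  rw [hH]
  rfl

end Pool.Agent.LibPH45
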