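import Mathlib
import Pool.Agent.LibPH45.Defs
import Pool.Agent.LibPH45.PH_01

/-! Row 12. -/

set_option autoImplicit false

namespace Pool.Agent.LibPH45

open MeasureTheory Filter Topology Pool.Agent.LibMM99 Pool.Agent.LibTG78
open scoped ComplexConjugate

theorem P12_mul {g h : ℂ} {A B r : ℝ} (hr0 : 0 ≤ r) (hr1 : r ≤ 1) (hA : 0 ≤ A) (hB : 0 ≤ B)
    (hg : ‖g - 1‖ ≤ A * r) (hh : ‖h - 1‖ ≤ B * r) : ‖g * h - 1‖ ≤ (A + B + A * B) * r := by
  have e : g * h - 1 = (g - 1) * (h - 1) + (g - 1) + (h - 1) := by ring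
  rw [e]
  refine (norm_add₃_le).trans ?_
  rw [norm_mul]
  have h1 : ‖g - 1‖ * ‖h - 1‖ ≤ (A * r) * (B * r) :=
    mul_le_mul hg hh (norm_nonneg _) (by positivity)
  have h2 : (A * r) * (B * r) ≤ A * B * r := by
    have : A * B * (r * r) ≤ A * B * (r * 1) := by gcongr
    nlinarith
  nlinarith

theorem P12_inv {z : ℂ} {r : ℝ} (hz : ‖z‖ ≤ 11 / 10 * r) (hz1 : ‖z‖ ≤ 39 / 50) :
    ‖(1 - z)⁻¹‖ ≤ 50 / 11 ∧ ‖(1 - z)⁻¹ - 1‖ ≤ 5 * r := by
  have h1 : 11 / 50 ≤ ‖1 - z‖ := by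
    have := norm_sub_norm_le (1 : ℂ) z
    rw [norm_one] at this
    linarith
  have h0 : (1 - z) ≠ 0 := by
    intro h
    rw [h, norm_zero] at h1
    linarith
  have h2 : ‖(1 - z)⁻¹‖ ≤ 50 / 11 := by
    rw [norm_inv]
    rw [inv_le_comm₀ (by linarith) (by norm_num)]
    linarith
  refine ⟨h2, ?_⟩
  have e : (1 - z)⁻¹ - 1 = z * (1 - z)⁻¹ := by
    field_simp
    ring
  rw [e, norm_mul]
  have h3 : ‖z‖ * ‖(1 - z)⁻¹‖ ≤ (11 / 10 * r) * (50 / 11) :=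
    mul_le_mul hz h2 (norm_nonneg _) ((norm_nonneg _).trans hz)
  linarith

theorem P12_r {p : ℕ} (hp : p.Prime) : 0 < (Real.sqrt p)⁻¹ ∧ (Real.sqrt p)⁻¹ ≤ 1 ∧
    (Real.sqrt p)⁻¹ * (Real.sqrt p)⁻¹ = (p : ℝ)⁻¹ := by
  have hp1 : (1 : ℝ) ≤ p := by exact_mod_cast hp.one_lt.le
  have h1 : 1 ≤ Real.sqrt p := by
    rw [Real.one_le_sqrt]
    exact hp1
  refine ⟨by positivity, inv_le_one_of_one_le₀ h1, ?_⟩
  rw [← mul_inv, Real.mul_self_sqrt (by linarith)]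

theorem P12_E {p : ℕ} (hp : p.Prime) (x : Om) :
    ‖Complex.exp (-(Complex.I * ((Xp p x : ℝ) : ℂ))) - 1‖ ≤ 5 * (Real.sqrt p)⁻¹ := by
  obtain ⟨h1, h2⟩ := norm_wp hp x
  have h3 : |Xp p x| ≤ ‖Complex.log (1 - wp p x)‖ := by
    unfold Xp
    rw [abs_neg]
    exact Complex.abs_im_le_norm _
  have h4 : ‖Complex.log (1 + (-wp p x))‖ ≤ ‖-wp p x‖ ^ 2 * (1 - ‖-wp p x‖)⁻¹ / 2 + ‖-wp p x‖ :=
    Complex.norm_log_one_add_le (by rw [norm_neg]; linarith)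
  rw [← sub_eq_add_neg, norm_neg] at h4
  have h5 : (1 - ‖wp p x‖)⁻¹ ≤ 4 := by
    rw [inv_le_comm₀ (by linarith) (by norm_num)]
    linarith
  have h6 : ‖wp p x‖ ^ 2 * (1 - ‖wp p x‖)⁻¹ / 2 ≤ 3 / 2 * ‖wp p x‖ := by
    have h7 : ‖wp p x‖ ^ 2 * (1 - ‖wp p x‖)⁻¹ ≤ ‖wp p x‖ ^ 2 * 4 := by gcongr
    nlinarith [norm_nonneg (wp p x)]
  have h8 : |Xp p x| ≤ 5 * (Real.sqrt p)⁻¹ := by
    rw [← h1]
    nlinarith [norm_nonneg (wp p x)]
  refine le_trans ?_ h8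
  have h9 := Real.norm_exp_I_mul_ofReal_sub_one_le (x := -Xp p x)
  have e : -(Complex.I * ((Xp p x : ℝ) : ℂ)) = Complex.I * ((-Xp p x : ℝ) : ℂ) := by
    push_cast
    ring
  rw [e]
  refine h9.trans ?_
  rw [Real.norm_eq_abs, abs_neg]

theorem P12_int {p : ℕ} (hp : p.Prime) {G : Om → ℂ} (hG : Continuous G) {K : ℝ} (hK : ∀ x, ‖G x - 1‖ ≤ K) :
    ‖∫ x, ch x p * G x ∂mu‖ ≤ K ∧ ‖∫ x, conj (ch x p) * G x ∂mu‖ ≤ K := by
  have h0 : ∫ x, ch x p ∂mu = 0 := by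
    have := integral_ch (m := p) (n := 1) hp.ne_zero one_ne_zero
    rw [if_neg hp.one_lt.ne'] at this
    rw [← this]
    refine integral_congr_ae (ae_of_all _ fun x => ?_)
    simp [ch_one]
  have h0' : ∫ x, conj (ch x p) ∂mu = 0 := by
    rw [integral_conj, h0, map_zero]
  have c1 : Continuous fun x : Om => ch x p := continuous_ch p
  have c2 : Continuous fun x : Om => conj (ch x p) := Complex.continuous_conj.comp (continuous_ch p)
  constructor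
  · have e : ∫ x, ch x p * G x ∂mu = ∫ x, ch x p * (G x - 1) ∂mu := by
      have e1 : ∀ x, ch x p * G x = ch x p * (G x - 1) + ch x p := fun x => by ring
      have c3 : Continuous fun x : Om => ch x p * (G x - 1) := c1.mul (hG.sub continuous_const)
      simp_rw [e1]
      rw [integral_add (integrable_of_continuous c3) (integrable_of_continuous c1), h0, add_zero]
    rw [e]
    have := norm_integral_le_of_norm_le_const (μ := mu) (f := fun x => ch x p * (G x - 1)) (C := K)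
      (ae_of_all _ fun x => by rw [norm_mul, norm_ch, one_mul]; exact hK x)
    simpa using this
  · have e : ∫ x, conj (ch x p) * G x ∂mu = ∫ x, conj (ch x p) * (G x - 1) ∂mu := by
      have e1 : ∀ x, conj (ch x p) * G x = conj (ch x p) * (G x - 1) + conj (ch x p) := fun x => by ring
      have c3 : Continuous fun x : Om => conj (ch x p) * (G x - 1) := c2.mul (hG.sub continuous_const)
      simp_rw [e1]
      rw [integral_add (integrable_of_continuous c3) (integrable_of_continuous c2), h0', add_zero]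
    rw [e]
    have := norm_integral_le_of_norm_le_const (μ := mu) (f := fun x => conj (ch x p) * (G x - 1)) (C := K)
      (ae_of_all _ fun x => by rw [norm_mul, Complex.norm_conj, norm_ch, one_mul]; exact hK x)
    simpa using this

/-- the integral part -/
noncomputable def P12_I (a b c : ℂ) (p : ℕ) : ℂ :=
  ∫ x, (1 - a * ch x p)⁻¹ * (1 - b * ch x p)⁻¹ * (1 - c * conj (ch x p))⁻¹ *
      Complex.exp (-(Complex.I * ((Xp p x : ℝ) : ℂ))) ∂mu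

theorem P12_cont {p : ℕ} {z : ℂ} (hz : ‖z‖ ≤ 39 / 50) :
    Continuous (fun x : Om => (1 - z * ch x p)⁻¹) ∧ Continuous (fun x : Om => (1 - z * conj (ch x p))⁻¹) :=
  ⟨B03_cont (by linarith) p, (continuous_const.sub (continuous_const.mul (Complex.continuous_conj.comp
    (continuous_ch p)))).inv₀ fun x => D2a_ne' x p (by linarith)⟩

theorem P12_pt {p : ℕ} {z : ℂ} {r : ℝ} (hz : ‖z‖ ≤ 11 / 10 * r) (hz1 : ‖z‖ ≤ 39 / 50) (x : Om) :
    ‖(1 - z * ch x p)⁻¹‖ ≤ 50 / 11 ∧ ‖(1 - z * ch x p)⁻¹ - 1‖ ≤ 5 * r ∧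
    ‖(1 - z * conj (ch x p))⁻¹‖ ≤ 50 / 11 ∧ ‖(1 - z * conj (ch x p))⁻¹ - 1‖ ≤ 5 * r := by
  have h1 : ‖z * ch x p‖ = ‖z‖ := by rw [norm_mul, norm_ch, mul_one]
  have h2 : ‖z * conj (ch x p)‖ = ‖z‖ := by rw [norm_mul, Complex.norm_conj, norm_ch, mul_one]
  have a1 := P12_inv (z := z * ch x p) (r := r) (by rw [h1]; exact hz) (by rw [h1]; exact hz1)
  have a2 := P12_inv (z := z * conj (ch x p)) (r := r) (by rw [h2]; exact hz) (by rw [h2]; exact hz1)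
  exact ⟨a1.1, a1.2, a2.1, a2.2⟩

theorem P12_five {g1 g2 g3 g4 g5 : ℂ} {r : ℝ} (hr0 : 0 ≤ r) (hr1 : r ≤ 1) (h1 : ‖g1 - 1‖ ≤ 5 * r)
    (h2 : ‖g2 - 1‖ ≤ 5 * r) (h3 : ‖g3 - 1‖ ≤ 5 * r) (h4 : ‖g4 - 1‖ ≤ 5 * r) (h5 : ‖g5 - 1‖ ≤ 5 * r) :
    ‖g1 * g2 * g3 * g4 * g5 - 1‖ ≤ 7775 * r := by
  have a := P12_mul hr0 hr1 (by norm_num) (by norm_num) h1 h2
  have b := P12_mul hr0 hr1 (by norm_num) (by norm_num) a h3
  have c := P12_mul hr0 hr1 (by norm_num) (by norm_num) b h4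
  have d := P12_mul hr0 hr1 (by norm_num) (by norm_num) c h5
  refine d.trans (le_of_eq ?_)
  norm_num

theorem P12_sub {a w X : ℂ} (ha : 1 - a * X ≠ 0) (hw : 1 - w * X ≠ 0) :
    (1 - a * X)⁻¹ - (1 - w * X)⁻¹ = (a - w) * X * (1 - a * X)⁻¹ * (1 - w * X)⁻¹ := by
  rw [inv_sub_inv ha hw]
  field_simp
  ring

theorem P12_diff {p : ℕ} (hp : p.Prime) {a b c w : ℂ} {r : ℝ} (hr : r = (Real.sqrt p)⁻¹)
    (ha : ‖a‖ ≤ 11 / 10 * r) (ha1 : ‖a‖ ≤ 39 / 50) (hb : ‖b‖ ≤ 11 / 10 * r) (hb1 : ‖b‖ ≤ 39 / 50)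
    (hc : ‖c‖ ≤ 11 / 10 * r) (hc1 : ‖c‖ ≤ 39 / 50) (hw : ‖w‖ ≤ 11 / 10 * r) (hw1 : ‖w‖ ≤ 39 / 50) :
    ‖P12_I a b c p - P12_I w w w p‖ ≤ (‖a - w‖ + ‖b - w‖ + ‖c - w‖) * (7775 * r) := by
  obtain ⟨hr0, hr1, _⟩ := P12_r hp
  rw [← hr] at hr0 hr1
  have cE : Continuous fun x : Om => Complex.exp (-(Complex.I * ((Xp p x : ℝ) : ℂ))) :=
    Complex.continuous_exp.comp (continuous_const.mul
      (Complex.continuous_ofReal.comp (Xp_cont hp).1)).neg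
  have hE : ∀ x, ‖Complex.exp (-(Complex.I * ((Xp p x : ℝ) : ℂ))) - 1‖ ≤ 5 * r := fun x => by
    rw [hr]; exact P12_E hp x
  set E : Om → ℂ := fun x => Complex.exp (-(Complex.I * ((Xp p x : ℝ) : ℂ))) with hEdef
  obtain ⟨ca, -⟩ := P12_cont (p := p) ha1
  obtain ⟨cb, -⟩ := P12_cont (p := p) hb1
  obtain ⟨-, cc⟩ := P12_cont (p := p) hc1
  obtain ⟨cw, cw'⟩ := P12_cont (p := p) hw1
  have pa := fun x => P12_pt (p := p) ha ha1 x
  have pb := fun x => P12_pt (p := p) hb hb1 x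
  have pc := fun x => P12_pt (p := p) hc hc1 x
  have pw := fun x => P12_pt (p := p) hw hw1 x
  set G1 : Om → ℂ := fun x => (1 - a * ch x p)⁻¹ * (1 - w * ch x p)⁻¹ * (1 - b * ch x p)⁻¹ *
    (1 - c * conj (ch x p))⁻¹ * E x with hG1
  set G2 : Om → ℂ := fun x => (1 - w * ch x p)⁻¹ * (1 - b * ch x p)⁻¹ * (1 - w * ch x p)⁻¹ *
    (1 - c * conj (ch x p))⁻¹ * E x with hG2
  set G3 : Om → ℂ := fun x => (1 - w * ch x p)⁻¹ * (1 - w * ch x p)⁻¹ * (1 - c * conj (ch x p))⁻¹ *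
    (1 - w * conj (ch x p))⁻¹ * E x with hG3
  have c1 : Continuous G1 := (((ca.mul cw).mul cb).mul cc).mul cE
  have c2 : Continuous G2 := (((cw.mul cb).mul cw).mul cc).mul cE
  have c3 : Continuous G3 := (((cw.mul cw).mul cc).mul cw').mul cE
  have b1 : ∀ x, ‖G1 x - 1‖ ≤ 7775 * r := fun x =>
    P12_five hr0.le hr1 (pa x).2.1 (pw x).2.1 (pb x).2.1 (pc x).2.2.2 (hE x)
  have b2 : ∀ x, ‖G2 x - 1‖ ≤ 7775 * r := fun x =>
    P12_five hr0.le hr1 (pw x).2.1 (pb x).2.1 (pw x).2.1 (pc x).2.2.2 (hE x)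
  have b3 : ∀ x, ‖G3 x - 1‖ ≤ 7775 * r := fun x =>
    P12_five hr0.le hr1 (pw x).2.1 (pw x).2.1 (pc x).2.2.2 (pw x).2.2.2 (hE x)
  have key : ∀ x, (1 - a * ch x p)⁻¹ * (1 - b * ch x p)⁻¹ * (1 - c * conj (ch x p))⁻¹ * E x -
      (1 - w * ch x p)⁻¹ * (1 - w * ch x p)⁻¹ * (1 - w * conj (ch x p))⁻¹ * E x =
      (a - w) * (ch x p * G1 x) + (b - w) * (ch x p * G2 x) + (c - w) * (conj (ch x p) * G3 x) := by
    intro x
    have n1 := D2a_ne x p (z := a) (by linarith)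
    have n2 := D2a_ne x p (z := b) (by linarith)
    have n3 := D2a_ne' x p (z := c) (by linarith)
    have n4 := D2a_ne x p (z := w) (by linarith)
    have n5 := D2a_ne' x p (z := w) (by linarith)
    have hA : (1 - a * ch x p)⁻¹ - (1 - w * ch x p)⁻¹ =
        (a - w) * ch x p * (1 - a * ch x p)⁻¹ * (1 - w * ch x p)⁻¹ := P12_sub n1 n4
    have hB : (1 - b * ch x p)⁻¹ - (1 - w * ch x p)⁻¹ =
        (b - w) * ch x p * (1 - b * ch x p)⁻¹ * (1 - w * ch x p)⁻¹ := P12_sub n2 n4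
    have hC : (1 - c * conj (ch x p))⁻¹ - (1 - w * conj (ch x p))⁻¹ =
        (c - w) * conj (ch x p) * (1 - c * conj (ch x p))⁻¹ * (1 - w * conj (ch x p))⁻¹ := P12_sub n3 n5
    rw [hG1, hG2, hG3]
    beta_reduce
    linear_combination ((1 - b * ch x p)⁻¹ * (1 - c * conj (ch x p))⁻¹ * E x) * hA +
      ((1 - w * ch x p)⁻¹ * (1 - c * conj (ch x p))⁻¹ * E x) * hB +
      ((1 - w * ch x p)⁻¹ * (1 - w * ch x p)⁻¹ * E x) * hC
  have cX : Continuous fun x : Om => ch x p := continuous_ch p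
  have cX' : Continuous fun x : Om => conj (ch x p) := Complex.continuous_conj.comp (continuous_ch p)
  have hI : P12_I a b c p - P12_I w w w p = (a - w) * ∫ x, ch x p * G1 x ∂mu +
      (b - w) * ∫ x, ch x p * G2 x ∂mu + (c - w) * ∫ x, conj (ch x p) * G3 x ∂mu := by
    have f1 : Continuous fun x : Om => (1 - a * ch x p)⁻¹ * (1 - b * ch x p)⁻¹ * (1 - c * conj (ch x p))⁻¹ * E x :=
      ((ca.mul cb).mul cc).mul cE
    have f2 : Continuous fun x : Om => (1 - w * ch x p)⁻¹ * (1 - w * ch x p)⁻¹ * (1 - w * conj (ch x p))⁻¹ * E x :=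
      ((cw.mul cw).mul cw').mul cE
    have g1 : Continuous fun x : Om => (a - w) * (ch x p * G1 x) := continuous_const.mul (cX.mul c1)
    have g2 : Continuous fun x : Om => (b - w) * (ch x p * G2 x) := continuous_const.mul (cX.mul c2)
    have g3 : Continuous fun x : Om => (c - w) * (conj (ch x p) * G3 x) := continuous_const.mul (cX'.mul c3)
    have g12 : Continuous fun x : Om => (a - w) * (ch x p * G1 x) + (b - w) * (ch x p * G2 x) := g1.add g2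
    have j1 : P12_I a b c p = ∫ x, (1 - a * ch x p)⁻¹ * (1 - b * ch x p)⁻¹ * (1 - c * conj (ch x p))⁻¹ * E x ∂mu := rfl
    have j2 : P12_I w w w p = ∫ x, (1 - w * ch x p)⁻¹ * (1 - w * ch x p)⁻¹ * (1 - w * conj (ch x p))⁻¹ * E x ∂mu := rfl
    rw [j1, j2, ← integral_sub (integrable_of_continuous f1) (integrable_of_continuous f2),
      ← integral_const_mul, ← integral_const_mul, ← integral_const_mul,
      ← integral_add (integrable_of_continuous g1) (integrable_of_continuous g2),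
      ← integral_add (integrable_of_continuous g12) (integrable_of_continuous g3)]
    exact integral_congr_ae (ae_of_all _ key)
  rw [hI]
  have i1 := (P12_int hp c1 b1).1
  have i2 := (P12_int hp c2 b2).1
  have i3 := (P12_int hp c3 b3).2
  refine (norm_add₃_le).trans ?_
  rw [norm_mul, norm_mul, norm_mul, add_mul, add_mul]
  gcongr

theorem P12_shift {s : ℂ} {L : ℝ} (h : Adm s L) {p : ℕ} (hp : p.Prime) (hpL : (p : ℝ) ≤ Real.exp L) :
    ‖zp s p - zp 0 p‖ ≤ 2 * ‖s‖ * Real.log p * (Real.sqrt p)⁻¹ := by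
  have hp0 : (0 : ℝ) < p := by exact_mod_cast hp.pos
  obtain ⟨hL, hs⟩ := h
  have hlog0 : 0 ≤ Real.log p := Real.log_natCast_nonneg p
  have hlog : Real.log p ≤ L := by
    rw [← Real.log_exp L]
    exact Real.log_le_log hp0 hpL
  have e : zp s p - zp 0 p = zp 0 p * (Complex.exp (-(s * (Real.log p : ℝ))) - 1) := by
    rw [mul_sub, mul_one]
    congr 1
    rw [D3a_zp s hp.pos, D3a_zp 0 hp.pos, ← Complex.exp_add]
    congr 1
    ring
  have hz : ‖zp 0 p‖ = (Real.sqrt p)⁻¹ := by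
    have h1 := norm_zp_zero hp
    rw [← Real.sqrt_inv, ← h1, Real.sqrt_sq (norm_nonneg _)]
  have h1 : ‖-(s * ((Real.log p : ℝ) : ℂ))‖ = ‖s‖ * Real.log p := by
    rw [norm_neg, norm_mul, Complex.norm_real, Real.norm_eq_abs, abs_of_nonneg hlog0]
  have h2 : ‖s‖ * Real.log p ≤ 1 := by
    calc ‖s‖ * Real.log p ≤ 1 / (20 * L) * L := mul_le_mul hs hlog hlog0 (by positivity)
      _ ≤ 1 := by
        have : 1 / (20 * L) * L = 1 / 20 := by field_simp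
        rw [this]; norm_num
  have h3 := Complex.norm_exp_sub_one_le (x := -(s * ((Real.log p : ℝ) : ℂ))) (by rw [h1]; exact h2)
  rw [h1] at h3
  rw [e, norm_mul, hz, mul_comm]
  refine mul_le_mul_of_nonneg_right ?_ (by positivity)
  linarith

theorem P12_bd {s : ℂ} {L : ℝ} (h : Adm s L) {p : ℕ} (hp : p.Prime) (hpL : (p : ℝ) ≤ Real.exp L) :
    ‖zp s p‖ ≤ 11 / 10 * (Real.sqrt p)⁻¹ ∧ ‖zp s p‖ ≤ 39 / 50 := by
  have h1 := D3a_small h hp.two_le hpL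
  obtain ⟨hr0, hr1, hrr⟩ := P12_r hp
  have hp2 : (2 : ℝ) ≤ p := by exact_mod_cast hp.two_le
  have h2 : (6 : ℝ) / 5 / p = 6 / 5 * ((Real.sqrt p)⁻¹ * (Real.sqrt p)⁻¹) := by
    rw [hrr, div_eq_mul_inv]
  constructor
  · refine abs_le_of_sq_le_sq' ?_ (by positivity) |>.2
    rw [h2] at h1
    nlinarith
  · refine abs_le_of_sq_le_sq' ?_ (by norm_num) |>.2
    refine h1.trans ?_
    rw [div_le_iff₀ (by linarith)]
    nlinarith

theorem fp_close : ∃ C : ℝ, 1 ≤ C ∧ ∀ (L : ℝ) (α β γ : ℂ), 1 ≤ L → Adm α L → Adm β L → Adm γ L →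
    ∀ p ∈ prm 1 (Real.exp L),
    ‖fp α β γ p - fp 0 0 0 p‖ ≤ C * (‖α‖ + ‖β‖ + ‖γ‖) * (Real.log p / p) := by
  refine ⟨100000, by norm_num, ?_⟩
  intro L α β γ hL hα hβ hγ p hpm
  obtain ⟨hp, -, hpL⟩ := D2b_mem_prm.1 hpm
  have h0 : Adm 0 L := ⟨hL, by rw [norm_zero]; positivity⟩
  obtain ⟨hr0, hr1, hrr⟩ := P12_r hp
  have hlog0 : 0 ≤ Real.log p := Real.log_natCast_nonneg p
  obtain ⟨r, hr⟩ : ∃ r, r = (Real.sqrt p)⁻¹ := ⟨_, rfl⟩
  obtain ⟨a, ha⟩ : ∃ a, a = zp α p := ⟨_, rfl⟩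
  obtain ⟨b, hb⟩ : ∃ b, b = zp β p := ⟨_, rfl⟩
  obtain ⟨c, hc⟩ : ∃ c, c = zp γ p := ⟨_, rfl⟩
  obtain ⟨w, hw⟩ : ∃ w, w = zp 0 p := ⟨_, rfl⟩
  obtain ⟨l, hl⟩ : ∃ l, l = Real.log p := ⟨_, rfl⟩
  have ba := P12_bd hα hp hpL
  have bb := P12_bd hβ hp hpL
  have bc := P12_bd hγ hp hpL
  have bw := P12_bd h0 hp hpL
  have sa := P12_shift hα hp hpL
  have sb := P12_shift hβ hp hpL
  have sc := P12_shift hγ hp hpL
  rw [← hr] at hr0 hr1 hrr ba bb bc bw sa sb sc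
  rw [← ha] at ba sa
  rw [← hb] at bb sb
  rw [← hc] at bc sc
  rw [← hw] at bw sa sb sc
  rw [← hl] at sa sb sc hlog0
  have hd := P12_diff hp hr ba.1 ba.2 bb.1 bb.2 bc.1 bc.2 bw.1 bw.2
  have hI0 : ‖P12_I w w w p‖ ≤ 125 := by
    have := norm_integral_le_of_norm_le_const (μ := mu) (f := fun x => (1 - w * ch x p)⁻¹ * (1 - w * ch x p)⁻¹ *
      (1 - w * conj (ch x p))⁻¹ * Complex.exp (-(Complex.I * ((Xp p x : ℝ) : ℂ)))) (C := 125)
      (ae_of_all _ fun x => by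
        have h1 := P12_pt (p := p) bw.1 bw.2 x
        have h2 : ‖Complex.exp (-(Complex.I * ((Xp p x : ℝ) : ℂ)))‖ = 1 := by
          rw [Complex.norm_exp]
          simp
        rw [norm_mul, norm_mul, norm_mul, h2, mul_one]
        calc _ ≤ (50 / 11 : ℝ) * (50 / 11) * (50 / 11) := by
              gcongr
              · exact h1.1
              · exact h1.1
              · exact h1.2.2.1
          _ ≤ 125 := by norm_num)
    simpa [P12_I] using this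
  have e1 : fp α β γ p = ((1 - a * c) * (1 - b * c)) * P12_I a b c p := by
    unfold fp P12_I
    rw [ha, hb, hc]
  have e2 : fp 0 0 0 p = ((1 - w * w) * (1 - w * w)) * P12_I w w w p := by
    unfold fp P12_I
    rw [hw]
  have e3 : fp α β γ p - fp 0 0 0 p = ((1 - a * c) * (1 - b * c)) * (P12_I a b c p - P12_I w w w p) +
      ((1 - a * c) * (1 - b * c) - (1 - w * w) * (1 - w * w)) * P12_I w w w p := by
    rw [e1, e2]
    ring
  have na : ‖1 - a * c‖ ≤ 2 := by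
    refine (norm_sub_le _ _).trans ?_
    rw [norm_one, norm_mul]
    have : ‖a‖ * ‖c‖ ≤ 39 / 50 * (39 / 50) := mul_le_mul ba.2 bc.2 (norm_nonneg _) (by norm_num)
    linarith
  have nb : ‖1 - b * c‖ ≤ 2 := by
    refine (norm_sub_le _ _).trans ?_
    rw [norm_one, norm_mul]
    have : ‖b‖ * ‖c‖ ≤ 39 / 50 * (39 / 50) := mul_le_mul bb.2 bc.2 (norm_nonneg _) (by norm_num)
    linarith
  have nw : ‖1 - w * w‖ ≤ 2 := by
    refine (norm_sub_le _ _).trans ?_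
    rw [norm_one, norm_mul]
    have : ‖w‖ * ‖w‖ ≤ 39 / 50 * (39 / 50) := mul_le_mul bw.2 bw.2 (norm_nonneg _) (by norm_num)
    linarith
  -- differences of products
  have dd : ∀ z s : ℂ, ‖z‖ ≤ 11 / 10 * r → ‖z - w‖ ≤ 2 * ‖s‖ * l * r →
      ‖z * c - w * w‖ ≤ 3 * (‖s‖ + ‖γ‖) * l * (r * r) := by
    intro z s hz1 hz2
    have e : z * c - w * w = z * (c - w) + (z - w) * w := by ring
    rw [e]
    refine (norm_add_le _ _).trans ?_
    rw [norm_mul, norm_mul]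
    have i1 : ‖z‖ * ‖c - w‖ ≤ (11 / 10 * r) * (2 * ‖γ‖ * l * r) :=
      mul_le_mul hz1 sc (norm_nonneg _) (by positivity)
    have i2 : ‖z - w‖ * ‖w‖ ≤ (2 * ‖s‖ * l * r) * (11 / 10 * r) :=
      mul_le_mul hz2 bw.1 (norm_nonneg _) (by positivity)
    have i3 : 0 ≤ ‖γ‖ * l * (r * r) := by positivity
    have i4 : 0 ≤ ‖s‖ * l * (r * r) := by positivity
    nlinarith
  have d1 := dd a α ba.1 sa
  have d2 := dd b β bb.1 sb
  have nP : ‖(1 - a * c) * (1 - b * c) - (1 - w * w) * (1 - w * w)‖ ≤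
      12 * (‖α‖ + ‖β‖ + ‖γ‖) * l * (r * r) := by
    have e : (1 - a * c) * (1 - b * c) - (1 - w * w) * (1 - w * w) =
        -((a * c - w * w) * (1 - b * c)) - (1 - w * w) * (b * c - w * w) := by ring
    rw [e]
    refine (norm_sub_le _ _).trans ?_
    rw [norm_neg, norm_mul, norm_mul]
    have i1 : ‖a * c - w * w‖ * ‖1 - b * c‖ ≤ (3 * (‖α‖ + ‖γ‖) * l * (r * r)) * 2 :=
      mul_le_mul d1 nb (norm_nonneg _) (by positivity)
    have i2 : ‖1 - w * w‖ * ‖b * c - w * w‖ ≤ 2 * (3 * (‖β‖ + ‖γ‖) * l * (r * r)) :=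
      mul_le_mul nw d2 (norm_nonneg _) (by norm_num)
    have i3 : 0 ≤ ‖γ‖ * l * (r * r) := by positivity
    have i4 : 0 ≤ ‖α‖ * l * (r * r) := by positivity
    have i5 : 0 ≤ ‖β‖ * l * (r * r) := by positivity
    nlinarith
  rw [e3]
  refine (norm_add_le _ _).trans ?_
  rw [norm_mul, norm_mul, norm_mul]
  have j1 : ‖P12_I a b c p - P12_I w w w p‖ ≤ 15550 * (‖α‖ + ‖β‖ + ‖γ‖) * l * (r * r) := by
    refine hd.trans ?_
    have : ‖a - w‖ + ‖b - w‖ + ‖c - w‖ ≤ 2 * (‖α‖ + ‖β‖ + ‖γ‖) * l * r := by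
      have : 2 * (‖α‖ + ‖β‖ + ‖γ‖) * l * r = 2 * ‖α‖ * l * r + 2 * ‖β‖ * l * r + 2 * ‖γ‖ * l * r := by ring
      rw [this]
      linarith
    calc (‖a - w‖ + ‖b - w‖ + ‖c - w‖) * (7775 * r) ≤ (2 * (‖α‖ + ‖β‖ + ‖γ‖) * l * r) * (7775 * r) :=
          mul_le_mul_of_nonneg_right this (by positivity)
      _ = _ := by ring
  have hS : 0 ≤ (‖α‖ + ‖β‖ + ‖γ‖) * l * (r * r) := by positivity
  have j2 : ‖1 - a * c‖ * ‖1 - b * c‖ * ‖P12_I a b c p - P12_I w w w p‖ ≤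
      2 * 2 * (15550 * (‖α‖ + ‖β‖ + ‖γ‖) * l * (r * r)) := by
    gcongr
  have j3 : ‖(1 - a * c) * (1 - b * c) - (1 - w * w) * (1 - w * w)‖ * ‖P12_I w w w p‖ ≤
      (12 * (‖α‖ + ‖β‖ + ‖γ‖) * l * (r * r)) * 125 :=
    mul_le_mul nP hI0 (norm_nonneg _) (by positivity)
  have e4 : Real.log p / p = l * (r * r) := by
    rw [hrr, hl, div_eq_mul_inv]
  rw [e4]
  nlinarith

end Pool.Agent.LibPH45
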