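import Mathlib
import Pool.Agent.LibPH45.Defs
import Pool.Agent.LibPH45.PH_01
import Pool.Agent.LibMM99.R3

/-! Row 13.
(1-w)^(-1) = |1-w|^(-1) e^(i Xp), (1 - conj w)^(-1) = its conjugate. int_norm_rpow: |1-w|^(-k) = |exp(-(k/2) log(1-w))|^2 = |sum_a dcoef(k/2) a w^a|^2 (LibMM99/R3 R3_binom), orthogonality (c1a_ch, integral_ch); compare LibTG78/B02 for integer exponent. fp_zero: k = 3; Gsum >= 1 (LibZM.Gsum_ge, t12_one_le_Gsum), (1-1/p)^2 >= 1/4.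
-/

set_option autoImplicit false

namespace Pool.Agent.LibPH45

open MeasureTheory Filter Topology Pool.Agent.LibMM99 Pool.Agent.LibTG78
open scoped ComplexConjugate

theorem P13_zp_zero {p : ℕ} : zp 0 p = (((Real.sqrt p)⁻¹ : ℝ) : ℂ) := by
  unfold zp
  have h0 : (0 : ℝ) ≤ p := Nat.cast_nonneg p
  have h1 : -(1 / 2 : ℂ) - 0 = ((-(1 / 2) : ℝ) : ℂ) := by push_cast; ring
  rw [h1, ← Complex.ofReal_natCast, ← Complex.ofReal_cpow h0, Real.rpow_neg h0, Real.sqrt_eq_rpow]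

theorem P13_ne {p : ℕ} (hp : p.Prime) (x : Om) : 1 - wp p x ≠ 0 := by
  intro h
  have h1 : wp p x = 1 := by linear_combination -h
  have h2 := (norm_wp hp x).2
  rw [h1, norm_one] at h2
  norm_num at h2

theorem P13_norm {p : ℕ} (hp : p.Prime) (x : Om) :
    ‖(1 - wp p x)⁻¹‖ = Real.exp (-(Complex.log (1 - wp p x)).re) := by
  rw [norm_inv, Complex.log_re, Real.exp_neg, Real.exp_log (norm_pos_iff.2 (P13_ne hp x))]

theorem P13_one {p : ℕ} (hp : p.Prime) (x : Om) :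
    (1 - wp p x)⁻¹ * Complex.exp (-(Complex.I * ((Xp p x : ℝ) : ℂ))) =
      ((‖(1 - wp p x)⁻¹‖ : ℝ) : ℂ) := by
  rw [P13_norm hp x]
  have h1 : (1 - wp p x)⁻¹ = Complex.exp (-Complex.log (1 - wp p x)) := by
    rw [Complex.exp_neg, Complex.exp_log (P13_ne hp x)]
  conv_lhs => rw [h1]
  rw [← Complex.exp_add, Complex.ofReal_exp]
  congr 1
  unfold Xp
  push_cast
  linear_combination (Complex.re_add_im (Complex.log (1 - wp p x)))

theorem norm_three {p : ℕ} (hp : p.Prime) (x : Om) :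
    (1 - wp p x)⁻¹ * (1 - wp p x)⁻¹ * (1 - conj (wp p x))⁻¹ *
      Complex.exp (-(Complex.I * ((Xp p x : ℝ) : ℂ))) = ((‖(1 - wp p x)⁻¹‖ ^ 3 : ℝ) : ℂ) := by
  have h1 := P13_one hp x
  have h2 : (1 - wp p x)⁻¹ * (1 - conj (wp p x))⁻¹ = ((‖(1 - wp p x)⁻¹‖ ^ 2 : ℝ) : ℂ) := by
    have h3 : (1 - conj (wp p x))⁻¹ = conj ((1 - wp p x)⁻¹) := by
      rw [map_inv₀, map_sub, map_one]
    rw [h3, Complex.mul_conj, Complex.normSq_eq_norm_sq]
  calc _ = ((1 - wp p x)⁻¹ * (1 - conj (wp p x))⁻¹) *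
        ((1 - wp p x)⁻¹ * Complex.exp (-(Complex.I * ((Xp p x : ℝ) : ℂ)))) := by ring
    _ = _ := by rw [h1, h2]; push_cast; ring

theorem norm_one' {p : ℕ} (hp : p.Prime) (x : Om) :
    (1 - wp p x)⁻¹ * Complex.exp (-(Complex.I * ((Xp p x : ℝ) : ℂ))) = ((‖(1 - wp p x)⁻¹‖ : ℝ) : ℂ) :=
  P13_one hp x

theorem P13_partial (κ : ℝ) (N : ℕ) (z : ℂ) {p : ℕ} (hp : p.Prime) :
    ∫ x, ‖∑ a ∈ Finset.range N, ((LibZM.dcoef κ a : ℝ) : ℂ) * (z * ch x p) ^ a‖ ^ 2 ∂mu =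
      ∑ a ∈ Finset.range N, LibZM.dcoef κ a ^ 2 * (‖z‖ ^ 2) ^ a := by
  have h := integral_norm_sq' (Finset.range N) (fun a => p ^ a)
    (fun a => ((LibZM.dcoef κ a : ℝ) : ℂ) * z ^ a * ((Real.sqrt ((p ^ a : ℕ) : ℝ) : ℝ) : ℂ))
    (fun a _ => Nat.one_le_iff_ne_zero.2 (pow_ne_zero a hp.ne_zero))
    (fun a _ b _ hab => Nat.pow_right_injective hp.two_le hab)
  have hpos : ∀ a : ℕ, (0 : ℝ) < ((p ^ a : ℕ) : ℝ) := fun a => by
    exact_mod_cast pow_pos hp.pos a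
  have hs : ∀ a : ℕ, Real.sqrt ((p ^ a : ℕ) : ℝ) ≠ 0 := fun a => (Real.sqrt_pos.2 (hpos a)).ne'
  have e1 : ∀ x : Om, ∑ a ∈ Finset.range N, ((LibZM.dcoef κ a : ℝ) : ℂ) * (z * ch x p) ^ a =
      ∑ i ∈ Finset.range N, (((LibZM.dcoef κ i : ℝ) : ℂ) * z ^ i *
        ((Real.sqrt ((p ^ i : ℕ) : ℝ) : ℝ) : ℂ)) * (((Real.sqrt ((p ^ i : ℕ) : ℝ))⁻¹ : ℝ) : ℂ) *
        ch x (p ^ i) := by
    intro x
    apply Finset.sum_congr rfl
    intro i _
    have h1 : ((Real.sqrt ((p ^ i : ℕ) : ℝ) : ℝ) : ℂ) * (((Real.sqrt ((p ^ i : ℕ) : ℝ))⁻¹ : ℝ) : ℂ) = 1 := by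
      rw [← Complex.ofReal_mul, mul_inv_cancel₀ (hs i), Complex.ofReal_one]
    rw [B02_ch_pow x hp.ne_zero, mul_pow]
    linear_combination (-(((LibZM.dcoef κ i : ℝ) : ℂ) * z ^ i * ch x p ^ i)) * h1
  simp_rw [e1]
  rw [h]
  apply Finset.sum_congr rfl
  intro i _
  rw [norm_mul, norm_mul, Complex.norm_real, Complex.norm_real, mul_pow, mul_pow, Real.norm_eq_abs,
    Real.norm_eq_abs, sq_abs, sq_abs, Real.sq_sqrt (hpos i).le, norm_pow, mul_div_assoc,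
    div_self (hpos i).ne', mul_one, ← pow_mul, ← pow_mul, mul_comm i 2]

theorem int_norm_rpow {k : ℝ} (hk : 0 < k) {p : ℕ} (hp : p.Prime) :
    ∫ x, ‖(1 - wp p x)⁻¹‖ ^ k ∂mu = LibZM.Gsum (k / 2) ((p : ℝ)⁻¹) := by
  set κ : ℝ := k / 2 with hκd
  have hκ : (0 : ℝ) ≤ κ := by positivity
  have hz2 : ‖zp 0 p‖ ^ 2 = (p : ℝ)⁻¹ := norm_zp_zero hp
  have hp2 : (2 : ℝ) ≤ p := by exact_mod_cast hp.two_le
  have hpinv : (p : ℝ)⁻¹ < 1 := inv_lt_one_of_one_lt₀ (by linarith)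
  have hz : ‖zp 0 p‖ < 1 := by
    have h0 := norm_nonneg (zp 0 p)
    nlinarith
  have hw : ∀ x : Om, ‖zp 0 p * ch x p‖ = ‖zp 0 p‖ := fun x => by rw [norm_mul, norm_ch, mul_one]
  have hsum : Summable fun a : ℕ => LibZM.dcoef κ a * ‖zp 0 p‖ ^ a :=
    summable_of_sum_range_le (fun a => mul_nonneg (LibZM.dcoef_nonneg hκ a) (by positivity))
      (fun N => LibZM.partial_binomial_le' hκ N (norm_nonneg _) hz)
  have hlim : Tendsto (fun N : ℕ => ∫ x, ‖∑ a ∈ Finset.range N,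
      ((LibZM.dcoef κ a : ℝ) : ℂ) * (zp 0 p * ch x p) ^ a‖ ^ 2 ∂mu) atTop
      (𝓝 (∫ x, ‖Complex.exp (-(κ : ℂ) * Complex.log (1 - wp p x))‖ ^ 2 ∂mu)) := by
    apply tendsto_integral_of_dominated_convergence
      (fun _ => (∑' a : ℕ, LibZM.dcoef κ a * ‖zp 0 p‖ ^ a) ^ 2)
    · intro N
      apply Continuous.aestronglyMeasurable
      exact (continuous_finsetSum _ fun a _ => continuous_const.mul
        ((continuous_const.mul (continuous_ch p)).pow a)).norm.pow 2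
    · exact integrable_const _
    · intro N
      apply Filter.Eventually.of_forall
      intro x
      rw [Real.norm_of_nonneg (by positivity)]
      apply pow_le_pow_left₀ (norm_nonneg _)
      calc ‖∑ a ∈ Finset.range N, ((LibZM.dcoef κ a : ℝ) : ℂ) * (zp 0 p * ch x p) ^ a‖
          ≤ ∑ a ∈ Finset.range N, ‖((LibZM.dcoef κ a : ℝ) : ℂ) * (zp 0 p * ch x p) ^ a‖ :=
            norm_sum_le _ _
        _ = ∑ a ∈ Finset.range N, LibZM.dcoef κ a * ‖zp 0 p‖ ^ a := by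
            apply Finset.sum_congr rfl
            intro a _
            rw [norm_mul, Complex.norm_real, Real.norm_of_nonneg (LibZM.dcoef_nonneg hκ a), norm_pow,
              hw]
        _ ≤ _ := hsum.sum_le_tsum _ (fun a _ => mul_nonneg (LibZM.dcoef_nonneg hκ a) (by positivity))
    · apply Filter.Eventually.of_forall
      intro x
      have h1 := (R3_binom κ (w := wp p x)
        (by unfold wp; rw [hw x]; exact hz)).tendsto_sum_nat
      exact (h1.norm).pow 2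
  have hlim2 : Tendsto (fun N : ℕ => ∫ x, ‖∑ a ∈ Finset.range N,
      ((LibZM.dcoef κ a : ℝ) : ℂ) * (zp 0 p * ch x p) ^ a‖ ^ 2 ∂mu) atTop
      (𝓝 (LibZM.Gsum κ ((p : ℝ)⁻¹))) := by
    simp_rw [P13_partial κ _ (zp 0 p) hp, hz2]
    exact (LibZM.summable_G hκ (z := (p : ℝ)⁻¹) (by positivity) hpinv).hasSum.tendsto_sum_nat
  have h := tendsto_nhds_unique hlim hlim2
  rw [← h]
  congr 1
  funext x
  have e1 : ‖Complex.exp (-(κ : ℂ) * Complex.log (1 - wp p x))‖ =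
      Real.exp (-κ * (Complex.log (1 - wp p x)).re) := by
    rw [Complex.norm_exp]
    congr 1
    have : (-(κ : ℂ) * Complex.log (1 - wp p x)) = (((-κ : ℝ)) : ℂ) * Complex.log (1 - wp p x) := by
      push_cast; ring
    rw [this, Complex.re_ofReal_mul]
  rw [e1, P13_norm hp x, ← Real.exp_mul, ← Real.exp_nat_mul]
  congr 1
  rw [hκd]
  push_cast
  ring

theorem fp_zero {p : ℕ} (hp : p.Prime) :
    fp 0 0 0 p = (((1 - (p : ℝ)⁻¹) ^ 2 * LibZM.Gsum (3 / 2) ((p : ℝ)⁻¹) : ℝ) : ℂ) ∧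
      1 / 4 ≤ (1 - (p : ℝ)⁻¹) ^ 2 * LibZM.Gsum (3 / 2) ((p : ℝ)⁻¹) := by
  have hp2 : (2 : ℝ) ≤ p := by exact_mod_cast hp.two_le
  have hpinv : (p : ℝ)⁻¹ ≤ 1 / 2 := by
    rw [inv_le_comm₀ (by linarith) (by norm_num)]
    linarith
  constructor
  · unfold fp
    have hzz : zp 0 p * zp 0 p = (((p : ℝ)⁻¹ : ℝ) : ℂ) := by
      rw [P13_zp_zero, ← Complex.ofReal_mul, ← mul_inv, Real.mul_self_sqrt (by positivity)]
    have hint : ∫ x, (1 - zp 0 p * ch x p)⁻¹ * (1 - zp 0 p * ch x p)⁻¹ *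
        (1 - zp 0 p * conj (ch x p))⁻¹ * Complex.exp (-(Complex.I * ((Xp p x : ℝ) : ℂ))) ∂mu =
        ((LibZM.Gsum (3 / 2) ((p : ℝ)⁻¹) : ℝ) : ℂ) := by
      have e : ∀ x : Om, (1 - zp 0 p * ch x p)⁻¹ * (1 - zp 0 p * ch x p)⁻¹ *
          (1 - zp 0 p * conj (ch x p))⁻¹ * Complex.exp (-(Complex.I * ((Xp p x : ℝ) : ℂ))) =
          ((‖(1 - wp p x)⁻¹‖ ^ (3 : ℝ) : ℝ) : ℂ) := by
        intro x
        have h1 := norm_three hp x
        have h2 : conj (wp p x) = zp 0 p * conj (ch x p) := by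
          unfold wp
          rw [map_mul, P13_zp_zero, Complex.conj_ofReal]
        rw [h2] at h1
        have h3 : ‖(1 - wp p x)⁻¹‖ ^ (3 : ℝ) = ‖(1 - wp p x)⁻¹‖ ^ 3 := by
          rw [← Real.rpow_natCast]
          norm_num
        rw [h3, ← h1]
        rfl
      simp_rw [e]
      rw [integral_complex_ofReal, int_norm_rpow (by norm_num) hp]
    rw [hint, hzz]
    push_cast
    ring
  · have h1 : 1 ≤ LibZM.Gsum (3 / 2) ((p : ℝ)⁻¹) := by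
      have := LibMM99.t12_one_le_Gsum (k := 3) (by norm_num) hp
      exact this
    have h2 : (1 : ℝ) / 4 ≤ (1 - (p : ℝ)⁻¹) ^ 2 := by nlinarith
    nlinarith

end Pool.Agent.LibPH45
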