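import Mathlib
import Pool.Agent.LibPH45.Defs

/-! Row 14.
Induction on S: |a1 a2 - b1 b2| with |a_p| <= b_p (1 + 4 e_p) <= b_p exp(4 e_p).
-/

set_option autoImplicit false

namespace Pool.Agent.LibPH45

open MeasureTheory Filter Topology Pool.Agent.LibMM99 Pool.Agent.LibTG78
open scoped ComplexConjugate

theorem prod_close (S : Finset ℕ) (a : ℕ → ℂ) (b e : ℕ → ℝ) (hb : ∀ p ∈ S, 1 / 4 ≤ b p)
    (he : ∀ p ∈ S, ‖a p - b p‖ ≤ e p) :
    ‖∏ p ∈ S, a p - ((∏ p ∈ S, b p : ℝ) : ℂ)‖ ≤ (∏ p ∈ S, b p) * (Real.exp (4 * ∑ p ∈ S, e p) - 1) := by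
  classical
  induction S using Finset.induction_on with
  | empty => simp
  | insert p S hp ih =>
    have hb' : ∀ q ∈ S, 1 / 4 ≤ b q := fun q hq => hb q (Finset.mem_insert_of_mem hq)
    have he' : ∀ q ∈ S, ‖a q - b q‖ ≤ e q := fun q hq => he q (Finset.mem_insert_of_mem hq)
    have ih' := ih hb' he'
    have hbp : 1 / 4 ≤ b p := hb p (Finset.mem_insert_self _ _)
    have hep : ‖a p - b p‖ ≤ e p := he p (Finset.mem_insert_self _ _)
    have hB : 0 ≤ ∏ q ∈ S, b q := Finset.prod_nonneg fun q hq => by linarith [hb' q hq]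
    have he0 : 0 ≤ e p := le_trans (norm_nonneg _) hep
    rw [Finset.prod_insert hp, Finset.prod_insert hp, Finset.sum_insert hp]
    set A := ∏ q ∈ S, a q with hA
    set B := ∏ q ∈ S, b q with hBdef
    set E := ∑ q ∈ S, e q with hE
    have h1 : a p * A - ((b p * B : ℝ) : ℂ) = a p * (A - (B : ℂ)) + (a p - b p) * (B : ℂ) := by
      push_cast; ring
    have hexp : 1 + 4 * e p ≤ Real.exp (4 * e p) := by
      have := Real.add_one_le_exp (4 * e p); linarith
    have hap : ‖a p‖ ≤ b p * Real.exp (4 * e p) := by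
      have h2 : ‖a p‖ ≤ ‖a p - b p‖ + ‖(b p : ℂ)‖ := by
        have := norm_add_le (a p - b p) (b p : ℂ)
        rwa [sub_add_cancel] at this
      have h3 : ‖(b p : ℂ)‖ = b p := by
        rw [Complex.norm_real, Real.norm_eq_abs, abs_of_nonneg (by linarith)]
      have h4 : e p ≤ b p * (4 * e p) := by nlinarith
      have h5 : b p * (1 + 4 * e p) ≤ b p * Real.exp (4 * e p) :=
        mul_le_mul_of_nonneg_left hexp (by linarith)
      rw [h3] at h2
      nlinarith
    have hE1 : 0 ≤ Real.exp (4 * E) - 1 := by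
      have hE0 : 0 ≤ E := Finset.sum_nonneg fun q hq => le_trans (norm_nonneg _) (he' q hq)
      have := Real.add_one_le_exp (4 * E)
      linarith
    have hn1 : ‖a p * (A - (B : ℂ))‖ ≤ b p * Real.exp (4 * e p) * (B * (Real.exp (4 * E) - 1)) := by
      rw [norm_mul]
      exact mul_le_mul hap ih' (norm_nonneg _) (by positivity)
    have hn2 : ‖(a p - b p) * (B : ℂ)‖ ≤ e p * B := by
      rw [norm_mul, Complex.norm_real, Real.norm_eq_abs, abs_of_nonneg hB]
      exact mul_le_mul_of_nonneg_right hep hB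
    rw [h1]
    refine le_trans (norm_add_le _ _) (le_trans (add_le_add hn1 hn2) ?_)
    rw [mul_add, Real.exp_add]
    have h6 : e p * B ≤ b p * B * (4 * e p) := by
      have : 0 ≤ e p * B * (4 * b p - 1) := mul_nonneg (mul_nonneg he0 hB) (by linarith)
      nlinarith
    have h7 : b p * B * (1 + 4 * e p) ≤ b p * B * Real.exp (4 * e p) :=
      mul_le_mul_of_nonneg_left hexp (mul_nonneg (by linarith) hB)
    nlinarith

end Pool.Agent.LibPH45
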