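import Mathlib
import Pool.Agent.LibPH45.Defs
import Pool.Agent.LibPH45.PH_11
import Pool.Agent.LibPH45.PH_12
import Pool.Agent.LibPH45.PH_13
import Pool.Agent.LibPH45.PH_14

/-! Row 15. -/

set_option autoImplicit false

namespace Pool.Agent.LibPH45

open MeasureTheory Filter Topology Pool.Agent.LibMM99 Pool.Agent.LibTG78
open scoped ComplexConjugate

theorem P15_main (y : ℝ) : PS 3 1 y * nz 0 1 y ^ 2 =
    ∏ p ∈ prm 1 y, ((1 - (p : ℝ)⁻¹) ^ 2 * LibZM.Gsum (3 / 2) ((p : ℝ)⁻¹)) := by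
  unfold PS nz
  rw [← Finset.prod_pow, ← Finset.prod_mul_distrib]
  refine Finset.prod_congr rfl fun p hp => ?_
  rw [norm_zp_zero (D2b_mem_prm.1 hp).1, mul_comm]

theorem JPu_close : ∃ C : ℝ, 1 ≤ C ∧ ∀ (L : ℝ) (α β γ : ℂ), 1 ≤ L → Adm α L → Adm β L → Adm γ L →
    ‖JP α β γ (Real.exp L) (fun x => conj (uu (Real.exp L) x)) -
      ((PS 3 1 (Real.exp L) * nz 0 1 (Real.exp L) ^ 2 : ℝ) : ℂ)‖ ≤
      PS 3 1 (Real.exp L) * nz 0 1 (Real.exp L) ^ 2 * (Real.exp (C * (‖α‖ + ‖β‖ + ‖γ‖) * L) - 1) := by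
  obtain ⟨C, hC, H⟩ := fp_close
  obtain ⟨C0, hC0, H0⟩ := sum_log_prime_le
  refine ⟨4 * C * (1 + C0), by nlinarith, ?_⟩
  intro L α β γ hL hα hβ hγ
  rw [JP_prod hα hβ hγ, P15_main]
  set b : ℕ → ℝ := fun p => (1 - (p : ℝ)⁻¹) ^ 2 * LibZM.Gsum (3 / 2) ((p : ℝ)⁻¹) with hb
  set e : ℕ → ℝ := fun p => C * (‖α‖ + ‖β‖ + ‖γ‖) * (Real.log p / p) with he
  have hb4 : ∀ p ∈ prm 1 (Real.exp L), 1 / 4 ≤ b p := fun p hp => (fp_zero (D2b_mem_prm.1 hp).1).2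
  have hee : ∀ p ∈ prm 1 (Real.exp L), ‖fp α β γ p - b p‖ ≤ e p := by
    intro p hp
    have h1 := H L α β γ hL hα hβ hγ p hp
    rw [(fp_zero (D2b_mem_prm.1 hp).1).1] at h1
    exact h1
  have h2 := prod_close (prm 1 (Real.exp L)) (fun p => fp α β γ p) b e hb4 hee
  refine h2.trans ?_
  have hP : 0 ≤ ∏ p ∈ prm 1 (Real.exp L), b p :=
    Finset.prod_nonneg fun p hp => le_trans (by norm_num) (hb4 p hp)
  refine mul_le_mul_of_nonneg_left ?_ hP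
  refine sub_le_sub_right (Real.exp_le_exp.2 ?_) 1
  have hS : 0 ≤ C * (‖α‖ + ‖β‖ + ‖γ‖) := by positivity
  have h3 : ∑ p ∈ prm 1 (Real.exp L), e p = C * (‖α‖ + ‖β‖ + ‖γ‖) * ∑ p ∈ prm 1 (Real.exp L), Real.log p / p := by
    rw [he, Finset.mul_sum]
  have h4 : ∑ p ∈ prm 1 (Real.exp L), Real.log p / p ≤ (1 + C0) * L := by
    have := H0 (Real.exp L) (by have := Real.add_one_le_exp L; linarith)
    rw [Real.log_exp] at this
    nlinarith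
  rw [h3]
  have h5 := mul_le_mul_of_nonneg_left h4 hS
  nlinarith

end Pool.Agent.LibPH45
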