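import Mathlib
import Pool.Agent.LibPH45.Defs

/-! Row 16.
LibMM99/K7 PS_limit (k = 3, k = 1: exponents 9/4, 1/4), LibTG78/C3 nz_limit, composed with Real.exp (log exp = id); 9/4 - 2 = 1/4; e^(gamma 9/4) e^(-2 gamma) = (e^gamma)^(1/4).
-/

set_option autoImplicit false

namespace Pool.Agent.LibPH45

open MeasureTheory Filter Topology Pool.Agent.LibMM99 Pool.Agent.LibTG78
open scoped ComplexConjugate

theorem main_limit : Tendsto (fun L : ℝ => PS 3 1 (Real.exp L) * nz 0 1 (Real.exp L) ^ 2 / L ^ (1 / 4 : ℝ)) atTop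
      (𝓝 (LibZM.Aconst (3 / 2) * Real.exp Real.eulerMascheroniConstant ^ (1 / 4 : ℝ))) ∧
    Tendsto (fun L : ℝ => PS 1 1 (Real.exp L) / L ^ (1 / 4 : ℝ)) atTop
      (𝓝 (LibZM.Aconst (1 / 2) * Real.exp Real.eulerMascheroniConstant ^ (1 / 4 : ℝ))) := by
  constructor
  · have h1 := (PS_limit (k := 3) (by norm_num)).comp Real.tendsto_exp_atTop
    have h2 := nz_limit.comp Real.tendsto_exp_atTop
    have h3 := h1.mul (h2.pow 2)
    have hval : Real.exp (Real.eulerMascheroniConstant * ((3 : ℝ) ^ 2 / 4)) * LibZM.Aconst (3 / 2) *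
        Real.exp (-Real.eulerMascheroniConstant) ^ 2 =
        LibZM.Aconst (3 / 2) * Real.exp Real.eulerMascheroniConstant ^ (1 / 4 : ℝ) := by
      rw [← Real.exp_mul, ← Real.exp_nat_mul, mul_comm (Real.exp _) (LibZM.Aconst _), mul_assoc,
        ← Real.exp_add]
      congr 2
      push_cast
      ring
    rw [hval] at h3
    refine h3.congr' ?_
    filter_upwards [eventually_gt_atTop 0] with L hL
    have e1 : L ^ ((3 : ℝ) ^ 2 / 4) = L ^ (1 / 4 : ℝ) * L ^ 2 := by
      rw [← Real.rpow_natCast L 2, ← Real.rpow_add hL]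
      congr 1
      norm_num
    have hp : L ^ (1 / 4 : ℝ) ≠ 0 := (Real.rpow_pos_of_pos hL _).ne'
    have hL' : L ≠ 0 := hL.ne'
    simp only [Function.comp, Real.log_exp]
    rw [e1]
    field_simp
  · have h1 := (PS_limit (k := 1) (by norm_num)).comp Real.tendsto_exp_atTop
    have hval : Real.exp (Real.eulerMascheroniConstant * ((1 : ℝ) ^ 2 / 4)) * LibZM.Aconst (1 / 2) =
        LibZM.Aconst (1 / 2) * Real.exp Real.eulerMascheroniConstant ^ (1 / 4 : ℝ) := by
      rw [← Real.exp_mul, mul_comm]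
      congr 2
      ring
    rw [hval] at h1
    refine h1.congr' ?_
    filter_upwards with L
    simp only [Function.comp, Real.log_exp]
    congr 2
    norm_num

end Pool.Agent.LibPH45
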