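import Mathlib
import Pool.Agent.LibPH45.Defs
import Pool.Agent.LibPH45.PH_01
import Pool.Agent.LibPH45.PH_04
import Pool.Agent.LibPH45.PH_05
import Pool.Agent.LibPH45.PH_09
import Pool.Agent.LibPH45.PH_13

/-! Row 17.
one_main: product formula (D2b_prod_int), norm_one_ and int_norm_rpow with k = 1. one_err: phase_pointwise and one_R.
-/

set_option autoImplicit false

namespace Pool.Agent.LibPH45

open MeasureTheory Filter Topology Pool.Agent.LibMM99 Pool.Agent.LibTG78
open scoped ComplexConjugate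

theorem P17_wp_cont (p : ℕ) : Continuous (wp p) := by
  unfold wp
  exact continuous_const.mul (continuous_ch p)

theorem P17_wp_dep {p : ℕ} (hp : p.Prime) : DependsOn (wp p) ({p} : Set ℕ) := by
  intro x y hxy
  unfold wp
  have h := dependsOn_ch p (x := x) (y := y) (fun q hq => hxy q (by
    simpa [hp.primeFactors] using hq))
  simp only at h
  rw [h]

theorem P17_one_sub_ne {p : ℕ} (hp : p.Prime) (x : Om) : (1 - wp p x) ≠ 0 := by
  intro h
  have h1 := (norm_wp hp x).2
  rw [sub_eq_zero] at h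
  rw [← h, norm_one] at h1
  norm_num at h1

theorem P17_inv_cont {p : ℕ} (hp : p.Prime) : Continuous fun x : Om => (1 - wp p x)⁻¹ :=
  (continuous_const.sub (P17_wp_cont p)).inv₀ (P17_one_sub_ne hp)

theorem P17_AY_cont (y Y : ℝ) : Continuous (AY y Y) := by
  unfold AY
  refine continuous_finsetSum _ fun p _ => ?_
  unfold La
  refine continuous_finsetSum _ fun j _ => ?_
  exact ((P17_wp_cont p).pow j).div_const _

theorem P17_PhN_cont (N : ℕ) (y Y : ℝ) : Continuous (PhN N y Y) := by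
  unfold PhN
  refine continuous_finsetSum _ fun n _ => ?_
  refine Continuous.div_const ?_ _
  refine Continuous.pow ?_ n
  exact (continuous_const.mul (Complex.continuous_ofReal.comp
    (Complex.continuous_im.comp (P17_AY_cont y Y)))).neg

theorem P17_RN_cont (N : ℕ) (y Y : ℝ) : Continuous (RN N y Y) := by
  unfold RN
  exact ((P17_AY_cont y Y).norm.pow N).div_const _

theorem P17_adm {L : ℝ} (hL : 1 ≤ L) : Adm 0 L := ⟨hL, by rw [norm_zero]; positivity⟩

theorem one_main {L : ℝ} (hL : 1 ≤ L) :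
    ∫ x, ZZ 0 1 (Real.exp L) x * conj (uu (Real.exp L) x) ∂mu = ((PS 1 1 (Real.exp L) : ℝ) : ℂ) := by
  have h1 : ∀ x, ZZ 0 1 (Real.exp L) x * conj (uu (Real.exp L) x) =
      ∏ p ∈ prm 1 (Real.exp L), ((‖(1 - wp p x)⁻¹‖ : ℝ) : ℂ) := by
    intro x
    rw [conj_uu]
    have h2 : Complex.exp (-(Complex.I * ((XX (Real.exp L) x : ℝ) : ℂ))) =
        ∏ p ∈ prm 1 (Real.exp L), Complex.exp (-(Complex.I * ((Xp p x : ℝ) : ℂ))) := by
      rw [← Complex.exp_sum]
      congr 1
      unfold XX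
      push_cast
      rw [Finset.sum_neg_distrib, Finset.mul_sum]
    rw [h2]
    unfold ZZ
    rw [← Finset.prod_mul_distrib]
    refine Finset.prod_congr rfl fun p hp => ?_
    exact norm_one' (D2b_mem_prm.1 hp).1 x
  simp_rw [h1]
  rw [D2b_prod_int _ (fun p x => ((‖(1 - wp p x)⁻¹‖ : ℝ) : ℂ))]
  · unfold PS
    push_cast
    refine Finset.prod_congr rfl fun p hp => ?_
    rw [integral_complex_ofReal]
    have h3 := int_norm_rpow (k := 1) one_pos (D2b_mem_prm.1 hp).1
    simp only [Real.rpow_one] at h3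
    rw [h3]
  · intro p hp
    exact Complex.continuous_ofReal.comp (P17_inv_cont (D2b_mem_prm.1 hp).1).norm
  · intro p hp x y hxy
    have h3 := P17_wp_dep (D2b_mem_prm.1 hp).1 hxy
    simp only [h3]

theorem one_err : ∃ C : ℝ, 1 ≤ C ∧ ∀ (L : ℝ), 1 ≤ L → ∀ (Y : ℝ) (N : ℕ), Real.exp L ≤ Y →
    ‖(∫ x, ZZ 0 1 (Real.exp L) x * PhN N (Real.exp L) Y x ∂mu) - ((PS 1 1 (Real.exp L) : ℝ) : ℂ)‖ ≤
      C * L ^ C * (4 * Real.exp L / Real.sqrt Y + (1 / 8) ^ N) := by
  obtain ⟨C, hC, h⟩ := one_R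
  refine ⟨C, hC, fun L hL Y N hY => ?_⟩
  obtain ⟨h1, h2⟩ := h L hL Y N hY
  have hy : 1 ≤ Real.exp L := Real.one_le_exp (by linarith)
  have cZ : Continuous (ZZ 0 1 (Real.exp L)) := D2b_cont_ZZ (P17_adm hL) _ _
  have cP := P17_PhN_cont N (Real.exp L) Y
  have cR := P17_RN_cont N (Real.exp L) Y
  have cU := (uu_cont (Real.exp L)).1
  have cU' : Continuous fun x => conj (uu (Real.exp L) x) := Complex.continuous_conj.comp cU
  have i1 : Integrable (fun x => ZZ 0 1 (Real.exp L) x * PhN N (Real.exp L) Y x) mu :=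
    integrable_of_continuous (cZ.mul cP)
  have i2 : Integrable (fun x => ZZ 0 1 (Real.exp L) x * conj (uu (Real.exp L) x)) mu :=
    integrable_of_continuous (cZ.mul cU')
  rw [← one_main hL, ← integral_sub i1 i2]
  set K : ℝ := 4 * Real.exp L / Real.sqrt Y with hK
  have hK0 : 0 ≤ K := by positivity
  calc ‖∫ x, (ZZ 0 1 (Real.exp L) x * PhN N (Real.exp L) Y x -
        ZZ 0 1 (Real.exp L) x * conj (uu (Real.exp L) x)) ∂mu‖
      ≤ ∫ x, ‖ZZ 0 1 (Real.exp L) x * PhN N (Real.exp L) Y x -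
        ZZ 0 1 (Real.exp L) x * conj (uu (Real.exp L) x)‖ ∂mu := norm_integral_le_integral_norm _
    _ ≤ ∫ x, (K * ‖ZZ 0 1 (Real.exp L) x‖ + ‖ZZ 0 1 (Real.exp L) x‖ * RN N (Real.exp L) Y x) ∂mu := by
        refine integral_mono (integrable_of_continuous ((cZ.mul cP).sub (cZ.mul cU')).norm)
          (integrable_of_continuous ((continuous_const.mul cZ.norm).add (cZ.norm.mul cR))) ?_
        intro x
        have h3 := phase_pointwise hy (hy.trans hY) N x
        rw [← hK] at h3
        have h4 : ZZ 0 1 (Real.exp L) x * PhN N (Real.exp L) Y x -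
            ZZ 0 1 (Real.exp L) x * conj (uu (Real.exp L) x) =
            -(ZZ 0 1 (Real.exp L) x * (conj (uu (Real.exp L) x) - PhN N (Real.exp L) Y x)) := by
          ring
        simp only
        rw [h4, norm_neg, norm_mul]
        have h5 := mul_le_mul_of_nonneg_left h3 (norm_nonneg (ZZ 0 1 (Real.exp L) x))
        linarith
    _ = K * (∫ x, ‖ZZ 0 1 (Real.exp L) x‖ ∂mu) +
        ∫ x, ‖ZZ 0 1 (Real.exp L) x‖ * RN N (Real.exp L) Y x ∂mu := by
        have i3 : Integrable (fun x => K * ‖ZZ 0 1 (Real.exp L) x‖) mu :=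
          integrable_of_continuous (continuous_const.mul cZ.norm)
        have i4 : Integrable (fun x => ‖ZZ 0 1 (Real.exp L) x‖ * RN N (Real.exp L) Y x) mu :=
          integrable_of_continuous (cZ.norm.mul cR)
        rw [integral_add i3 i4, integral_const_mul]
    _ ≤ K * (C * L ^ C) + (1 / 8) ^ N * (C * L ^ C) :=
        add_le_add (mul_le_mul_of_nonneg_left h1 hK0) h2
    _ = C * L ^ C * (K + (1 / 8) ^ N) := by ring

end Pool.Agent.LibPH45
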