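import Mathlib
import Pool.Agent.LibPH45.Defs
import Pool.Agent.LibPH45.PH_01
import Pool.Agent.LibPH45.PH_04
import Pool.Agent.LibPH45.PH_05
import Pool.Agent.LibPH45.PH_09
import Pool.Agent.LibTG78.D6a

/-! Row 18. -/

set_option autoImplicit false

namespace Pool.Agent.LibPH45

open MeasureTheory Filter Topology Pool.Agent.LibMM99 Pool.Agent.LibTG78
open scoped ComplexConjugate

theorem second_err : ∃ C δ T0 : ℝ, 1 ≤ C ∧ 0 < δ ∧ 1 ≤ T0 ∧ ∀ (L Y T : ℝ) (N : ℕ), 2 ≤ L → T0 ≤ T → L ≤ Real.log T →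
    Real.exp L ^ 2 ≤ Y → 2 * N * Real.log Y ≤ δ * Real.log T →
    (1 / T) * (∫ t in (0 : ℝ)..T, ‖riemannZeta (1 / 2 + t * Complex.I)‖ ^ 2 *
      ‖conj (uu (Real.exp L) (xt t)) - PhN N (Real.exp L) Y (xt t)‖ ^ 2) ≤
      C * Real.log T ^ C * ((4 * Real.exp L / Real.sqrt Y) ^ 2 + (1 / 64) ^ N + T ^ (-δ)) := by
  obtain ⟨C1, hC1, h1⟩ := nu_R
  obtain ⟨C2, δ, T0, hC2, hδ, hT0, h2⟩ := D5_poly
  obtain ⟨C3, hC3, h3⟩ := D6_second
  obtain ⟨C, hCdef⟩ : ∃ C, C = 4 * C3 + 2 * C1 + 2 * C2 * C1 + 2 * C2 + C1 + 2 := ⟨_, rfl⟩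
  have hCpos : 0 < C2 * C1 := by positivity
  refine ⟨C, δ, T0, by rw [hCdef]; linarith, hδ, hT0, ?_⟩
  intro L Y T N hL hT hLT hY hN
  have hT1 : 1 ≤ T := hT0.trans hT
  have hTpos : 0 < T := by linarith
  have hL1 : 1 ≤ L := by linarith
  obtain ⟨y, hydef⟩ : ∃ y, y = Real.exp L := ⟨_, rfl⟩
  have hy3 : 3 ≤ y := by rw [hydef]; have := Real.add_one_le_exp L; linarith
  have hyY : y ^ 2 ≤ Y := by rw [hydef]; exact hY
  have hY1 : 1 ≤ Y := by nlinarith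
  have hyY1 : Real.exp L ≤ Y := by rw [← hydef]; nlinarith
  obtain ⟨l, hl⟩ : ∃ l, l = Real.log T := ⟨_, rfl⟩
  rw [← hl] at hLT hN
  have hl1 : 2 ≤ l := by linarith
  obtain ⟨η, hη⟩ : ∃ η, η = 4 * Real.exp L / Real.sqrt Y := ⟨_, rfl⟩
  obtain ⟨A, hA⟩ : ∃ A, A = (1 / 64 : ℝ) ^ N * (C1 * L ^ C1) := ⟨_, rfl⟩
  obtain ⟨hp, hd⟩ := RN_poly hy3 hyY N
  have hAdm0 : Adm 0 L := ⟨hL1, by rw [norm_zero]; positivity⟩
  have hAs : ∀ s : ℂ, Adm s L → ∫ x, |RN N y Y x ^ 2| ∂(nu s L) ≤ A := fun s hs => by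
    have e : ∀ x, |RN N y Y x ^ 2| = RN N y Y x ^ 2 := fun x => abs_of_nonneg (sq_nonneg _)
    simp_rw [e]
    rw [hA, hydef]
    exact h1 L s hL1 hs Y N hyY1
  have hR := h2 (2 * N * Real.log Y) L A T (fun x => RN N y Y x ^ 2) hL1 hT (by rw [← hl]; exact hN) hp
    (by rw [hydef] at hd ⊢; exact hd) hAs
  have hR0 : ∫ x, RN N y Y x ^ 2 ∂(nu 0 L) ≤ A := by
    rw [hA, hydef]
    exact h1 L 0 hL1 hAdm0 Y N hyY1
  rw [← hl] at hR
  have hR' := (abs_le.1 hR).2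
  -- bound of the mean of RN^2
  have cz : Continuous fun t : ℝ => riemannZeta (1 / 2 + t * Complex.I) := D5_zeta_cont
  have cRx : Continuous fun t : ℝ => RN N y Y (xt t) ^ 2 := hp.continuous.comp continuous_xt
  have hA0 : 0 ≤ A := by rw [hA]; positivity
  have hmean : (1 / T) * (∫ t in (0 : ℝ)..T, ‖riemannZeta (1 / 2 + t * Complex.I)‖ ^ 2 * RN N y Y (xt t) ^ 2) ≤
      l * A + (C2 * L * A + C2 * T ^ (-(3 * δ))) := by
    have : l * ∫ x, RN N y Y x ^ 2 ∂(nu 0 L) ≤ l * A := mul_le_mul_of_nonneg_left hR0 (by linarith)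
    linarith
  have hsec : (1 / T) * ∫ t in (0 : ℝ)..T, ‖riemannZeta (1 / 2 + t * Complex.I)‖ ^ 2 ≤ C3 * (1 + l) := by
    have := h3 T hT1
    rw [← hl] at this
    calc (1 / T) * ∫ t in (0 : ℝ)..T, ‖riemannZeta (1 / 2 + t * Complex.I)‖ ^ 2 ≤ (1 / T) * (C3 * T * (1 + l)) :=
          mul_le_mul_of_nonneg_left this (by positivity)
      _ = C3 * (1 + l) := by field_simp
  have cu : Continuous fun t : ℝ => conj (uu y (xt t)) :=
    Complex.continuous_conj.comp ((uu_cont y).1.comp continuous_xt)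
  have cA : Continuous fun x : Om => AY y Y x := by
    unfold AY La wp
    exact continuous_finsetSum _ fun p _ => continuous_finsetSum _ fun j _ =>
      ((continuous_const.mul (continuous_ch p)).pow j).div_const _
  have cP : Continuous fun t : ℝ => PhN N y Y (xt t) := by
    have : Continuous (PhN N y Y) := by
      unfold PhN
      exact continuous_finsetSum _ fun n _ => ((continuous_const.mul (Complex.continuous_ofReal.comp
        (Complex.continuous_im.comp cA))).neg.pow n).div_const _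
    exact this.comp continuous_xt
  have hpt : ∀ t : ℝ, ‖riemannZeta (1 / 2 + t * Complex.I)‖ ^ 2 * ‖conj (uu y (xt t)) - PhN N y Y (xt t)‖ ^ 2 ≤
      2 * η ^ 2 * ‖riemannZeta (1 / 2 + t * Complex.I)‖ ^ 2 +
      2 * (‖riemannZeta (1 / 2 + t * Complex.I)‖ ^ 2 * RN N y Y (xt t) ^ 2) := by
    intro t
    have h4 := phase_pointwise (y := y) (Y := Y) (by linarith) hY1 N (xt t)
    have h5 : 4 * y / Real.sqrt Y = η := by rw [hη, hydef]
    rw [h5] at h4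
    have h6 : ‖conj (uu y (xt t)) - PhN N y Y (xt t)‖ ^ 2 ≤ (η + RN N y Y (xt t)) ^ 2 :=
      pow_le_pow_left₀ (norm_nonneg _) h4 2
    have h7 : (η + RN N y Y (xt t)) ^ 2 ≤ 2 * η ^ 2 + 2 * RN N y Y (xt t) ^ 2 := by
      nlinarith [sq_nonneg (η - RN N y Y (xt t))]
    have h8 := mul_le_mul_of_nonneg_left (h6.trans h7) (sq_nonneg ‖riemannZeta (1 / 2 + t * Complex.I)‖)
    linarith
  have c1 : Continuous fun t : ℝ => ‖riemannZeta (1 / 2 + t * Complex.I)‖ ^ 2 *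
      ‖conj (uu y (xt t)) - PhN N y Y (xt t)‖ ^ 2 := (cz.norm.pow 2).mul ((cu.sub cP).norm.pow 2)
  have c2 : Continuous fun t : ℝ => 2 * η ^ 2 * ‖riemannZeta (1 / 2 + t * Complex.I)‖ ^ 2 :=
    continuous_const.mul (cz.norm.pow 2)
  have c3 : Continuous fun t : ℝ => 2 * (‖riemannZeta (1 / 2 + t * Complex.I)‖ ^ 2 * RN N y Y (xt t) ^ 2) :=
    continuous_const.mul ((cz.norm.pow 2).mul cRx)
  have c23 : Continuous fun t : ℝ => 2 * η ^ 2 * ‖riemannZeta (1 / 2 + t * Complex.I)‖ ^ 2 +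
      2 * (‖riemannZeta (1 / 2 + t * Complex.I)‖ ^ 2 * RN N y Y (xt t) ^ 2) := c2.add c3
  have hint : (∫ t in (0 : ℝ)..T, ‖riemannZeta (1 / 2 + t * Complex.I)‖ ^ 2 *
      ‖conj (uu y (xt t)) - PhN N y Y (xt t)‖ ^ 2) ≤
      2 * η ^ 2 * (∫ t in (0 : ℝ)..T, ‖riemannZeta (1 / 2 + t * Complex.I)‖ ^ 2) +
      2 * (∫ t in (0 : ℝ)..T, ‖riemannZeta (1 / 2 + t * Complex.I)‖ ^ 2 * RN N y Y (xt t) ^ 2) := by
    rw [← intervalIntegral.integral_const_mul, ← intervalIntegral.integral_const_mul,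
      ← intervalIntegral.integral_add (c2.intervalIntegrable _ _) (c3.intervalIntegrable _ _)]
    exact intervalIntegral.integral_mono_on hTpos.le (c1.intervalIntegrable _ _) (c23.intervalIntegrable _ _)
      fun t _ => hpt t
  rw [← hydef, ← hl]
  have hη' : 4 * y / Real.sqrt Y = η := by rw [hη, hydef]
  rw [hη']
  have hstep : (1 / T) * (∫ t in (0 : ℝ)..T, ‖riemannZeta (1 / 2 + t * Complex.I)‖ ^ 2 *
      ‖conj (uu y (xt t)) - PhN N y Y (xt t)‖ ^ 2) ≤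
      2 * η ^ 2 * (C3 * (1 + l)) + 2 * (l * A + (C2 * L * A + C2 * T ^ (-(3 * δ)))) := by
    have h4 := mul_le_mul_of_nonneg_left hint (show 0 ≤ 1 / T by positivity)
    refine h4.trans ?_
    have e : (1 / T) * (2 * η ^ 2 * (∫ t in (0 : ℝ)..T, ‖riemannZeta (1 / 2 + t * Complex.I)‖ ^ 2) +
      2 * (∫ t in (0 : ℝ)..T, ‖riemannZeta (1 / 2 + t * Complex.I)‖ ^ 2 * RN N y Y (xt t) ^ 2)) =
      2 * η ^ 2 * ((1 / T) * ∫ t in (0 : ℝ)..T, ‖riemannZeta (1 / 2 + t * Complex.I)‖ ^ 2) +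
      2 * ((1 / T) * ∫ t in (0 : ℝ)..T, ‖riemannZeta (1 / 2 + t * Complex.I)‖ ^ 2 * RN N y Y (xt t) ^ 2) := by ring
    rw [e]
    have := mul_le_mul_of_nonneg_left hsec (show 0 ≤ 2 * η ^ 2 by positivity)
    linarith
  refine hstep.trans ?_
  -- compare with the power of log T
  have hlC1 : l * L ^ C1 ≤ l ^ C := by
    have h4 : L ^ C1 ≤ l ^ C1 := Real.rpow_le_rpow (by linarith) hLT (by linarith)
    calc l * L ^ C1 ≤ l * l ^ C1 := mul_le_mul_of_nonneg_left h4 (by linarith)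
      _ = l ^ (1 + C1) := by rw [Real.rpow_add (by linarith), Real.rpow_one]
      _ ≤ l ^ C := Real.rpow_le_rpow_of_exponent_le (by linarith) (by rw [hCdef]; linarith)
  have hLC1 : L * L ^ C1 ≤ l ^ C := by
    refine le_trans ?_ hlC1
    exact mul_le_mul_of_nonneg_right hLT (by positivity)
  have hl1C : l ≤ l ^ C := by
    calc l = l ^ (1 : ℝ) := (Real.rpow_one l).symm
      _ ≤ l ^ C := Real.rpow_le_rpow_of_exponent_le (by linarith) (by rw [hCdef]; linarith)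
  have hTd : T ^ (-(3 * δ)) ≤ T ^ (-δ) := Real.rpow_le_rpow_of_exponent_le hT1 (by linarith)
  have hTd0 : 0 ≤ T ^ (-δ) := by positivity
  obtain ⟨W, hW⟩ : ∃ W, W = l ^ C := ⟨_, rfl⟩
  rw [← hW] at hlC1 hLC1 hl1C ⊢
  have hW1 : 2 ≤ W := hl1.trans hl1C
  obtain ⟨q, hq⟩ : ∃ q : ℝ, q = (1 / 64 : ℝ) ^ N := ⟨_, rfl⟩
  have hq0 : 0 ≤ q := by rw [hq]; positivity
  rw [← hq] at hA ⊢
  have t1 : 2 * η ^ 2 * (C3 * (1 + l)) ≤ 4 * C3 * W * η ^ 2 := by
    have : 1 + l ≤ 2 * W := by linarith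
    have := mul_le_mul_of_nonneg_left this (show 0 ≤ 2 * η ^ 2 * C3 by positivity)
    linarith
  have t2 : l * A ≤ C1 * W * q := by
    rw [hA]
    have := mul_le_mul_of_nonneg_left hlC1 (show 0 ≤ q * C1 by positivity)
    linarith
  have t3 : C2 * L * A ≤ C2 * C1 * W * q := by
    rw [hA]
    have := mul_le_mul_of_nonneg_left hLC1 (show 0 ≤ C2 * q * C1 by positivity)
    linarith
  have t4 : C2 * T ^ (-(3 * δ)) ≤ C2 * W * T ^ (-δ) := by
    have h4 : T ^ (-(3 * δ)) ≤ W * T ^ (-δ) := by nlinarith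
    have := mul_le_mul_of_nonneg_left h4 hC2.le
    linarith
  have hη2 : 0 ≤ W * η ^ 2 := by positivity
  have hWq : 0 ≤ W * q := by positivity
  have hWT : 0 ≤ W * T ^ (-δ) := by positivity
  have g1 : 4 * C3 * (W * η ^ 2) ≤ C * (W * η ^ 2) :=
    mul_le_mul_of_nonneg_right (by rw [hCdef]; linarith) hη2
  have g2 : (2 * C1 + 2 * (C2 * C1)) * (W * q) ≤ C * (W * q) :=
    mul_le_mul_of_nonneg_right (by rw [hCdef]; linarith) hWq
  have g3 : 2 * C2 * (W * T ^ (-δ)) ≤ C * (W * T ^ (-δ)) :=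
    mul_le_mul_of_nonneg_right (by rw [hCdef]; linarith) hWT
  linarith

end Pool.Agent.LibPH45
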