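import Mathlib
import Pool.Agent.LibPH45.Defs
import Pool.Agent.LibPH45.PH_05
import Pool.Agent.LibPH45.PH_10
import Pool.Agent.LibPH45.PH_15
import Pool.Agent.LibPH45.PH_16
import Pool.Agent.LibPH45.PH_17
import Pool.Agent.LibPH45.PH_18

/-! Row 19.
y = e^L. N = ceil(k1 log log T), Y = e^(2L) (log T)^(2 k2) with k1, k2 large (depending on K and on the constants), c small. Adm: 2/log T <= 1/(20 L) for T large since L <= c log T/log log T.
-/

set_option autoImplicit false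

namespace Pool.Agent.LibPH45

open MeasureTheory Filter Topology Pool.Agent.LibMM99 Pool.Agent.LibTG78
open scoped ComplexConjugate

theorem P19_T (c k δ' δ4 C ε M T0 : ℝ) (hδ' : 0 < δ') (hδ4 : 0 < δ4) (hε : 0 < ε) :
    ∀ᶠ T : ℝ in atTop, 1 ≤ T ∧ T0 ≤ T ∧ 1 ≤ Real.log T ∧ 1 ≤ Real.log (Real.log T) ∧
      40 * c ≤ Real.log (Real.log T) ∧
      (4 * k ^ 2 + 4 * k) * (Real.log (Real.log T)) ^ 2 ≤ δ' / 2 * Real.log T ∧
      5 * C / Real.log T ≤ ε ∧ 18 * C ≤ Real.log T ∧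
      T ^ (-δ4) ≤ Real.exp (-(k * Real.log (Real.log T))) ∧
      M * (Real.exp (6 * C * c / Real.log (Real.log T)) - 1) ≤ ε := by
  have hlog := Real.tendsto_log_atTop
  have hll : Tendsto (fun T : ℝ => Real.log (Real.log T)) atTop atTop := hlog.comp hlog
  have e6 : ∀ᶠ t : ℝ in atTop, (4 * k ^ 2 + 4 * k) * (Real.log t) ^ 2 ≤ δ' / 2 * t := by
    have h0 : 0 < δ' / 2 / (|4 * k ^ 2 + 4 * k| + 1) := by positivity
    have h1 := (Real.isLittleO_pow_log_id_atTop (n := 2)).bound h0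
    filter_upwards [h1, eventually_ge_atTop 1] with t ht ht1
    rw [Real.norm_of_nonneg (by positivity), id_eq, Real.norm_of_nonneg (by linarith)] at ht
    have h2 : (4 * k ^ 2 + 4 * k) * (Real.log t) ^ 2 ≤ (|4 * k ^ 2 + 4 * k| + 1) * (Real.log t) ^ 2 :=
      mul_le_mul_of_nonneg_right ((le_abs_self _).trans (by linarith)) (by positivity)
    refine h2.trans ?_
    have h3 : 0 < |4 * k ^ 2 + 4 * k| + 1 := by positivity
    calc (|4 * k ^ 2 + 4 * k| + 1) * (Real.log t) ^ 2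
        ≤ (|4 * k ^ 2 + 4 * k| + 1) * (δ' / 2 / (|4 * k ^ 2 + 4 * k| + 1) * t) :=
          mul_le_mul_of_nonneg_left ht h3.le
      _ = δ' / 2 * t := by field_simp
  have e9 : ∀ᶠ t : ℝ in atTop, k * Real.log t ≤ δ4 * t := by
    have h0 : 0 < δ4 / (|k| + 1) := by positivity
    have h1 := Real.isLittleO_log_id_atTop.bound h0
    filter_upwards [h1, eventually_ge_atTop 1] with t ht ht1
    rw [Real.norm_of_nonneg (Real.log_nonneg ht1), id_eq, Real.norm_of_nonneg (by linarith)] at ht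
    have h2 : k * Real.log t ≤ (|k| + 1) * Real.log t :=
      mul_le_mul_of_nonneg_right ((le_abs_self _).trans (by linarith)) (Real.log_nonneg ht1)
    refine h2.trans ?_
    have h3 : 0 < |k| + 1 := by positivity
    calc (|k| + 1) * Real.log t ≤ (|k| + 1) * (δ4 / (|k| + 1) * t) :=
          mul_le_mul_of_nonneg_left ht h3.le
      _ = δ4 * t := by field_simp
  have e7 : ∀ᶠ t : ℝ in atTop, 5 * C / t ≤ ε := by
    have h1 : Tendsto (fun t : ℝ => 5 * C / t) atTop (𝓝 0) := tendsto_const_nhds.div_atTop tendsto_id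
    exact (h1.eventually_lt_const hε).mono fun t ht => ht.le
  have e10 : ∀ᶠ l : ℝ in atTop, M * (Real.exp (6 * C * c / l) - 1) ≤ ε := by
    have h1 : Tendsto (fun l : ℝ => 6 * C * c / l) atTop (𝓝 0) := tendsto_const_nhds.div_atTop tendsto_id
    have h2 : Tendsto (fun l : ℝ => M * (Real.exp (6 * C * c / l) - 1)) atTop (𝓝 (M * (Real.exp 0 - 1))) :=
      (((Real.continuous_exp.tendsto 0).comp h1).sub_const 1).const_mul M
    rw [Real.exp_zero, sub_self, mul_zero] at h2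
    exact (h2.eventually_lt_const hε).mono fun t ht => ht.le
  filter_upwards [eventually_ge_atTop 1, eventually_ge_atTop T0, hlog.eventually_ge_atTop 1,
    hll.eventually_ge_atTop 1, hll.eventually_ge_atTop (40 * c), hlog.eventually e6,
    hlog.eventually e7, hlog.eventually_ge_atTop (18 * C), hlog.eventually e9, hll.eventually e10]
    with T h1 h2 h3 h4 h5 h6 h7 h8 h9 h10
  refine ⟨h1, h2, h3, h4, h5, h6, h7, h8, ?_, h10⟩
  rw [Real.rpow_def_of_pos (by linarith)]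
  apply Real.exp_le_exp.2
  linarith

theorem P19_Y (L l k : ℝ) :
    4 * Real.exp L / Real.sqrt (Real.exp (2 * L + 2 * (k * l))) = 4 * Real.exp (-(k * l)) := by
  have h1 : Real.exp (2 * L + 2 * (k * l)) = Real.exp (L + k * l) ^ 2 := by
    rw [← Real.exp_nat_mul]
    congr 1
    push_cast
    ring
  rw [h1, Real.sqrt_sq (Real.exp_pos _).le, Real.exp_add, Real.exp_neg]
  have h2 := Real.exp_pos L
  have h3 := Real.exp_pos (k * l)
  field_simp

theorem P19_pow {a : ℝ} {N : ℕ} (hN : a ≤ N) : (1 / 8 : ℝ) ^ N ≤ Real.exp (-a) := by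
  have h1 : (1 / 8 : ℝ) ≤ Real.exp (-1) := by
    have h2 := Real.exp_one_lt_d9
    rw [Real.exp_neg, one_div]
    apply inv_anti₀ (Real.exp_pos _)
    linarith
  calc (1 / 8 : ℝ) ^ N ≤ (Real.exp (-1)) ^ N := pow_le_pow_left₀ (by norm_num) h1 N
    _ = Real.exp (-(N : ℝ)) := by
        rw [← Real.exp_nat_mul]
        congr 1
        ring
    _ ≤ Real.exp (-a) := Real.exp_le_exp.2 (by linarith)

theorem P19_pow' {a : ℝ} {N : ℕ} (hN : a ≤ N) : (1 / 64 : ℝ) ^ N ≤ Real.exp (-a) :=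
  (pow_le_pow_left₀ (by norm_num) (by norm_num) N).trans (P19_pow hN)

theorem P19_small {C1 C k L t l : ℝ} {N : ℕ} (h1 : 1 ≤ C1) (h2 : C1 ≤ C) (h3 : C + 1 ≤ k) (hL : 1 ≤ L)
    (hLt : L ≤ t) (hl : 0 ≤ l) (ht : t = Real.exp l) (hN : k * l ≤ N) :
    C1 * L ^ C1 * (4 * Real.exp L / Real.sqrt (Real.exp (2 * L + 2 * (k * l))) + (1 / 8) ^ N) ≤
      5 * C / t := by
  have ht0 : 0 < t := by linarith
  have e1 : L ^ C1 ≤ Real.exp (C * l) := by
    calc L ^ C1 ≤ t ^ C1 := Real.rpow_le_rpow (by linarith) hLt (by linarith)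
      _ = Real.exp (C1 * l) := by rw [ht, ← Real.exp_mul, mul_comm]
      _ ≤ Real.exp (C * l) := Real.exp_le_exp.2 (mul_le_mul_of_nonneg_right h2 hl)
  have e2 := P19_pow hN
  rw [P19_Y]
  have e3 : 0 ≤ L ^ C1 := Real.rpow_nonneg (by linarith) _
  have e4 := Real.exp_pos (-(k * l))
  have e5 : 0 ≤ (1 / 8 : ℝ) ^ N := by positivity
  have hC : 0 ≤ C := by linarith
  calc C1 * L ^ C1 * (4 * Real.exp (-(k * l)) + (1 / 8) ^ N)
      ≤ C * Real.exp (C * l) * (4 * Real.exp (-(k * l)) + Real.exp (-(k * l))) := by gcongr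
    _ = 5 * C * Real.exp (C * l - k * l) := by rw [Real.exp_sub, Real.exp_neg]; ring
    _ ≤ 5 * C * Real.exp (-l) := by
        apply mul_le_mul_of_nonneg_left _ (by linarith)
        apply Real.exp_le_exp.2
        nlinarith
    _ = 5 * C / t := by rw [ht, Real.exp_neg]; ring

theorem P19_second {C4 C k L t l T δ4 K : ℝ} {N : ℕ} (h1 : 1 ≤ C4) (h2 : C4 ≤ C) (h3 : C + |K| + 1 ≤ k)
    (hl : 0 ≤ l) (ht : t = Real.exp l) (hN : k * l ≤ N)
    (hT : T ^ (-δ4) ≤ Real.exp (-(k * l))) (hCt : 18 * C ≤ t) :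
    C4 * t ^ C4 * ((4 * Real.exp L / Real.sqrt (Real.exp (2 * L + 2 * (k * l)))) ^ 2 + (1 / 64) ^ N +
      T ^ (-δ4)) ≤ t ^ (-K) := by
  have ht0 : 0 < t := by rw [ht]; exact Real.exp_pos _
  have hkl : 0 ≤ k * l := mul_nonneg (by linarith [abs_nonneg K]) hl
  have e1 : t ^ C4 ≤ Real.exp (C * l) := by
    calc t ^ C4 = Real.exp (C4 * l) := by rw [ht, ← Real.exp_mul, mul_comm]
      _ ≤ Real.exp (C * l) := Real.exp_le_exp.2 (mul_le_mul_of_nonneg_right h2 hl)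
  have e2 := P19_pow' hN
  rw [P19_Y]
  have e3 : 0 ≤ t ^ C4 := Real.rpow_nonneg (by linarith) _
  have e4 := Real.exp_pos (-(k * l))
  have e5 : 0 ≤ (1 / 64 : ℝ) ^ N := by positivity
  have e6 : (4 * Real.exp (-(k * l))) ^ 2 ≤ 16 * Real.exp (-(k * l)) := by
    have h4 : Real.exp (-(k * l)) ≤ 1 := Real.exp_le_one_iff.2 (by linarith)
    nlinarith
  have hC : 0 ≤ C := by linarith
  calc C4 * t ^ C4 * ((4 * Real.exp (-(k * l))) ^ 2 + (1 / 64) ^ N + T ^ (-δ4))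
      ≤ C4 * t ^ C4 * (16 * Real.exp (-(k * l)) + Real.exp (-(k * l)) + Real.exp (-(k * l))) := by
        apply mul_le_mul_of_nonneg_left _ (by positivity)
        linarith
    _ = C4 * t ^ C4 * (18 * Real.exp (-(k * l))) := by ring
    _ ≤ C * Real.exp (C * l) * (18 * Real.exp (-(k * l))) := by gcongr
    _ = 18 * C * Real.exp (C * l - k * l) := by rw [Real.exp_sub, Real.exp_neg]; ring
    _ ≤ 18 * C * Real.exp (-l + -(|K| * l)) := by
        apply mul_le_mul_of_nonneg_left _ (by linarith)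
        apply Real.exp_le_exp.2
        nlinarith
    _ = 18 * C / t * Real.exp (-(|K| * l)) := by rw [Real.exp_add, ht, Real.exp_neg l]; ring
    _ ≤ 1 * Real.exp (-(|K| * l)) := by
        apply mul_le_mul_of_nonneg_right _ (Real.exp_pos _).le
        rw [div_le_one ht0]
        exact hCt
    _ ≤ Real.exp (-K * l) := by
        rw [one_mul]
        apply Real.exp_le_exp.2
        nlinarith [le_abs_self K, neg_abs_le K]
    _ = t ^ (-K) := by rw [ht, ← Real.exp_mul, mul_comm]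

theorem P19_len {k δ' c L l t : ℝ} {N : ℕ} (hk : 1 ≤ k) (hl : 1 ≤ l) (hL : 0 ≤ L)
    (hc : c = δ' / (8 * k)) (hLt : L * l ≤ c * t)
    (h6 : (4 * k ^ 2 + 4 * k) * l ^ 2 ≤ δ' / 2 * t) (hN : (N : ℝ) ≤ k * l + 1) :
    N * (2 * L + 2 * (k * l) + 2) ≤ δ' * t := by
  have h1 : (N : ℝ) ≤ 2 * (k * l) := by nlinarith
  have h2 : 0 ≤ 2 * L + 2 * (k * l) + 2 := by nlinarith
  have h3 : 4 * k * (L * l) ≤ δ' / 2 * t := by
    have h4 : 4 * k * (L * l) ≤ 4 * k * (c * t) := mul_le_mul_of_nonneg_left hLt (by linarith)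
    have h5 : 4 * k * (c * t) = δ' / 2 * t := by
      rw [hc]
      field_simp
      ring
    linarith
  calc N * (2 * L + 2 * (k * l) + 2) ≤ 2 * (k * l) * (2 * L + 2 * (k * l) + 2) :=
        mul_le_mul_of_nonneg_right h1 h2
    _ = 4 * k * (L * l) + 4 * k ^ 2 * l ^ 2 + 4 * k * l := by ring
    _ ≤ 4 * k * (L * l) + (4 * k ^ 2 + 4 * k) * l ^ 2 := by nlinarith
    _ ≤ δ' * t := by linarith

theorem P19_rpow {A g L : ℝ} (hg : 0 ≤ g) (hL : 0 ≤ L) :
    A * (g * L) ^ (1 / 4 : ℝ) = A * g ^ (1 / 4 : ℝ) * L ^ (1 / 4 : ℝ) := by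
  rw [Real.mul_rpow hg hL, mul_assoc]

theorem P19_lim {P a e r : ℝ} (hr : 0 < r) (h : |P / r - a| < e) :
    |P - a * r| ≤ e * r := by
  have h1 : P - a * r = (P / r - a) * r := by field_simp
  rw [h1, abs_mul, abs_of_pos hr]
  exact mul_le_mul_of_nonneg_right h.le hr.le

theorem phase_model (δ K : ℝ) (hδ : 0 < δ) : ∃ c : ℝ, 0 < c ∧ ∀ ε : ℝ, 0 < ε → ∃ A : ℝ, 3 ≤ A ∧ ∀ y T : ℝ,
    A ≤ y → A ≤ T → Real.log y * Real.log (Real.log T) ≤ c * Real.log T → ∃ Φ : Om → ℂ,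
    IsPoly (δ * Real.log T) Φ ∧ DependsOn Φ (coo 1 y) ∧
    (∀ α β γ : ℂ, ‖α‖ ≤ 2 / Real.log T → ‖β‖ ≤ 2 / Real.log T → ‖γ‖ ≤ 2 / Real.log T →
      ‖JP α β γ y Φ - ((LibZM.Aconst (3 / 2) * (Real.exp Real.eulerMascheroniConstant * Real.log y) ^ (1 / 4 : ℝ) : ℝ) : ℂ)‖ ≤
        ε * (Real.log y) ^ (1 / 4 : ℝ)) ∧
    ‖(∫ x, ZZ 0 1 y x * Φ x ∂mu) -
        ((LibZM.Aconst (1 / 2) * (Real.exp Real.eulerMascheroniConstant * Real.log y) ^ (1 / 4 : ℝ) : ℝ) : ℂ)‖ ≤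
        ε * (Real.log y) ^ (1 / 4 : ℝ) ∧
    (1 / T) * (∫ t in (0 : ℝ)..T, ‖riemannZeta (1 / 2 + t * Complex.I)‖ ^ 2 * ‖conj (uu y (xt t)) - Φ (xt t)‖ ^ 2) ≤
      Real.log T ^ (-K) := by
  obtain ⟨C1, hC1, hJ⟩ := JP_err
  obtain ⟨C2, hC2, hU⟩ := JPu_close
  obtain ⟨C3, hC3, hO⟩ := one_err
  obtain ⟨C4, δ4, T0, hC4, hδ4, hT0, hS⟩ := second_err
  obtain ⟨hm3, hm1⟩ := main_limit
  set a3 : ℝ := LibZM.Aconst (3 / 2) * Real.exp Real.eulerMascheroniConstant ^ (1 / 4 : ℝ) with ha3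
  set a1 : ℝ := LibZM.Aconst (1 / 2) * Real.exp Real.eulerMascheroniConstant ^ (1 / 4 : ℝ) with ha1
  set C : ℝ := C1 + C2 + C3 + C4 with hC
  set k : ℝ := C + |K| + 1 with hk
  have hK0 : 0 ≤ |K| := abs_nonneg K
  have hC0 : 4 ≤ C := by linarith
  have hk5 : 5 ≤ k := by linarith
  set δ' : ℝ := min δ (δ4 / 2) with hδ'
  have hδ'0 : 0 < δ' := lt_min hδ (by linarith)
  have hδ'1 : δ' ≤ δ := min_le_left _ _
  have hδ'2 : δ' ≤ δ4 / 2 := min_le_right _ _
  set c : ℝ := δ' / (8 * k) with hc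
  have hc0 : 0 < c := by positivity
  refine ⟨c, hc0, fun ε hε => ?_⟩
  have hε3 : 0 < ε / 3 := by positivity
  have E3 : ∀ᶠ L : ℝ in atTop, |PS 3 1 (Real.exp L) * nz 0 1 (Real.exp L) ^ 2 / L ^ (1 / 4 : ℝ) - a3| <
      min (ε / 3) 1 := by
    have h1 := (Metric.tendsto_nhds.1 hm3) (min (ε / 3) 1) (lt_min hε3 one_pos)
    simpa [Real.dist_eq] using h1
  have E1 : ∀ᶠ L : ℝ in atTop, |PS 1 1 (Real.exp L) / L ^ (1 / 4 : ℝ) - a1| < ε / 3 := by
    have h1 := (Metric.tendsto_nhds.1 hm1) (ε / 3) hε3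
    simpa [Real.dist_eq] using h1
  obtain ⟨AL, hAL⟩ := eventually_atTop.1 (E3.and E1)
  obtain ⟨AT, hAT⟩ := eventually_atTop.1 (P19_T c k δ' δ4 C (ε / 3) (a3 + 1) T0 hδ'0 hδ4 hε3)
  refine ⟨max (Real.exp 2) (max (Real.exp AL) AT) + 3, by
    have := Real.exp_pos 2
    have := le_max_left (Real.exp 2) (max (Real.exp AL) AT)
    linarith, ?_⟩
  intro y T hy hT hyT
  have hm1' := le_max_left (Real.exp 2) (max (Real.exp AL) AT)
  have hm2' := (le_max_left (Real.exp AL) AT).trans (le_max_right (Real.exp 2) (max (Real.exp AL) AT))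
  have hm3' := (le_max_right (Real.exp AL) AT).trans (le_max_right (Real.exp 2) (max (Real.exp AL) AT))
  have hy0 : 0 < y := by linarith [Real.exp_pos 2]
  have hy3 : 3 ≤ y := by linarith [Real.exp_pos 2]
  obtain ⟨L, rfl⟩ : ∃ L, y = Real.exp L := ⟨Real.log y, (Real.exp_log hy0).symm⟩
  rw [Real.log_exp] at hyT ⊢
  have hL2 : 2 ≤ L := Real.exp_le_exp.1 (by linarith)
  have hALL : AL ≤ L := Real.exp_le_exp.1 (by linarith)
  obtain ⟨q1, q2⟩ := hAL L hALL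
  obtain ⟨t1, t2, t3, t4, t5, t6, t7, t8, t9, t10⟩ := hAT T (by linarith)
  set t : ℝ := Real.log T with ht
  set l : ℝ := Real.log t with hl
  have ht0 : 0 < t := by linarith
  have htl : t = Real.exp l := (Real.exp_log ht0).symm
  have hLl : L * l ≤ c * t := hyT
  have hL40 : 40 * L ≤ t := by
    by_contra hcon
    have h1 : t < 40 * L := not_le.1 hcon
    have h2 : c * t < c * (40 * L) := mul_lt_mul_of_pos_left h1 hc0
    have h3 : L * (40 * c) ≤ L * l := mul_le_mul_of_nonneg_left t5 (by linarith)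
    linarith [mul_comm c (40 * L), mul_comm L (40 * c), show c * (40 * L) = L * (40 * c) by ring]
  have hLt : L ≤ t := by linarith
  set N : ℕ := ⌈k * l⌉₊ with hN
  have hkl : 0 ≤ k * l := by positivity
  have hN1 : k * l ≤ N := Nat.le_ceil _
  have hN2 : (N : ℝ) ≤ k * l + 1 := (Nat.ceil_lt_add_one hkl).le
  set Y : ℝ := Real.exp (2 * L + 2 * (k * l)) with hY
  have hlogY : Real.log Y = 2 * L + 2 * (k * l) := by rw [hY, Real.log_exp]
  have hYy : Real.exp L ^ 2 ≤ Y := by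
    rw [hY, ← Real.exp_nat_mul]
    apply Real.exp_le_exp.2
    push_cast
    linarith
  have hYL : Real.exp L ≤ Y := by
    rw [hY]
    apply Real.exp_le_exp.2
    linarith
  have hlen := P19_len (N := N) (by linarith : 1 ≤ k) t4 (by linarith : 0 ≤ L) hc hLl t6 hN2
  have hlen1 : N * (Real.log Y + 2) ≤ δ * t := by
    rw [hlogY]
    exact hlen.trans (mul_le_mul_of_nonneg_right hδ'1 ht0.le)
  have hlen2 : 2 * N * Real.log Y ≤ δ4 * t := by
    rw [hlogY]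
    have h1 : (N : ℝ) * (2 * L + 2 * (k * l)) ≤ N * (2 * L + 2 * (k * l) + 2) :=
      mul_le_mul_of_nonneg_left (by linarith) (Nat.cast_nonneg N)
    have h2 : δ' * t ≤ δ4 / 2 * t := mul_le_mul_of_nonneg_right hδ'2 ht0.le
    linarith
  obtain ⟨p1, p2⟩ := PhN_poly hy3 hYy N
  have hr0 : 0 < L ^ (1 / 4 : ℝ) := Real.rpow_pos_of_pos (by linarith) _
  have hr1 : 1 ≤ L ^ (1 / 4 : ℝ) := Real.one_le_rpow (by linarith) (by norm_num)
  have hsm : ε / 3 ≤ ε / 3 * L ^ (1 / 4 : ℝ) := by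
    have := mul_le_mul_of_nonneg_left hr1 hε3.le
    linarith
  have hadm : ∀ s : ℂ, ‖s‖ ≤ 2 / t → Adm s L := fun s hs => by
    refine ⟨by linarith, hs.trans ?_⟩
    rw [div_le_div_iff₀ ht0 (by linarith)]
    linarith
  refine ⟨PhN N (Real.exp L) Y, p1.mono hlen1, p2, ?_, ?_, ?_⟩
  · intro α β γ hα hβ hγ
    have j1 := hJ L α β γ (by linarith) (hadm α hα) (hadm β hβ) (hadm γ hγ) Y N hYL
    have j2 := hU L α β γ (by linarith) (hadm α hα) (hadm β hβ) (hadm γ hγ)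
    have j1' : C1 * L ^ C1 * (4 * Real.exp L / Real.sqrt Y + (1 / 8) ^ N) ≤ ε / 3 * L ^ (1 / 4 : ℝ) :=
      (P19_small (C := C) hC1 (by linarith) (by linarith) (by linarith) hLt (by linarith) htl hN1).trans
        (t7.trans hsm)
    set P : ℝ := PS 3 1 (Real.exp L) * nz 0 1 (Real.exp L) ^ 2 with hP
    have j3 := P19_lim hr0 (q1.trans_le (min_le_left _ _))
    have j4 := P19_lim hr0 (q1.trans_le (min_le_right _ _))
    have j5 : P ≤ (a3 + 1) * L ^ (1 / 4 : ℝ) := by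
      have := (abs_le.1 j4).2
      linarith
    have j6 : C2 * (‖α‖ + ‖β‖ + ‖γ‖) * L ≤ 6 * C * c / l := by
      have h1 : L / t ≤ c / l := by
        rw [div_le_div_iff₀ ht0 (by linarith)]
        exact hLl
      calc C2 * (‖α‖ + ‖β‖ + ‖γ‖) * L ≤ C * (2 / t + 2 / t + 2 / t) * L := by
            have : C2 ≤ C := by linarith
            gcongr
        _ = 6 * C * (L / t) := by ring
        _ ≤ 6 * C * (c / l) := by gcongr
        _ = 6 * C * c / l := by ring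
    have j7 : 0 ≤ Real.exp (C2 * (‖α‖ + ‖β‖ + ‖γ‖) * L) - 1 := by
      have h1 : 0 ≤ C2 * (‖α‖ + ‖β‖ + ‖γ‖) * L := by positivity
      have h2 := Real.one_le_exp h1
      linarith
    have j8 : Real.exp (C2 * (‖α‖ + ‖β‖ + ‖γ‖) * L) - 1 ≤ Real.exp (6 * C * c / l) - 1 := by
      have := Real.exp_le_exp.2 j6
      linarith
    have j9 : P * (Real.exp (C2 * (‖α‖ + ‖β‖ + ‖γ‖) * L) - 1) ≤ ε / 3 * L ^ (1 / 4 : ℝ) := by
      by_cases ha : 0 ≤ a3 + 1
      · calc P * (Real.exp (C2 * (‖α‖ + ‖β‖ + ‖γ‖) * L) - 1)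
            ≤ ((a3 + 1) * L ^ (1 / 4 : ℝ)) * (Real.exp (C2 * (‖α‖ + ‖β‖ + ‖γ‖) * L) - 1) :=
              mul_le_mul_of_nonneg_right j5 j7
          _ ≤ ((a3 + 1) * L ^ (1 / 4 : ℝ)) * (Real.exp (6 * C * c / l) - 1) :=
              mul_le_mul_of_nonneg_left j8 (mul_nonneg ha hr0.le)
          _ = ((a3 + 1) * (Real.exp (6 * C * c / l) - 1)) * L ^ (1 / 4 : ℝ) := by ring
          _ ≤ ε / 3 * L ^ (1 / 4 : ℝ) := mul_le_mul_of_nonneg_right t10 hr0.le
      · have h1 : P ≤ 0 := j5.trans (mul_nonpos_of_nonpos_of_nonneg (not_le.1 ha).le hr0.le)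
        have h2 : P * (Real.exp (C2 * (‖α‖ + ‖β‖ + ‖γ‖) * L) - 1) ≤ 0 :=
          mul_nonpos_of_nonpos_of_nonneg h1 j7
        exact h2.trans (by positivity)
    have j10 : ‖((P : ℝ) : ℂ) - ((LibZM.Aconst (3 / 2) *
        (Real.exp Real.eulerMascheroniConstant * L) ^ (1 / 4 : ℝ) : ℝ) : ℂ)‖ ≤ ε / 3 * L ^ (1 / 4 : ℝ) := by
      rw [P19_rpow (Real.exp_pos _).le (by linarith), ← Complex.ofReal_sub, Complex.norm_real,
        Real.norm_eq_abs]
      exact j3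
    calc ‖JP α β γ (Real.exp L) (PhN N (Real.exp L) Y) - ((LibZM.Aconst (3 / 2) *
          (Real.exp Real.eulerMascheroniConstant * L) ^ (1 / 4 : ℝ) : ℝ) : ℂ)‖
        ≤ ‖JP α β γ (Real.exp L) (PhN N (Real.exp L) Y) -
            JP α β γ (Real.exp L) (fun x => conj (uu (Real.exp L) x))‖ +
          ‖JP α β γ (Real.exp L) (fun x => conj (uu (Real.exp L) x)) - ((P : ℝ) : ℂ)‖ +
          ‖((P : ℝ) : ℂ) - ((LibZM.Aconst (3 / 2) *
            (Real.exp Real.eulerMascheroniConstant * L) ^ (1 / 4 : ℝ) : ℝ) : ℂ)‖ := by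
          refine le_trans (le_of_eq ?_) ((norm_add_le _ _).trans (add_le_add (norm_add_le _ _) le_rfl))
          congr 1
          ring
      _ ≤ ε / 3 * L ^ (1 / 4 : ℝ) + ε / 3 * L ^ (1 / 4 : ℝ) + ε / 3 * L ^ (1 / 4 : ℝ) :=
          add_le_add (add_le_add (j1.trans j1') (j2.trans j9)) j10
      _ = ε * L ^ (1 / 4 : ℝ) := by ring
  · have j1 := hO L (by linarith) Y N hYL
    have j1' : C3 * L ^ C3 * (4 * Real.exp L / Real.sqrt Y + (1 / 8) ^ N) ≤ ε / 3 * L ^ (1 / 4 : ℝ) :=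
      (P19_small (C := C) hC3 (by linarith) (by linarith) (by linarith) hLt (by linarith) htl hN1).trans
        (t7.trans hsm)
    have j3 := P19_lim hr0 q2
    have j10 : ‖((PS 1 1 (Real.exp L) : ℝ) : ℂ) - ((LibZM.Aconst (1 / 2) *
        (Real.exp Real.eulerMascheroniConstant * L) ^ (1 / 4 : ℝ) : ℝ) : ℂ)‖ ≤ ε / 3 * L ^ (1 / 4 : ℝ) := by
      rw [P19_rpow (Real.exp_pos _).le (by linarith), ← Complex.ofReal_sub, Complex.norm_real,
        Real.norm_eq_abs]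
      exact j3
    calc ‖(∫ x, ZZ 0 1 (Real.exp L) x * PhN N (Real.exp L) Y x ∂mu) - ((LibZM.Aconst (1 / 2) *
          (Real.exp Real.eulerMascheroniConstant * L) ^ (1 / 4 : ℝ) : ℝ) : ℂ)‖
        ≤ ‖(∫ x, ZZ 0 1 (Real.exp L) x * PhN N (Real.exp L) Y x ∂mu) -
            ((PS 1 1 (Real.exp L) : ℝ) : ℂ)‖ +
          ‖((PS 1 1 (Real.exp L) : ℝ) : ℂ) - ((LibZM.Aconst (1 / 2) *
            (Real.exp Real.eulerMascheroniConstant * L) ^ (1 / 4 : ℝ) : ℝ) : ℂ)‖ := by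
          refine le_trans (le_of_eq ?_) (norm_add_le _ _)
          congr 1
          ring
      _ ≤ ε / 3 * L ^ (1 / 4 : ℝ) + ε / 3 * L ^ (1 / 4 : ℝ) := add_le_add (j1.trans j1') j10
      _ ≤ ε * L ^ (1 / 4 : ℝ) := by
          have : 0 ≤ ε / 3 * L ^ (1 / 4 : ℝ) := by positivity
          linarith
  · refine (hS L Y T N hL2 t2 hLt hYy hlen2).trans ?_
    exact P19_second (C := C) hC4 (by linarith) le_rfl (by linarith) htl hN1 t9 t8

end Pool.Agent.LibPH45
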